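import Pool.Agent.N748.MG.LD

set_option autoImplicit false

/-! The law of `log |ζ|` at the large deviation scales, with a weight. -/

namespace Pool.Agent.U899.TM.LDW

open Finset Filter MeasureTheory Topology Complex
open Pool.Agent.N748.MG Pool.Agent.N748.MG.LD

/-- complex moments with a weight -/
def WCM (w : ℝ → ℝ) (G : ℂ → ℂ) : Prop := ∀ R D : ℝ, 0 < R → 0 < D → ∀ ε : ℝ, 0 < ε → Ev fun X δ =>
  ∃ N : Set ℝ, MeasurableSet N ∧ N ⊆ Set.Icc 0 X ∧ volume (Set.Icc 0 X \ N) ≤ ENNReal.ofReal (δ ^ D * X) ∧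
    (∀ t ∈ N, riemannZeta (pw δ t) ≠ 0) ∧
    ∀ s : ℂ, ‖s‖ ≤ R → ‖((2 * δ : ℝ) : ℂ) ^ (s ^ 2) * (∫ t in N, ((w t : ℝ) : ℂ) * ((‖riemannZeta (pw δ t)‖ : ℝ) : ℂ) ^ (2 * s)) -
      X * G s‖ ≤ ε * X

/-- the properties of the sets -/
structure Gw (w : ℝ → ℝ) (G : ℂ → ℂ) (d : ℝ → ℝ) (D : ℝ) (n : ℕ) (T : ℝ) (N : Set ℝ) : Prop where
  T0 : 0 ≤ T
  meas : MeasurableSet N
  sub : N ⊆ Set.Icc 0 T
  vol : volume (Set.Icc 0 T \ N) ≤ ENNReal.ofReal (d T ^ D * T)
  nz : ∀ t ∈ N, riemannZeta (pw (d T) t) ≠ 0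
  est : ∀ s : ℂ, ‖s‖ ≤ n + 1 → ‖((2 * d T : ℝ) : ℂ) ^ (s ^ 2) *
    (∫ t in N, ((w t : ℝ) : ℂ) * ((‖riemannZeta (pw (d T) t)‖ : ℝ) : ℂ) ^ (2 * s)) - T * G s‖ ≤ 1 / ((n : ℝ) + 1) * T

variable {w : ℝ → ℝ} {G : ℂ → ℂ}

theorem Gw.mono {d : ℝ → ℝ} {D : ℝ} (m n : ℕ) (T : ℝ) (N : Set ℝ) (hmn : m ≤ n)
    (h : Gw w G d D n T N) : Gw w G d D m T N := by
  have h1 : (m : ℝ) ≤ n := by exact_mod_cast hmn
  refine ⟨h.T0, h.meas, h.sub, h.vol, h.nz, fun s hs => (h.est s (by linarith)).trans ?_⟩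
  refine mul_le_mul_of_nonneg_right ?_ h.T0
  exact one_div_le_one_div_of_le (by positivity) (by linarith)

theorem exists_sets (hM : WCM w G) {d : ℝ → ℝ} (hd : Ad d) {D : ℝ} (hD : 0 < D) :
    ∃ N : ℝ → Set ℝ, ∀ n, ∀ᶠ T : ℝ in atTop, Gw w G d D n T (N T) := by
  refine diag (Gw w G d D) (fun n => ?_) Gw.mono
  have h1 := (hM (n + 1) D (by positivity) hD (1 / ((n : ℝ) + 1)) (by positivity)).app hd
  filter_upwards [h1, eventually_ge_atTop 0] with T ⟨N, a1, a2, a3, a4, a5⟩ hT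
  exact ⟨N, hT, a1, a2, a3, a4, a5⟩

/-- the measure -/
noncomputable def nu (w : ℝ → ℝ) (δ V r T : ℝ) (N : Set ℝ) : Measure ℝ :=
  ((volume.restrict N).withDensity (fun t => ENNReal.ofReal (w t * rho δ V r T t))).map (X δ V)

theorem int_nu {E : Type*} [NormedAddCommGroup E] [NormedSpace ℝ E] (hw : Measurable w) (w0 : ∀ t, 0 ≤ w t) {δ r T : ℝ}
    (h0 : 0 < δ) (h1 : δ ≤ 1 / 16) (hr : 0 < r) (hT : 0 < T) (V : ℝ) (N : Set ℝ) {f : ℝ → E}
    (hf : StronglyMeasurable f) :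
    ∫ x, f x ∂(nu w δ V r T N) = ∫ t in N, (w t * rho δ V r T t) • f (X δ V t) := by
  unfold nu
  rw [integral_map (X_meas h0 h1 V).aemeasurable hf.aestronglyMeasurable]
  have h2 : (fun t => ENNReal.ofReal (w t * rho δ V r T t)) =
      fun t => (((w t * rho δ V r T t).toNNReal : NNReal) : ENNReal) := rfl
  have hm2 : Measurable fun t => w t * rho δ V r T t := hw.mul (rho_meas h0 h1 V r T)
  rw [h2, integral_withDensity_eq_integral_smul hm2.real_toNNReal]
  refine integral_congr_ae (Eventually.of_forall fun t => ?_)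
  show (w t * rho δ V r T t).toNNReal • f (X δ V t) = (w t * rho δ V r T t) • f (X δ V t)
  rw [NNReal.smul_def, Real.coe_toNNReal _ (mul_nonneg (w0 t) (rho_nn hr hT V t))]

theorem four (hw : Measurable w) (w0 : ∀ t, 0 ≤ w t) {δ r T : ℝ} (h0 : 0 < δ) (h1 : δ ≤ 1 / 16) (hr : 0 < r) (hT : 0 < T) (V ξ : ℝ)
    {N : Set ℝ} (hN : MeasurableSet N) (hnz : ∀ t ∈ N, riemannZeta (pw δ t) ≠ 0) :
    ∫ x, cexp (ξ * x * I) ∂(nu w δ V r T N) =
      (1 / (T * r) : ℂ) * Real.exp (-(ξ ^ 2 * Real.log (1 / (2 * δ)) / 4)) *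
        (((2 * δ : ℝ) : ℂ) ^ ((V + ξ / 2 * I : ℂ) ^ 2) *
          ∫ t in N, ((w t : ℝ) : ℂ) * ((‖riemannZeta (pw δ t)‖ : ℝ) : ℂ) ^ (2 * (V + ξ / 2 * I : ℂ))) := by
  rw [int_nu hw w0 h0 h1 hr hT V N (by
    have : Continuous (fun x : ℝ => cexp (ξ * x * I)) := by fun_prop
    exact this.stronglyMeasurable)]
  rw [← mul_assoc, ← integral_const_mul]
  refine setIntegral_congr_fun hN fun t ht => ?_
  have hz : 0 < ‖riemannZeta (pw δ t)‖ := norm_pos_iff.2 (hnz t ht)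
  have hz' : ((‖riemannZeta (pw δ t)‖ : ℝ) : ℂ) ≠ 0 := by
    rw [Ne, Complex.ofReal_eq_zero]
    exact hz.ne'
  have hr' : (r : ℂ) ≠ 0 := by exact_mod_cast hr.ne'
  have hT' : (T : ℂ) ≠ 0 := by exact_mod_cast hT.ne'
  show (w t * rho δ V r T t) • cexp (ξ * (X δ V t : ℝ) * I) = _
  rw [cpow_eq h0, Complex.cpow_def_of_ne_zero hz', ← Complex.ofReal_log hz.le, Complex.real_smul]
  unfold rho X
  rw [Real.rpow_def_of_pos hz]
  set l := Real.log ‖riemannZeta (pw δ t)‖ with hl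
  set Λ := Real.log (1 / (2 * δ)) with hΛ
  push_cast
  have e1 : ((w t : ℂ) * (1 / (T : ℂ) * cexp (-((Λ : ℂ) * (V : ℂ) ^ 2)) / r * cexp ((l : ℂ) * (2 * V)))) *
      cexp (ξ * (l - V * Λ) * I) = (1 / (T * r) : ℂ) * (w t : ℂ) *
        (cexp (-((Λ : ℂ) * (V : ℂ) ^ 2)) * cexp ((l : ℂ) * (2 * V)) *
          cexp (ξ * (l - V * Λ) * I)) := by
    field_simp
  have e2 : (1 / ((T : ℂ) * r)) * cexp (-((ξ : ℂ) ^ 2 * Λ / 4)) *
      cexp (-(Λ : ℂ) * (V + ξ / 2 * I) ^ 2) * ((w t : ℂ) * cexp ((l : ℂ) * (2 * (V + ξ / 2 * I)))) =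
      (1 / (T * r) : ℂ) * (w t : ℂ) * (cexp (-((ξ : ℂ) ^ 2 * Λ / 4)) *
      cexp (-(Λ : ℂ) * (V + ξ / 2 * I) ^ 2) * cexp ((l : ℂ) * (2 * (V + ξ / 2 * I)))) := by
    ring
  rw [e1, e2]
  congr 1
  rw [← Complex.exp_add, ← Complex.exp_add, ← Complex.exp_add, ← Complex.exp_add]
  congr 1
  linear_combination (-(Λ : ℂ) * ξ ^ 2 / 4 * (-1)) * Complex.I_sq

theorem fin (w0 : ∀ t, 0 ≤ w t) {d : ℝ → ℝ} {D V r T : ℝ} {n : ℕ} {N : Set ℝ} (h : Gw w G d D n T N)
    (hr : 0 < r) (hT : 0 < T) (hV : |V| ≤ n + 1) (hrV : G V = r)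
    (hn : 1 / ((n : ℝ) + 1) < r) : IsFiniteMeasure (nu w (d T) V r T N) := by
  have hc : IntegrableOn (fun t : ℝ => ((w t : ℝ) : ℂ) * ((‖riemannZeta (pw (d T) t)‖ : ℝ) : ℂ) ^ (2 * (V : ℂ)))
      N volume := by
    by_contra hni
    have h2 := h.est V (by rw [Complex.norm_real]; exact hV)
    rw [integral_undef hni, mul_zero, zero_sub, norm_neg, hrV, norm_mul, Complex.norm_real,
      Complex.norm_real, Real.norm_of_nonneg hT.le, Real.norm_of_nonneg hr.le] at h2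
    nlinarith
  have hre : IntegrableOn (fun t => w t * rho (d T) V r T t) N volume := by
    have h3 := hc.norm.const_mul (1 / T * Real.exp (-(Real.log (1 / (2 * d T)) * V ^ 2)) / r)
    refine h3.congr ?_
    filter_upwards [ae_restrict_mem h.meas] with t ht
    have hz : 0 < ‖riemannZeta (pw (d T) t)‖ := norm_pos_iff.2 (h.nz t ht)
    unfold rho
    rw [norm_mul, Complex.norm_real, Real.norm_of_nonneg (w0 t), Complex.norm_cpow_eq_rpow_re_of_pos hz]
    have e : (2 * (V : ℂ)).re = 2 * V := by simp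
    rw [e]
    ring
  have h4 : IsFiniteMeasure ((volume.restrict N).withDensity
      (fun t => ENNReal.ofReal (w t * rho (d T) V r T t))) :=
    isFiniteMeasure_withDensity_ofReal hre.2
  unfold nu
  infer_instance

/-- the integral of `exp (-2 V x) h(x)` -/
theorem int_h (hw : Measurable w) (w0 : ∀ t, 0 ≤ w t) {δ r T : ℝ} (h0 : 0 < δ) (h1 : δ ≤ 1 / 16) (hr : 0 < r) (hT : 0 < T) (V : ℝ)
    {N : Set ℝ} (hN : MeasurableSet N) (hnz : ∀ t ∈ N, riemannZeta (pw δ t) ≠ 0) {h : ℝ → ℝ}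
    (hm : Measurable h) :
    r * ∫ x, Real.exp (-(2 * V * x)) * h x ∂(nu w δ V r T N) =
      (2 * δ) ^ (-(V ^ 2)) * ((1 / T) * ∫ t in N, w t * h (X δ V t)) := by
  rw [int_nu hw w0 h0 h1 hr hT V N (f := fun x => Real.exp (-(2 * V * x)) * h x) (by
    have h2 : Measurable (fun x : ℝ => Real.exp (-(2 * V * x))) := by fun_prop
    exact (h2.mul hm).stronglyMeasurable), ← integral_const_mul, ← integral_const_mul,
    ← integral_const_mul]
  refine setIntegral_congr_fun hN fun t ht => ?_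
  have hz : 0 < ‖riemannZeta (pw δ t)‖ := norm_pos_iff.2 (hnz t ht)
  simp only [smul_eq_mul]
  have e : rho δ V r T t * Real.exp (-(2 * V * X δ V t)) = 1 / r * ((2 * δ) ^ (-(V ^ 2)) * (1 / T)) := by
    unfold rho X
    rw [Real.rpow_def_of_pos hz, Real.rpow_def_of_pos (by positivity : 0 < 2 * δ), log_eq]
    set l := Real.log ‖riemannZeta (pw δ t)‖ with hl
    have e1 : 1 / T * Real.exp (-(-Real.log (2 * δ) * V ^ 2)) / r * Real.exp (l * (2 * V)) *
        Real.exp (-(2 * V * (l - V * -Real.log (2 * δ)))) = 1 / T / r *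
        (Real.exp (-(-Real.log (2 * δ) * V ^ 2)) * Real.exp (l * (2 * V)) *
        Real.exp (-(2 * V * (l - V * -Real.log (2 * δ))))) := by ring
    rw [e1, ← Real.exp_add, ← Real.exp_add]
    have e2 : -(-Real.log (2 * δ) * V ^ 2) + l * (2 * V) + -(2 * V * (l - V * -Real.log (2 * δ))) =
        Real.log (2 * δ) * -V ^ 2 := by ring
    rw [e2]
    field_simp
  calc r * (w t * rho δ V r T t * (Real.exp (-(2 * V * X δ V t)) * h (X δ V t)))
      = r * ((rho δ V r T t * Real.exp (-(2 * V * X δ V t))) * (w t * h (X δ V t))) := by ring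
    _ = _ := by
        rw [e]
        field_simp

theorem main (hL : S_LLT) (hw : Measurable w) (w0 : ∀ t, 0 ≤ w t) {B : ℝ} (wB : ∀ t, w t ≤ B) (hG : Continuous G)
    (hM : WCM w G) {d : ℝ → ℝ} (hd : Ad d) {V r : ℝ} (hr : 0 < r) (hrV : G V = r)
    (h : ℝ → ℝ) (S : Finset ℝ) (hm : Measurable h)
    (hcont : ∀ x, x ∉ S → ContinuousAt h x) (hb1 : ∃ C : ℝ, ∀ x, |h x| ≤ C)
    (hb2 : ∃ C : ℝ, ∀ x, |h x| * (1 + x ^ 2) ≤ C * Real.exp (2 * V * x)) :
    Tendsto (fun T : ℝ => Real.sqrt (Real.pi * Real.log (1 / (2 * d T))) * (2 * d T) ^ (-(V ^ 2)) *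
    ((1 / T) * ∫ t in (0:ℝ)..T, w t * h (Real.log ‖riemannZeta (pw (d T) t)‖ - V * Real.log (1 / (2 * d T))))) atTop
    (𝓝 (r * ∫ x, Real.exp (-(2 * V * x)) * h x)) := by
  obtain ⟨C1, hC1⟩ := hb1
  obtain ⟨C2, hC2⟩ := hb2
  have hD : 0 < V ^ 2 + 2 := by positivity
  obtain ⟨N, hN⟩ := exists_sets hM hd hD
  have hsm : ∀ᶠ T : ℝ in atTop, 0 < d T ∧ d T ≤ 1 / 16 ∧ 1 ≤ T := by
    filter_upwards [hd.pos, hd.t0.eventually_le_const (show (0 : ℝ) < 1 / 16 by norm_num),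
      eventually_ge_atTop 1] with T a b c
    exact ⟨a, b, c⟩
  have hC1' : 0 ≤ C1 := (abs_nonneg _).trans (hC1 0)
  have hB0 : 0 ≤ B := (w0 0).trans (wB 0)
  have hBC : ∀ t x, |w t * h x| ≤ B * C1 := by
    intro t x
    rw [abs_mul, abs_of_nonneg (w0 t)]
    exact mul_le_mul (wB t) (hC1 x) (abs_nonneg _) hB0
  -- the parameter tends to infinity
  have hΛ : Tendsto (fun T : ℝ => Real.log (1 / (2 * d T))) atTop atTop := by
    have h1 : Tendsto (fun T : ℝ => 2 * d T) atTop (𝓝[>] 0) := by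
      rw [tendsto_nhdsWithin_iff]
      refine ⟨?_, ?_⟩
      · have := hd.t0.const_mul 2
        rwa [mul_zero] at this
      · filter_upwards [hd.pos] with T hT
        show 0 < 2 * d T
        linarith
    have h2 := Real.tendsto_log_nhdsGT_zero.comp h1
    have h3 := tendsto_neg_atBot_atTop.comp h2
    refine h3.congr fun T => ?_
    simp only [Function.comp_apply]
    rw [log_eq]
  -- the local limit lemma
  have key := hL (fun T => nu w (d T) V r T (N T)) (fun T => Real.log (1 / (2 * d T)))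
    (fun ξ : ℝ => G (V + ξ / 2 * I) / r) ?_ hΛ ?_ ?_ ?_
    (fun x => Real.exp (-(2 * V * x)) * h x) S ?_ ?_ ?_
  rotate_left
  · obtain ⟨n, hn⟩ := exists_nat_gt (max |V| (1 / r))
    filter_upwards [hN n, hsm] with T hT hT2
    have h1 : |V| ≤ (n : ℝ) + 1 := by linarith [le_max_left |V| (1 / r)]
    refine fin w0 hT hr (by linarith [hT2.2.2]) h1 hrV ?_
    have h2 : 1 / r < (n : ℝ) + 1 := by linarith [le_max_right |V| (1 / r)]
    rw [div_lt_iff₀ hr] at h2
    rw [div_lt_iff₀ (by positivity)]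
    linarith
  · have : Continuous (fun ξ : ℝ => (V : ℂ) + ξ / 2 * I) := by fun_prop
    exact (hG.comp this).div_const _
  · simp only [Complex.ofReal_zero, zero_div, zero_mul, add_zero]
    rw [hrV]
    exact div_self (by exact_mod_cast hr.ne')
  · intro R hR ε hε
    obtain ⟨n, hn⟩ := exists_nat_gt (max (|V| + R) (1 / (ε * r)))
    filter_upwards [hN n, hsm] with T hT hT2 ξ hξ
    obtain ⟨h0, h1, hT1⟩ := hT2
    have hT0 : 0 < T := by linarith
    rw [four hw w0 h0 h1 hr hT0 V ξ hT.meas hT.nz]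
    have h2 : ‖(V : ℂ) + ξ / 2 * I‖ ≤ (n : ℝ) + 1 := by
      have h3 : ‖(V : ℂ) + ξ / 2 * I‖ ≤ |V| + |ξ| / 2 := by
        refine (norm_add_le _ _).trans ?_
        rw [Complex.norm_real, norm_mul, Complex.norm_I, mul_one, norm_div, Complex.norm_real,
          Real.norm_eq_abs, Real.norm_eq_abs]
        norm_num
      have := le_max_left (|V| + R) (1 / (ε * r))
      linarith
    have h4 := hT.est _ h2
    have h5 : 1 / ((n : ℝ) + 1) ≤ ε * r := by
      have h6 := le_max_right (|V| + R) (1 / (ε * r))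
      have h7 : 1 / (ε * r) < (n : ℝ) + 1 := by linarith
      rw [div_lt_iff₀ (by positivity)] at h7
      rw [div_le_iff₀ (by positivity)]
      linarith
    set W : ℂ := ((2 * d T : ℝ) : ℂ) ^ ((V + ξ / 2 * I : ℂ) ^ 2) *
          ∫ t in N T, ((w t : ℝ) : ℂ) * ((‖riemannZeta (pw (d T) t)‖ : ℝ) : ℂ) ^ (2 * (V + ξ / 2 * I : ℂ)) with hW
    set ex : ℝ := Real.exp (-(ξ ^ 2 * Real.log (1 / (2 * d T)) / 4)) with hex
    have hex0 : 0 < ex := Real.exp_pos _
    have hr' : (r : ℂ) ≠ 0 := by exact_mod_cast hr.ne'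
    have hT' : (T : ℂ) ≠ 0 := by exact_mod_cast hT0.ne'
    have e : (1 / (T * r) : ℂ) * (ex : ℂ) * W - G (V + ξ / 2 * I) / r * (ex : ℂ) =
        (1 / (T * r) : ℂ) * (ex : ℂ) * (W - T * G (V + ξ / 2 * I)) := by
      field_simp
    rw [e, norm_mul, norm_mul, Complex.norm_real, Real.norm_of_nonneg hex0.le]
    have e2 : ‖(1 / (T * r) : ℂ)‖ = 1 / (T * r) := by
      rw [norm_div, norm_one, norm_mul, Complex.norm_real, Complex.norm_real,
        Real.norm_of_nonneg hT0.le, Real.norm_of_nonneg hr.le]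
    rw [e2]
    calc 1 / (T * r) * ex * ‖W - T * G (V + ξ / 2 * I)‖ ≤ 1 / (T * r) * ex * (ε * r * T) := by
          refine mul_le_mul_of_nonneg_left (h4.trans ?_) (by positivity)
          exact mul_le_mul_of_nonneg_right h5 hT0.le
      _ = ε * ex := by field_simp
  · have h2 : Measurable (fun x : ℝ => Real.exp (-(2 * V * x))) := by fun_prop
    exact h2.mul hm
  · intro x hx
    have h2 : ContinuousAt (fun x : ℝ => Real.exp (-(2 * V * x))) x := by fun_prop
    exact h2.mul (hcont x hx)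
  · refine ⟨C2, fun x => ?_⟩
    rw [abs_mul, Real.abs_exp, mul_assoc]
    calc Real.exp (-(2 * V * x)) * (|h x| * (1 + x ^ 2)) ≤
          Real.exp (-(2 * V * x)) * (C2 * Real.exp (2 * V * x)) :=
          mul_le_mul_of_nonneg_left (hC2 x) (Real.exp_pos _).le
      _ = C2 * (Real.exp (-(2 * V * x)) * Real.exp (2 * V * x)) := by ring
      _ = C2 := by rw [← Real.exp_add, neg_add_cancel, Real.exp_zero, mul_one]
  -- the rest
  set E : ℝ → ℝ := fun T => Real.sqrt (Real.pi * Real.log (1 / (2 * d T))) *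
    (2 * d T) ^ (-(V ^ 2)) * ((1 / T) * ∫ t in Set.Icc 0 T \ N T, w t * h (X (d T) V t)) with hE
  have hE0 : Tendsto E atTop (𝓝 0) := by
    have hb : ∀ᶠ T : ℝ in atTop, ‖E T‖ ≤ (B * C1) * (d T ^ 2 + 2 * d T) := by
      filter_upwards [hN 0, hsm] with T hT hT2
      obtain ⟨h0, h1, hT1⟩ := hT2
      have hT0 : 0 < T := by linarith
      have h2 : ‖∫ t in Set.Icc 0 T \ N T, w t * h (X (d T) V t)‖ ≤ (B * C1) * (d T ^ (V ^ 2 + 2) * T) := by
        have hfin : volume (Set.Icc 0 T \ N T) < ⊤ := lt_of_le_of_lt hT.vol ENNReal.ofReal_lt_top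
        refine (norm_setIntegral_le_of_norm_le_const (C := B * C1) hfin fun t _ => ?_).trans ?_
        · exact hBC _ _
        · refine mul_le_mul_of_nonneg_left ?_ (by positivity)
          have h3 := ENNReal.toReal_mono ENNReal.ofReal_ne_top hT.vol
          rw [ENNReal.toReal_ofReal (by positivity)] at h3
          exact h3
      have h5 : 0 ≤ Real.log (1 / (2 * d T)) := by
        apply Real.log_nonneg
        rw [le_div_iff₀ (by positivity)]
        linarith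
      have h3 : Real.sqrt (Real.pi * Real.log (1 / (2 * d T))) ≤ 1 + 2 / d T := by
        have h4 : Real.log (1 / (2 * d T)) ≤ 1 / (2 * d T) := Real.log_le_self (by positivity)
        have h6 : Real.pi * Real.log (1 / (2 * d T)) ≤ 2 / d T := by
          calc Real.pi * Real.log (1 / (2 * d T)) ≤ 4 * (1 / (2 * d T)) :=
                mul_le_mul Real.pi_le_four h4 h5 (by norm_num)
            _ = 2 / d T := by field_simp; norm_num
        have h7 : 0 ≤ 2 / d T := by positivity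
        rw [Real.sqrt_le_left (by positivity)]
        nlinarith
      have h8 : (2 * d T) ^ (-(V ^ 2)) * d T ^ (V ^ 2 + 2) ≤ d T ^ 2 := by
        rw [Real.mul_rpow (by norm_num) h0.le, mul_assoc, ← Real.rpow_add h0]
        have h9 : (2 : ℝ) ^ (-(V ^ 2)) ≤ 1 :=
          Real.rpow_le_one_of_one_le_of_nonpos (by norm_num) (by nlinarith [sq_nonneg V])
        have h10 : d T ^ (-(V ^ 2) + (V ^ 2 + 2)) = d T ^ 2 := by
          rw [show -(V ^ 2) + (V ^ 2 + 2) = ((2 : ℕ) : ℝ) by push_cast; ring, Real.rpow_natCast]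
        rw [h10]
        calc (2 : ℝ) ^ (-(V ^ 2)) * d T ^ 2 ≤ 1 * d T ^ 2 :=
              mul_le_mul_of_nonneg_right h9 (by positivity)
          _ = d T ^ 2 := one_mul _
      rw [hE]
      simp only
      rw [norm_mul, norm_mul, norm_mul, Real.norm_of_nonneg (Real.sqrt_nonneg _),
        Real.norm_of_nonneg (by positivity : (0 : ℝ) ≤ (2 * d T) ^ (-(V ^ 2))),
        Real.norm_of_nonneg (by positivity : (0 : ℝ) ≤ 1 / T)]
      have hBC0 : 0 ≤ B * C1 := by positivity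
      calc Real.sqrt (Real.pi * Real.log (1 / (2 * d T))) * (2 * d T) ^ (-(V ^ 2)) *
            (1 / T * ‖∫ t in Set.Icc 0 T \ N T, w t * h (X (d T) V t)‖)
          ≤ (1 + 2 / d T) * (2 * d T) ^ (-(V ^ 2)) * (1 / T * ((B * C1) * (d T ^ (V ^ 2 + 2) * T))) := by
            gcongr
        _ = (B * C1) * (1 + 2 / d T) * ((2 * d T) ^ (-(V ^ 2)) * d T ^ (V ^ 2 + 2)) := by
            field_simp
        _ ≤ (B * C1) * (1 + 2 / d T) * d T ^ 2 := mul_le_mul_of_nonneg_left h8 (by positivity)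
        _ = (B * C1) * (d T ^ 2 + 2 * d T) := by
            field_simp
    have h0 : Tendsto (fun T : ℝ => (B * C1) * (d T ^ 2 + 2 * d T)) atTop (𝓝 0) := by
      have h1 := ((hd.t0.pow 2).add (hd.t0.const_mul 2)).const_mul (B * C1)
      simpa using h1
    exact squeeze_zero_norm' hb h0
  have hlim := (key.const_mul r).add hE0
  rw [add_zero] at hlim
  refine hlim.congr' ?_
  filter_upwards [hN 0, hsm] with T hT hT2
  obtain ⟨h0, h1, hT1⟩ := hT2
  have hT0 : 0 < T := by linarith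
  have hint : IntegrableOn (fun t => w t * h (X (d T) V t)) (Set.Icc 0 T) volume := by
    refine Measure.integrableOn_of_bounded (M := B * C1) ?_ ?_ ?_
    · rw [Real.volume_Icc]
      exact ENNReal.ofReal_ne_top
    · exact (hw.mul (hm.comp (X_meas h0 h1 V))).aestronglyMeasurable
    · exact Eventually.of_forall fun t => hBC _ _
  have hsplit : ∫ t in (0 : ℝ)..T, w t * h (X (d T) V t) =
      (∫ t in N T, w t * h (X (d T) V t)) + ∫ t in Set.Icc 0 T \ N T, w t * h (X (d T) V t) := by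
    rw [intervalIntegral.integral_of_le hT0.le, ← integral_Icc_eq_integral_Ioc]
    have h2 := setIntegral_union (μ := volume) (f := fun t => w t * h (X (d T) V t))
      (Set.disjoint_sdiff_right (s := N T) (t := Set.Icc 0 T))
      (measurableSet_Icc.diff hT.meas) (hint.mono_set hT.sub) (hint.mono_set Set.sdiff_subset)
    rw [Set.union_sdiff_cancel hT.sub] at h2
    exact h2
  have hX : (∫ t in (0 : ℝ)..T, w t * h (Real.log ‖riemannZeta (pw (d T) t)‖ -
      V * Real.log (1 / (2 * d T)))) = ∫ t in (0 : ℝ)..T, w t * h (X (d T) V t) := rfl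
  have h3 := int_h hw w0 h0 h1 hr hT0 V hT.meas hT.nz hm
  rw [hX, hsplit, hE]
  simp only
  rw [mul_left_comm, h3]
  ring

end Pool.Agent.U899.TM.LDW
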