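import Pool.Agent.U899.TM.Pars
import Pool.Agent.U899.TM.LDW
import Pool.Agent.N748.MG.Fin
import Pool.Agent.N748.GC.ERG

set_option autoImplicit false

/-! Large deviations jointly with the phases of the small primes. -/

namespace Pool.Agent.U899.TM

open Finset Filter MeasureTheory Topology Complex UnitAddTorus
open Pool.Agent.N748.MG
open Pool.Agent.N748.GC (chr lw M0 E0 HP pt)
open Pool.Agent.N748.GC.EQ (hN kN)

theorem chr_conj (h k : ℕ) (t : ℝ) : (starRingEnd ℂ) (chr h k t) = chr k h t := by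
  unfold chr
  rw [← Complex.exp_conj]
  congr 1
  rw [map_mul, map_mul, Complex.conj_ofReal, Complex.conj_I, Complex.conj_ofReal]
  push_cast
  ring

theorem chr_one (t : ℝ) : chr 1 1 t = 1 := by
  unfold chr
  simp

theorem ta_one (s : ℂ) : ta 1 1 s = aC s := by
  unfold ta tau aC
  simp only [Nat.cast_one, mul_one, Real.one_rpow, Complex.ofReal_one, one_mul]
  refine tprod_congr fun p => ?_
  rw [Nat.factorization_one, Finsupp.coe_zero, Pi.zero_apply, E2_zz]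
  unfold DIA2.E
  push_cast
  simp only [one_div]

/-- a positive weight -/
noncomputable def wt (h k : ℕ) (c : ℂ) (t : ℝ) : ℝ := 2 + (c * chr h k t).re

/-- the limit function for the weight -/
noncomputable def Gt (h k : ℕ) (c s : ℂ) : ℂ := 2 * aC s + ((c / 2) * ta h k s + ((starRingEnd ℂ) c / 2) * ta k h s)

theorem wt_eq (h k : ℕ) (c : ℂ) (t : ℝ) :
    ((wt h k c t : ℝ) : ℂ) = 2 * chr 1 1 t + ((c / 2) * chr h k t + ((starRingEnd ℂ) c / 2) * chr k h t) := by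
  unfold wt
  rw [Complex.ofReal_add, Complex.re_eq_add_conj, map_mul, chr_conj, chr_one]
  push_cast
  ring

theorem wt_cont (h k : ℕ) (c : ℂ) : Continuous (wt h k c) := by
  unfold wt
  exact continuous_const.add (Complex.continuous_re.comp (continuous_const.mul (chr_cont h k)))

theorem wt_bd {c : ℂ} (hc : ‖c‖ ≤ 1) (h k : ℕ) (t : ℝ) : 1 ≤ wt h k c t ∧ wt h k c t ≤ 3 := by
  have h1 := Complex.abs_re_le_norm (c * chr h k t)
  rw [norm_mul, chr_norm, mul_one] at h1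
  have h2 := abs_le.1 (h1.trans hc)
  unfold wt
  constructor <;> linarith [h2.1, h2.2]

theorem Gt_cont (h k : ℕ) (c : ℂ) : Continuous (Gt h k c) := by
  unfold Gt
  exact (continuous_const.mul CON.main.1).add ((continuous_const.mul (ta_cont h k)).add (continuous_const.mul (ta_cont k h)))

theorem tcmF (H : Finset (ℕ × ℕ)) (hH : ∀ q ∈ H, q.1 ≠ 0 ∧ q.2 ≠ 0 ∧ Nat.Coprime q.1 q.2) {R D : ℝ} (hR : 0 < R) (hD : 0 < D)
    {ε : ℝ} (hε : 0 < ε) : Ev fun X δ =>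
      ∃ N : Set ℝ, MeasurableSet N ∧ N ⊆ Set.Icc 0 X ∧ volume (Set.Icc 0 X \ N) ≤ ENNReal.ofReal (δ ^ D * X) ∧
        (∀ t ∈ N, riemannZeta (pw δ t) ≠ 0) ∧
        (∀ s : ℂ, ‖s‖ ≤ R → IntegrableOn (fun t : ℝ => ((‖riemannZeta (pw δ t)‖ : ℝ) : ℂ) ^ (2 * s)) N) ∧ ∀ q ∈ H,
        ∀ s : ℂ, ‖s‖ ≤ R → ‖((2 * δ : ℝ) : ℂ) ^ (s ^ 2) *
          (∫ t in N, chr q.1 q.2 t * ((‖riemannZeta (pw δ t)‖ : ℝ) : ℂ) ^ (2 * s)) - X * ta q.1 q.2 s‖ ≤ ε * X :=
  main (CMP.main EUL.main) MVS.main SIZ.main (L4.main MVS.main SIZ.main) DIA1.main (NIC.main Inp.zm2 Inp.xsa Inp.mea)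
    H hH hR hD hε

theorem chr_int {N : Set ℝ} {f : ℝ → ℂ} (hf : IntegrableOn f N) (u v : ℕ) : IntegrableOn (fun t => chr u v t * f t) N := by
  refine Integrable.bdd_mul (c := 1) hf (chr_cont u v).aestronglyMeasurable ?_
  exact Eventually.of_forall fun t => by rw [chr_norm]

theorem wcm {h k : ℕ} (hh : h ≠ 0) (hk : k ≠ 0) (hcop : Nat.Coprime h k) {c : ℂ} (hc : ‖c‖ ≤ 1) :
    LDW.WCM (wt h k c) (Gt h k c) := by
  intro R D hR hD ε hε
  have h1 := tcmF {(1, 1), (h, k), (k, h)} (by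
    intro q hq
    simp only [Finset.mem_insert, Finset.mem_singleton] at hq
    rcases hq with rfl | rfl | rfl
    · simp
    · exact ⟨hh, hk, hcop⟩
    · exact ⟨hk, hh, hcop.symm⟩) hR hD (ε := ε / 3) (by positivity)
  refine h1.mono ?_
  rintro X δ hX hδ hδ16 ⟨N, a1, a2, a3, a4, a5, a6⟩
  refine ⟨N, a1, a2, a3, a4, fun s hs => ?_⟩
  have b1 := a6 (1, 1) (by simp) s hs
  have b2 := a6 (h, k) (by simp) s hs
  have b3 := a6 (k, h) (by simp) s hs
  simp only at b1 b2 b3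
  rw [ta_one] at b1
  have hi := a5 s hs
  have e1 : ∫ t in N, ((wt h k c t : ℝ) : ℂ) * ((‖riemannZeta (pw δ t)‖ : ℝ) : ℂ) ^ (2 * s) =
      2 * (∫ t in N, chr 1 1 t * ((‖riemannZeta (pw δ t)‖ : ℝ) : ℂ) ^ (2 * s)) +
      ((c / 2) * (∫ t in N, chr h k t * ((‖riemannZeta (pw δ t)‖ : ℝ) : ℂ) ^ (2 * s)) +
      ((starRingEnd ℂ) c / 2) * (∫ t in N, chr k h t * ((‖riemannZeta (pw δ t)‖ : ℝ) : ℂ) ^ (2 * s))) := by
    have j1 : Integrable (fun t => 2 * (chr 1 1 t * ((‖riemannZeta (pw δ t)‖ : ℝ) : ℂ) ^ (2 * s))) (volume.restrict N) :=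
      (chr_int hi 1 1).const_mul _
    have j2 : Integrable (fun t => (c / 2) * (chr h k t * ((‖riemannZeta (pw δ t)‖ : ℝ) : ℂ) ^ (2 * s))) (volume.restrict N) :=
      (chr_int hi h k).const_mul _
    have j3 : Integrable (fun t => ((starRingEnd ℂ) c / 2) * (chr k h t * ((‖riemannZeta (pw δ t)‖ : ℝ) : ℂ) ^ (2 * s)))
      (volume.restrict N) := (chr_int hi k h).const_mul _
    have j4 : Integrable (fun t => (c / 2) * (chr h k t * ((‖riemannZeta (pw δ t)‖ : ℝ) : ℂ) ^ (2 * s)) +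
      ((starRingEnd ℂ) c / 2) * (chr k h t * ((‖riemannZeta (pw δ t)‖ : ℝ) : ℂ) ^ (2 * s))) (volume.restrict N) := j2.add j3
    rw [← integral_const_mul, ← integral_const_mul, ← integral_const_mul, ← integral_add j2 j3, ← integral_add j1 j4]
    refine integral_congr_ae (ae_of_all _ fun t => ?_)
    simp only
    rw [wt_eq]
    ring
  rw [e1]
  unfold Gt
  generalize (∫ t in N, chr 1 1 t * ((‖riemannZeta (pw δ t)‖ : ℝ) : ℂ) ^ (2 * s)) = I1 at b1 ⊢
  generalize (∫ t in N, chr h k t * ((‖riemannZeta (pw δ t)‖ : ℝ) : ℂ) ^ (2 * s)) = I2 at b2 ⊢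
  generalize (∫ t in N, chr k h t * ((‖riemannZeta (pw δ t)‖ : ℝ) : ℂ) ^ (2 * s)) = I3 at b3 ⊢
  generalize ((2 * δ : ℝ) : ℂ) ^ (s ^ 2) = u at b1 b2 b3 ⊢
  have e2 : u * (2 * I1 + ((c / 2) * I2 + ((starRingEnd ℂ) c / 2) * I3)) -
      X * (2 * aC s + ((c / 2) * ta h k s + ((starRingEnd ℂ) c / 2) * ta k h s)) =
      2 * (u * I1 - X * aC s) + ((c / 2) * (u * I2 - X * ta h k s) + ((starRingEnd ℂ) c / 2) * (u * I3 - X * ta k h s)) := by
    ring
  rw [e2]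
  have hX0 : (0 : ℝ) ≤ X := by linarith
  have n1 : ‖2 * (u * I1 - X * aC s)‖ ≤ 2 * (ε / 3 * X) := by
    rw [norm_mul]
    have : ‖(2 : ℂ)‖ = 2 := by simp
    rw [this]
    linarith
  have hc2 : ‖c / 2‖ ≤ 1 / 2 := by
    rw [norm_div]
    have : ‖(2 : ℂ)‖ = 2 := by simp
    rw [this]
    linarith
  have hc3 : ‖(starRingEnd ℂ) c / 2‖ ≤ 1 / 2 := by
    rw [norm_div, RCLike.norm_conj]
    have : ‖(2 : ℂ)‖ = 2 := by simp
    rw [this]
    linarith
  have n2 : ‖(c / 2) * (u * I2 - X * ta h k s)‖ ≤ 1 / 2 * (ε / 3 * X) := by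
    rw [norm_mul]
    exact mul_le_mul hc2 b2 (norm_nonneg _) (by norm_num)
  have n3 : ‖((starRingEnd ℂ) c / 2) * (u * I3 - X * ta k h s)‖ ≤ 1 / 2 * (ε / 3 * X) := by
    rw [norm_mul]
    exact mul_le_mul hc3 b3 (norm_nonneg _) (by norm_num)
  refine (norm_add_le _ _).trans ?_
  have n4 := norm_add_le ((c / 2) * (u * I2 - X * ta h k s)) (((starRingEnd ℂ) c / 2) * (u * I3 - X * ta k h s))
  linarith

/-! ### the mean values of the characters -/

theorem mm_neg (V : ℝ) (P : Finset ℕ) (n : P → ℤ) : mm V P (-n) = (starRingEnd ℂ) (mm V P n) := by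
  unfold mm
  rw [← integral_conj]
  refine integral_congr_ae (ae_of_all _ fun x => ?_)
  simp only
  rw [map_mul, Complex.conj_ofReal, mFourier_neg]

theorem mm_le (V : ℝ) {P : Finset ℕ} (hP : ∀ p ∈ P, p.Prime) (n : P → ℤ) : ‖mm V P n‖ ≤ 1 := by
  unfold mm
  have h1 := Pool.Agent.N748.GC.RZ.M0_int V P hP
  refine (norm_integral_le_integral_norm _).trans ?_
  refine le_of_eq (Eq.trans (integral_congr_ae (ae_of_all _ fun x => ?_)) h1)
  simp only
  rw [norm_mul, Complex.norm_real, Real.norm_of_nonneg (Pool.Agent.N748.GC.RZ.M0_pos V P hP x).le]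
  have h2 : ‖mFourier n x‖ = 1 := by
    unfold mFourier
    simp only [ContinuousMap.coe_mk, norm_prod]
    refine Finset.prod_eq_one fun p _ => ?_
    rw [fourier_apply]; exact Circle.norm_coe _
  rw [h2, one_mul]

theorem Gt_val {P : Finset ℕ} (hP : ∀ p ∈ P, p.Prime) (e : ℕ → ℤ) (c : ℂ) (V : ℝ) {r : ℝ} (hr : aC V = r) :
    Gt (hN P e) (kN P e) c V = ((r * (2 + (c * mm V P (fun p : P => e p)).re) : ℝ) : ℂ) := by
  have h1 := ta_mm hP e V
  have h2 := ta_mm hP (fun p => -e p) V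
  have h3 : hN P (fun p => -e p) = kN P e := rfl
  have h4 : kN P (fun p => -e p) = hN P e := by unfold hN kN; simp
  have h5 : mm V P (fun p : P => -e p) = (starRingEnd ℂ) (mm V P (fun p : P => e p)) := mm_neg V P (fun p : P => e p)
  rw [h3, h4, h5] at h2
  unfold Gt
  rw [h1, h2, hr]
  have h6 : (((c * mm V P (fun p : P => e p)).re : ℝ) : ℂ) =
      (c * mm V P (fun p : P => e p) + (starRingEnd ℂ) c * (starRingEnd ℂ) (mm V P (fun p : P => e p))) / 2 := by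
    rw [Complex.re_eq_add_conj, map_mul]
  rw [Complex.ofReal_mul, Complex.ofReal_add, h6]
  push_cast
  ring

/-! ### the observable -/

/-- the observable -/
noncomputable def Ob (d : ℝ → ℝ) (V : ℝ) (h : ℝ → ℝ) (T t : ℝ) : ℝ :=
  h (Real.log ‖riemannZeta (pw (d T) t)‖ - V * Real.log (1 / (2 * d T)))

/-- the normalisation -/
noncomputable def Nr (d : ℝ → ℝ) (V T : ℝ) : ℝ := Real.sqrt (Real.pi * Real.log (1 / (2 * d T))) * (2 * d T) ^ (-(V ^ 2))

theorem Ob_int {d : ℝ → ℝ} {V : ℝ} {h : ℝ → ℝ} (hm : Measurable h) {C : ℝ} (hC : ∀ x, |h x| ≤ C) {T : ℝ} (h0 : 0 < d T)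
    (h1 : d T ≤ 1 / 16) {φ : ℝ → ℂ} (hφ : Continuous φ) {a b : ℝ} :
    IntervalIntegrable (fun t => φ t * ((Ob d V h T t : ℝ) : ℂ)) volume a b := by
  have hO : IntervalIntegrable (fun t => ((Ob d V h T t : ℝ) : ℂ)) volume a b := by
    rw [intervalIntegrable_iff]
    refine Measure.integrableOn_of_bounded (M := C) ?_ ?_ ?_
    · rw [Set.uIoc, Real.volume_Ioc]
      exact ENNReal.ofReal_ne_top
    · have : Measurable fun t => ((Ob d V h T t : ℝ) : ℂ) :=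
        Complex.measurable_ofReal.comp (hm.comp (LD.X_meas h0 h1 V))
      exact this.aestronglyMeasurable
    · exact Eventually.of_forall fun t => by
        rw [Complex.norm_real, Real.norm_eq_abs]
        exact hC _
  exact hO.continuousOn_mul hφ.continuousOn

theorem ldwt {P : Finset ℕ} (hP : ∀ p ∈ P, p.Prime) (e : ℕ → ℤ) {c : ℂ} (hc : ‖c‖ ≤ 1) {d : ℝ → ℝ} (hd : Ad d) (V : ℝ)
    (h : ℝ → ℝ) (S : Finset ℝ) (hm : Measurable h)
    (hcont : ∀ x, x ∉ S → ContinuousAt h x) (hb1 : ∃ C : ℝ, ∀ x, |h x| ≤ C)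
    (hb2 : ∃ C : ℝ, ∀ x, |h x| * (1 + x ^ 2) ≤ C * Real.exp (2 * V * x)) :
    Tendsto (fun T : ℝ => Nr d V T * ((1 / T) * ∫ t in (0:ℝ)..T, wt (hN P e) (kN P e) c t * Ob d V h T t)) atTop
    (𝓝 ((aC V).re * (2 + (c * mm V P (fun p : P => e p)).re) * ∫ x, Real.exp (-(2 * V * x)) * h x)) := by
  obtain ⟨r, hr, hrV⟩ := CON.main.2 V
  have hh : hN P e ≠ 0 := Pool.Agent.N748.GC.EQ.pow_ne hP _
  have hk : kN P e ≠ 0 := Pool.Agent.N748.GC.EQ.pow_ne hP _
  have hcop := Pool.Agent.N748.GC.EQ.hkN_coprime hP e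
  have hm1 := Complex.abs_re_le_norm (c * mm V P (fun p : P => e p))
  rw [norm_mul] at hm1
  have hm2 : ‖c‖ * ‖mm V P (fun p : P => e p)‖ ≤ 1 := by
    calc ‖c‖ * ‖mm V P (fun p : P => e p)‖ ≤ 1 * 1 := mul_le_mul hc (mm_le V hP _) (norm_nonneg _) zero_le_one
      _ = 1 := one_mul _
  have hm3 := abs_le.1 (hm1.trans hm2)
  have hrp : 0 < r * (2 + (c * mm V P (fun p : P => e p)).re) := mul_pos hr (by linarith [hm3.1])
  have hre : (aC V).re = r := by rw [hrV, Complex.ofReal_re]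
  rw [hre]
  exact LDW.main LLT.main (wt_cont _ _ c).measurable (fun t => zero_le_one.trans (wt_bd hc _ _ t).1) (fun t => (wt_bd hc _ _ t).2)
    (Gt_cont _ _ c) (wcm hh hk hcop hc) hd hrp (Gt_val hP e c V hrV) h S hm hcont hb1 hb2

theorem small_ev {d : ℝ → ℝ} (hd : Ad d) : ∀ᶠ T : ℝ in atTop, 0 < d T ∧ d T ≤ 1 / 16 ∧ 1 ≤ T := by
  filter_upwards [hd.pos, hd.t0.eventually_le_const (show (0 : ℝ) < 1 / 16 by norm_num), eventually_ge_atTop 1] with T a b c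
  exact ⟨a, b, c⟩

/-- the real parts -/
theorem ldre {P : Finset ℕ} (hP : ∀ p ∈ P, p.Prime) (e : ℕ → ℤ) {c : ℂ} (hc : ‖c‖ ≤ 1) {d : ℝ → ℝ} (hd : Ad d) (V : ℝ)
    (h : ℝ → ℝ) (S : Finset ℝ) (hm : Measurable h)
    (hcont : ∀ x, x ∉ S → ContinuousAt h x) (hb1 : ∃ C : ℝ, ∀ x, |h x| ≤ C)
    (hb2 : ∃ C : ℝ, ∀ x, |h x| * (1 + x ^ 2) ≤ C * Real.exp (2 * V * x)) :
    Tendsto (fun T : ℝ => Nr d V T * ((1 / T) * ∫ t in (0:ℝ)..T, (c * chr (hN P e) (kN P e) t).re * Ob d V h T t)) atTop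
    (𝓝 ((aC V).re * (c * mm V P (fun p : P => e p)).re * ∫ x, Real.exp (-(2 * V * x)) * h x)) := by
  have h1 := ldwt hP e hc hd V h S hm hcont hb1 hb2
  have h2 := ldwt hP e (c := 0) (by simp) hd V h S hm hcont hb1 hb2
  obtain ⟨C, hC⟩ := hb1
  have h3 := h1.sub h2
  have e1 : (aC V).re * (2 + (c * mm V P (fun p : P => e p)).re) * (∫ x, Real.exp (-(2 * V * x)) * h x) -
      (aC V).re * (2 + ((0 : ℂ) * mm V P (fun p : P => e p)).re) * (∫ x, Real.exp (-(2 * V * x)) * h x) =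
      (aC V).re * (c * mm V P (fun p : P => e p)).re * ∫ x, Real.exp (-(2 * V * x)) * h x := by
    rw [zero_mul, Complex.zero_re]
    ring
  rw [e1] at h3
  refine h3.congr' ?_
  filter_upwards [small_ev hd] with T hT
  have i1 : ∀ c' : ℂ, IntervalIntegrable (fun t => wt (hN P e) (kN P e) c' t * Ob d V h T t) volume 0 T := by
    intro c'
    have h4 := Ob_int (V := V) hm hC hT.1 hT.2.1 (φ := fun t => ((wt (hN P e) (kN P e) c' t : ℝ) : ℂ))
      (Complex.continuous_ofReal.comp (wt_cont _ _ c')) (a := 0) (b := T)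
    have h5 := h4.norm
    rw [intervalIntegrable_iff] at h4 ⊢
    have h6 := h4.re
    refine h6.congr (ae_of_all _ fun t => ?_)
    simp only [← Complex.ofReal_mul]
    exact Complex.ofReal_re _
  rw [← mul_sub, ← mul_sub, ← intervalIntegral.integral_sub (i1 c) (i1 0)]
  congr 3
  funext t
  unfold wt
  rw [zero_mul, Complex.zero_re]
  ring

/-- the characters -/
theorem ldchar {P : Finset ℕ} (hP : ∀ p ∈ P, p.Prime) (n : P → ℤ) {d : ℝ → ℝ} (hd : Ad d) (V : ℝ)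
    (h : ℝ → ℝ) (S : Finset ℝ) (hm : Measurable h)
    (hcont : ∀ x, x ∉ S → ContinuousAt h x) (hb1 : ∃ C : ℝ, ∀ x, |h x| ≤ C)
    (hb2 : ∃ C : ℝ, ∀ x, |h x| * (1 + x ^ 2) ≤ C * Real.exp (2 * V * x)) :
    Tendsto (fun T : ℝ => ((Nr d V T : ℝ) : ℂ) * ((1 / (T : ℂ)) * ∫ t in (0:ℝ)..T, mFourier n (pt P t) * ((Ob d V h T t : ℝ) : ℂ))) atTop
    (𝓝 ((((aC V).re * ∫ x, Real.exp (-(2 * V * x)) * h x : ℝ) : ℂ) * mm V P n)) := by
  have hn : (fun p : P => Pool.Agent.U899.TW.ext n (p : ℕ)) = n := by funext p; exact Pool.Agent.U899.TW.ext_mem n p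
  have h1 := ldre hP (Pool.Agent.U899.TW.ext n) (c := 1) (by simp) hd V h S hm hcont hb1 hb2
  have h2 := ldre hP (Pool.Agent.U899.TW.ext n) (c := -I) (by simp) hd V h S hm hcont hb1 hb2
  rw [hn] at h1 h2
  obtain ⟨C, hC⟩ := hb1
  have h3 := ((Complex.continuous_ofReal.tendsto _).comp h1).add
    (((Complex.continuous_ofReal.tendsto _).comp h2).mul_const I)
  have e1 : ((((aC V).re * (1 * mm V P n).re * ∫ x, Real.exp (-(2 * V * x)) * h x : ℝ) : ℂ)) +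
      ((((aC V).re * (-I * mm V P n).re * ∫ x, Real.exp (-(2 * V * x)) * h x : ℝ) : ℂ)) * I =
      (((aC V).re * ∫ x, Real.exp (-(2 * V * x)) * h x : ℝ) : ℂ) * mm V P n := by
    have e2 : (-I * mm V P n).re = (mm V P n).im := by simp
    rw [one_mul, e2]
    conv_rhs => rw [← Complex.re_add_im (mm V P n)]
    push_cast
    ring
  rw [e1] at h3
  refine h3.congr' ?_
  filter_upwards [small_ev hd] with T hT
  simp only [Function.comp_apply]
  have e3 : ∀ t, mFourier n (pt P t) = chr (hN P (Pool.Agent.U899.TW.ext n)) (kN P (Pool.Agent.U899.TW.ext n)) t := by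
    intro t
    have := Pool.Agent.N748.GC.EQ.mF_pt hP (Pool.Agent.U899.TW.ext n) t
    rwa [hn] at this
  set χ : ℝ → ℂ := chr (hN P (Pool.Agent.U899.TW.ext n)) (kN P (Pool.Agent.U899.TW.ext n)) with hχ
  have hχc : Continuous χ := chr_cont _ _
  have i1 : ∀ c' : ℂ, IntervalIntegrable (fun t => (((c' * χ t).re : ℝ) : ℂ) * ((Ob d V h T t : ℝ) : ℂ)) volume 0 T :=
    fun c' => Ob_int (V := V) hm hC hT.1 hT.2.1 (φ := fun t => (((c' * χ t).re : ℝ) : ℂ))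
      (Complex.continuous_ofReal.comp (Complex.continuous_re.comp (continuous_const.mul hχc)))
  have e4 : ∀ c' : ℂ, (((∫ t in (0:ℝ)..T, (c' * χ t).re * Ob d V h T t) : ℝ) : ℂ) =
      ∫ t in (0:ℝ)..T, (((c' * χ t).re : ℝ) : ℂ) * ((Ob d V h T t : ℝ) : ℂ) := by
    intro c'
    rw [← intervalIntegral.integral_ofReal]
    simp only [Complex.ofReal_mul]
  have e5 : ∫ t in (0:ℝ)..T, mFourier n (pt P t) * ((Ob d V h T t : ℝ) : ℂ) =
      (∫ t in (0:ℝ)..T, (((1 * χ t).re : ℝ) : ℂ) * ((Ob d V h T t : ℝ) : ℂ)) +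
      (∫ t in (0:ℝ)..T, (((-I * χ t).re : ℝ) : ℂ) * ((Ob d V h T t : ℝ) : ℂ)) * I := by
    rw [← intervalIntegral.integral_mul_const, ← intervalIntegral.integral_add (i1 1) ((i1 (-I)).mul_const I)]
    congr 1
    funext t
    rw [e3]
    have e6 : (-I * χ t).re = (χ t).im := by simp
    rw [one_mul, e6]
    conv_lhs => rw [← Complex.re_add_im (χ t)]
    ring
  rw [e5, ← e4, ← e4]
  push_cast
  ring

end Pool.Agent.U899.TM
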