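import Pool.Agent.U899.TM.Loc

set_option autoImplicit false

/-! The twisted diagonal sums, asymptotics. -/

namespace Pool.Agent.U899.TM

open Finset Filter MeasureTheory Topology Complex
open Pool.Agent.N748.MG Pool.Agent.N748.MG.L4 Pool.Agent.N748.MG.DIA2

/-- the twisted arithmetic factor (without the factor `(hk)^(-1/2)`) -/
noncomputable def tau (h k : ℕ) (s : ℂ) : ℂ :=
  ∏' p : Nat.Primes, E2 s (k.factorization p) (h.factorization p) ((p : ℕ) : ℝ)⁻¹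

/-- the terms of the twisted diagonal sum -/
noncomputable def tw (h k : ℕ) (s : ℂ) (δ : ℝ) (l : ℕ) : ℂ :=
  dS s (k * l) * dS s (h * l) * (((l:ℝ) ^ (-(1 + 2 * δ)) : ℝ) : ℂ)

theorem fac_big {h : ℕ} {p : ℕ} (hp : h < p) : h.factorization p = 0 := by
  rcases eq_or_ne h 0 with rfl | hh
  · simp
  · exact Nat.factorization_eq_zero_of_lt hp

theorem tw_eq {h k : ℕ} {s : ℂ} (hs : ∀ i : ℕ, s + (i : ℂ) ≠ 0) (δ : ℝ) (l : ℕ) :
    tw h k s δ l = dS s k * dS s h * tg h k s δ l := by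
  unfold tw tg
  have h1 := dS_ne hs k
  have h2 := dS_ne hs h
  field_simp

theorem lC_natB (k m : ℕ) : lC (k : ℂ) m = ((B k m : ℝ) : ℂ) := by
  unfold lC B
  push_cast
  rfl

theorem dS_natB (k n : ℕ) : ‖dS (k : ℂ) n‖ = mf (B k) n := by
  unfold dS mf
  rw [norm_prod]
  refine Finset.prod_congr rfl fun p _ => ?_
  rw [lC_natB, Complex.norm_real, Real.norm_of_nonneg (B_nonneg _ _)]

theorem dS_le_nat {s : ℂ} {k : ℕ} (hs : ‖s‖ ≤ k) (n : ℕ) : ‖dS s n‖ ≤ ‖dS (k : ℂ) n‖ := by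
  rw [dS_natB]
  exact norm_dS s k hs n

theorem nat_nz {k0 : ℕ} (hk0 : 1 ≤ k0) (i : ℕ) : (k0 : ℂ) + (i : ℂ) ≠ 0 := by
  have : ((k0 + i : ℕ) : ℂ) ≠ 0 := by
    rw [Nat.cast_ne_zero]
    omega
  rwa [Nat.cast_add] at this

theorem tw_le {h k : ℕ} {s : ℂ} {k0 : ℕ} (hs : ‖s‖ ≤ k0) (δ : ℝ) (l : ℕ) :
    ‖tw h k s δ l‖ ≤ ‖tw h k (k0 : ℂ) δ l‖ := by
  unfold tw
  rw [norm_mul, norm_mul, norm_mul, norm_mul]
  exact mul_le_mul_of_nonneg_right (mul_le_mul (dS_le_nat hs _) (dS_le_nat hs _) (norm_nonneg _) (norm_nonneg _))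
    (norm_nonneg _)

theorem tw_summable_nat {h k : ℕ} (hh : h ≠ 0) (hk : k ≠ 0) {k0 : ℕ} (hk0 : 1 ≤ k0) {δ : ℝ} (hδ : 0 < δ) :
    Summable fun n => ‖tw h k (k0 : ℂ) δ n‖ := by
  have h1 := (tg_summable hh hk (k0 : ℂ) hδ).mul_left ‖dS (k0 : ℂ) k * dS (k0 : ℂ) h‖
  refine h1.congr fun n => ?_
  rw [tw_eq (nat_nz hk0) δ n, norm_mul (dS (k0 : ℂ) k * dS (k0 : ℂ) h)]

theorem tw_summable {h k : ℕ} (hh : h ≠ 0) (hk : k ≠ 0) {s : ℂ} {k0 : ℕ} (hk0 : 1 ≤ k0) (hs : ‖s‖ ≤ k0) {δ : ℝ}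
    (hδ : 0 < δ) : Summable fun n => ‖tw h k s δ n‖ :=
  Summable.of_nonneg_of_le (fun n => norm_nonneg _) (fun n => tw_le hs δ n) (tw_summable_nat hh hk hk0 hδ)

theorem dS_cont (n : ℕ) : Continuous fun s => dS s n := by
  unfold dS
  exact continuous_finsetProd _ fun p _ => CON.lC_cont _

theorem tw_cont {h k : ℕ} (hh : h ≠ 0) (hk : k ≠ 0) {k0 : ℕ} (hk0 : 1 ≤ k0) {δ : ℝ} (hδ : 0 < δ) :
    ContinuousOn (fun s => ∑' n, tw h k s δ n) (Metric.closedBall 0 k0) := by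
  refine continuousOn_tsum (u := fun n => ‖tw h k (k0 : ℂ) δ n‖) (fun _ => ?_) (tw_summable_nat hh hk hk0 hδ)
    fun n s hs => ?_
  · unfold tw
    exact (((dS_cont _).mul (dS_cont _)).mul continuous_const).continuousOn
  · rw [mem_closedBall_zero_iff] at hs
    exact tw_le hs δ n

/-! ### the limit -/

theorem tau_sum (C : ℝ) : Summable fun p : Nat.Primes => C * (((p : ℕ) : ℝ)⁻¹ * ((p : ℕ) : ℝ)⁻¹) := by
  refine (CON.sum_px C).congr fun p => ?_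
  rw [one_div, pow_two]

theorem tau_hasProd (h k : ℕ) (s : ℂ) :
    HasProd (fun p : Nat.Primes => E2 s (k.factorization p) (h.factorization p) ((p : ℕ) : ℝ)⁻¹) (tau h k s) := by
  obtain ⟨k0, hk0⟩ := exists_nat_ge ‖s‖
  obtain ⟨C, hC, hb⟩ := all_bd k0 (max h k) k.factorization h.factorization
    fun p hp => ⟨fac_big (lt_of_le_of_lt (le_max_right _ _) hp), fac_big (lt_of_le_of_lt (le_max_left _ _) hp)⟩
  have h1 : Summable fun p : Nat.Primes => ‖E2 s (k.factorization p) (h.factorization p) ((p : ℕ) : ℝ)⁻¹ - 1‖ :=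
    Summable.of_nonneg_of_le (fun p => norm_nonneg _) (fun p => (hb p s hk0).1 _ (inv_mem p).1 le_rfl) (tau_sum C)
  have h2 := (multipliable_one_add_of_summable h1).hasProd
  have h3 : (fun p : Nat.Primes => 1 + (E2 s (k.factorization p) (h.factorization p) ((p : ℕ) : ℝ)⁻¹ - 1)) =
      fun p : Nat.Primes => E2 s (k.factorization p) (h.factorization p) ((p : ℕ) : ℝ)⁻¹ := by
    funext p; ring
  rw [h3] at h2
  exact h2

theorem tau_cont (h k : ℕ) : Continuous (tau h k) := by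
  rw [continuous_iff_continuousAt]
  intro s0
  obtain ⟨k0, hk0⟩ := exists_nat_gt ‖s0‖
  have hmem : Metric.closedBall (0 : ℂ) k0 ∈ 𝓝 s0 := by
    refine Filter.mem_of_superset (Metric.isOpen_ball.mem_nhds ?_) Metric.ball_subset_closedBall
    rw [mem_ball_zero_iff]
    exact hk0
  obtain ⟨C, hC, hb⟩ := all_bd k0 (max h k) k.factorization h.factorization
    fun p hp => ⟨fac_big (lt_of_le_of_lt (le_max_right _ _) hp), fac_big (lt_of_le_of_lt (le_max_left _ _) hp)⟩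
  have hc : ∀ p : Nat.Primes, ContinuousOn (fun s => E2 s (k.factorization p) (h.factorization p) ((p : ℕ) : ℝ)⁻¹ - 1)
      (Metric.closedBall 0 k0) := fun p => (E2_cont k0 _ _ (inv_mem p).1 (inv_mem p).2).sub continuousOn_const
  have hu := Summable.hasProdUniformlyOn_one_add (f := fun (p : Nat.Primes) (s : ℂ) =>
    E2 s (k.factorization p) (h.factorization p) ((p : ℕ) : ℝ)⁻¹ - 1) (isCompact_closedBall (0 : ℂ) k0) (tau_sum C)
    (Eventually.of_forall fun p s hs => by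
      rw [mem_closedBall_zero_iff] at hs
      exact (hb p s hs).1 _ (inv_mem p).1 le_rfl) hc
  have h2 := hu.tendstoUniformlyOn
  have h3 : ContinuousOn (fun s => ∏' p : Nat.Primes, (1 + (E2 s (k.factorization p) (h.factorization p)
      ((p : ℕ) : ℝ)⁻¹ - 1))) (Metric.closedBall 0 k0) := by
    refine h2.continuousOn (Eventually.of_forall fun I => ?_).frequently
    exact continuousOn_finsetProd I fun p _ => continuousOn_const.add (hc p)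
  have h4 : ContinuousOn (tau h k) (Metric.closedBall 0 k0) := by
    refine h3.congr fun s _ => ?_
    unfold tau
    exact tprod_congr fun p => by ring
  exact h4.continuousAt hmem

/-! ### the Euler product -/

theorem dS_hasProd (s : ℂ) (k : ℕ) : HasProd (fun p : Nat.Primes => lC s (k.factorization p)) (dS s k) := by
  have h1 : HasProd (fun p : ℕ => lC s (k.factorization p)) (∏ p ∈ k.primeFactors, lC s (k.factorization p)) :=
    hasProd_prod_of_ne_finset_one fun p hp => by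
      rw [← Nat.support_factorization, Finsupp.notMem_support_iff] at hp
      rw [hp, lC_zero]
  have h2 : Function.Injective (fun p : Nat.Primes => (p : ℕ)) := Nat.Primes.coe_nat_injective
  refine (h2.hasProd_iff (f := fun p : ℕ => lC s (k.factorization p)) ?_).2 h1
  intro p hp
  have h3 : ¬ p.Prime := fun hpp => hp ⟨⟨p, hpp⟩, rfl⟩
  rw [Nat.factorization_eq_zero_of_not_prime k h3, lC_zero]

theorem tw_hasProd {h k : ℕ} (hh : h ≠ 0) (hk : k ≠ 0) {s : ℂ} (hs : ∀ i : ℕ, s + (i : ℂ) ≠ 0) {δ : ℝ} (hδ : 0 < δ) :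
    HasProd (fun p : Nat.Primes => ∑' j : ℕ, lC s (k.factorization p + j) * lC s (h.factorization p + j) *
      ((ph (1 + 2 * δ) (p : ℕ) : ℝ) : ℂ) ^ j) (∑' n : ℕ, tw h k s δ n) := by
  have h1 := ((dS_hasProd s k).mul (dS_hasProd s h)).mul (tg_euler hh hk hs hδ)
  have e1 : (∑' n : ℕ, tw h k s δ n) = dS s k * dS s h * ∑' n : ℕ, tg h k s δ n := by
    rw [← tsum_mul_left]
    exact tsum_congr fun n => tw_eq hs δ n
  rw [e1]
  refine h1.congr_fun fun p => ?_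
  rw [← tsum_mul_left]
  refine tsum_congr fun j => ?_
  have h2 := lC_ne hs (k.factorization p)
  have h3 := lC_ne hs (h.factorization p)
  field_simp

theorem E2_hasProd {h k : ℕ} (hh : h ≠ 0) (hk : k ≠ 0) {s : ℂ} (hs : ∀ i : ℕ, s + (i : ℂ) ≠ 0) {δ : ℝ} (hδ : 0 < δ) :
    HasProd (fun p : Nat.Primes => E2 s (k.factorization p) (h.factorization p) (ph (1 + 2 * δ) (p : ℕ)))
      (Complex.exp ((Lm δ : ℂ) * s ^ 2) * ∑' n : ℕ, tw h k s δ n) := by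
  have h1 : HasSum (fun p : Nat.Primes => ((Real.log (1 - ph (1 + 2 * δ) (p : ℕ)) : ℝ) : ℂ) * s ^ 2)
      ((Lm δ : ℂ) * s ^ 2) :=
    (Complex.hasSum_ofReal.2 (ell_summable hδ).hasSum).mul_right _
  have h2 := h1.cexp.mul (tw_hasProd hh hk hs hδ)
  convert h2 using 2 with p
  unfold E2
  congr 1
  have h3 := ph_le_half (σ := 1 + 2 * δ) (by linarith) p.2
  have h4 : (1 - ((ph (1 + 2 * δ) (p : ℕ) : ℝ) : ℂ)) = ((1 - ph (1 + 2 * δ) (p : ℕ) : ℝ) : ℂ) := by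
    push_cast; ring
  simp only [Function.comp_apply]
  rw [h4, Complex.cpow_def_of_ne_zero (by
    rw [Complex.ofReal_ne_zero]
    linarith), Complex.ofReal_log (by linarith)]

/-! ### the result -/

theorem dia_nz {h k : ℕ} (hh : h ≠ 0) (hk : k ≠ 0) (k0 : ℕ) {ε : ℝ} (hε : 0 < ε) :
    ∃ δ0 : ℝ, 0 < δ0 ∧ ∀ δ : ℝ, 0 < δ → δ ≤ δ0 → ∀ s : ℂ, ‖s‖ ≤ k0 → (∀ i : ℕ, s + (i : ℂ) ≠ 0) →
      ‖((2 * δ : ℝ) : ℂ) ^ (s ^ 2) * (∑' n : ℕ, tw h k s δ n) - tau h k s‖ ≤ ε := by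
  obtain ⟨C, hC, hb⟩ := all_bd k0 (max h k) k.factorization h.factorization
    fun p hp => ⟨fac_big (lt_of_le_of_lt (le_max_right _ _) hp), fac_big (lt_of_le_of_lt (le_max_left _ _) hp)⟩
  set W1 : ℝ := ∑' p : Nat.Primes, C * (((p : ℕ) : ℝ)⁻¹ * ((p : ℕ) : ℝ)⁻¹) with hW1
  set W2 : ℝ := ∑' p : Nat.Primes, C * (4 * ((p : ℕ) : ℝ) ^ (-(1 + 1 / 2 : ℝ))) with hW2
  have s1 : Summable fun p : Nat.Primes => C * (((p : ℕ) : ℝ)⁻¹ * ((p : ℕ) : ℝ)⁻¹) := tau_sum C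
  have s2 : Summable fun p : Nat.Primes => C * (4 * ((p : ℕ) : ℝ) ^ (-(1 + 1 / 2 : ℝ))) :=
    (((summ (by norm_num : (0 : ℝ) < 1 / 2)).comp_injective Nat.Primes.coe_nat_injective).mul_left 4).mul_left C
  have hW2nn : 0 ≤ W2 := tsum_nonneg fun p => by positivity
  set M : ℝ := Real.exp W1 with hM
  have hM0 : 0 < M := Real.exp_pos _
  set η : ℝ := min (1 / ((k0 : ℝ) ^ 2 + 1)) (ε / (4 * ((k0 : ℝ) ^ 2 + 1) * M)) with hη
  have hη0 : 0 < η := by positivity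
  have hL := Metric.tendsto_nhdsWithin_nhds.1 tendsto_Lam η hη0
  obtain ⟨δ1, hδ1, hL'⟩ := hL
  refine ⟨min (δ1 / 2) (ε / (2 * (M * W2 + 1))), by positivity, ?_⟩
  intro δ hδ hδ2 s hsk hnz
  have hδa : δ < δ1 := by
    have := hδ2.trans (min_le_left _ _)
    linarith
  have hδb : δ ≤ ε / (2 * (M * W2 + 1)) := hδ2.trans (min_le_right _ _)
  have hLam : |Real.log (2 * δ) - Lm δ| < η := by
    have := hL' (x := δ) hδ (by rw [dist_zero_right, Real.norm_of_nonneg hδ.le]; exact hδa)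
    rwa [dist_zero_right] at this
  set Λ : ℝ := Real.log (2 * δ) - Lm δ with hΛ
  have hP := E2_hasProd hh hk hnz hδ
  have hA := tau_hasProd h k s
  set S : ℂ := ∑' n : ℕ, tw h k s δ n with hS
  set P : ℂ := Complex.exp ((Lm δ : ℂ) * s ^ 2) * S with hPdef
  have hbd : ∀ x : ℝ, ∀ p : Nat.Primes, 0 ≤ x → x ≤ ((p : ℕ) : ℝ)⁻¹ →
      ‖E2 s (k.factorization p) (h.factorization p) x‖ ≤ 1 + C * (((p : ℕ) : ℝ)⁻¹ * ((p : ℕ) : ℝ)⁻¹) := by
    intro x p hx0 hx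
    have h1 := (hb p s hsk).1 x hx0 hx
    have h2 := norm_add_le (E2 s (k.factorization p) (h.factorization p) x - 1) 1
    rw [sub_add_cancel, norm_one] at h2
    linarith
  have hph : ∀ p : Nat.Primes, 0 ≤ ph (1 + 2 * δ) (p : ℕ) ∧ ph (1 + 2 * δ) (p : ℕ) ≤ ((p : ℕ) : ℝ)⁻¹ :=
    fun p => ⟨(ph_pos _ p.2).le, ph_le_inv (by linarith) p.2⟩
  have hαnn : ∀ p : Nat.Primes, 0 ≤ C * (((p : ℕ) : ℝ)⁻¹ * ((p : ℕ) : ℝ)⁻¹) := fun p => by
    have := (inv_mem p).1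
    positivity
  have hPn : ‖P‖ ≤ M := tprod_bd _ _ hαnn s1 (fun p => hbd _ p (hph p).1 (hph p).2) hP
  have hPA : ‖P - tau h k s‖ ≤ M * (δ * W2) := by
    have h1 := tprod_diff _ _ (fun p : Nat.Primes => C * (((p : ℕ) : ℝ)⁻¹ * ((p : ℕ) : ℝ)⁻¹))
      (fun p : Nat.Primes => δ * (C * (4 * ((p : ℕ) : ℝ) ^ (-(1 + 1 / 2 : ℝ))))) hαnn s1
      (fun p => hbd _ p (hph p).1 (hph p).2) (fun p => hbd _ p (inv_mem p).1 le_rfl) (by
        intro p
        rw [norm_sub_rev]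
        have h2 := (hb p s hsk).2 _ (hph p).1 (hph p).2
        have h3 := inv_sub_ph hδ p.2
        refine h2.trans ?_
        calc C * (((p : ℕ) : ℝ)⁻¹ * (((p : ℕ) : ℝ)⁻¹ - ph (1 + 2 * δ) (p : ℕ)))
            ≤ C * (4 * δ * ((p : ℕ) : ℝ) ^ (-(1 + 1 / 2 : ℝ))) := mul_le_mul_of_nonneg_left h3 hC
          _ = _ := by ring) (s2.mul_left δ) hP hA
    have h4 : ∑' p : Nat.Primes, δ * (C * (4 * ((p : ℕ) : ℝ) ^ (-(1 + 1 / 2 : ℝ)))) = δ * W2 := by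
      rw [hW2, ← tsum_mul_left]
    rw [h4] at h1
    exact h1
  -- the first factor
  have hkey : ((2 * δ : ℝ) : ℂ) ^ (s ^ 2) * S = Complex.exp ((Λ : ℂ) * s ^ 2) * P := by
    rw [hPdef, ← mul_assoc, ← Complex.exp_add, Complex.cpow_def_of_ne_zero (by
      rw [Complex.ofReal_ne_zero]
      positivity), ← Complex.ofReal_log (by positivity)]
    congr 2
    rw [hΛ]
    push_cast
    ring
  have hz : ‖(Λ : ℂ) * s ^ 2‖ ≤ |Λ| * (k0 : ℝ) ^ 2 := by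
    rw [norm_mul, norm_pow, Complex.norm_real, Real.norm_eq_abs]
    exact mul_le_mul_of_nonneg_left (pow_le_pow_left₀ (norm_nonneg _) hsk 2) (abs_nonneg _)
  have hk2 : (k0 : ℝ) ^ 2 ≤ (k0 : ℝ) ^ 2 + 1 := by linarith
  have hz1 : |Λ| * (k0 : ℝ) ^ 2 ≤ 1 := by
    have h1 : |Λ| ≤ 1 / ((k0 : ℝ) ^ 2 + 1) := hLam.le.trans (min_le_left _ _)
    calc |Λ| * (k0 : ℝ) ^ 2 ≤ 1 / ((k0 : ℝ) ^ 2 + 1) * ((k0 : ℝ) ^ 2 + 1) :=
          mul_le_mul h1 hk2 (by positivity) (by positivity)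
      _ = 1 := by field_simp
  have hz2 : 2 * (|Λ| * (k0 : ℝ) ^ 2) * M ≤ ε / 2 := by
    have h1 : |Λ| ≤ ε / (4 * ((k0 : ℝ) ^ 2 + 1) * M) := hLam.le.trans (min_le_right _ _)
    calc 2 * (|Λ| * (k0 : ℝ) ^ 2) * M ≤ 2 * (ε / (4 * ((k0 : ℝ) ^ 2 + 1) * M) * ((k0 : ℝ) ^ 2 + 1)) * M := by
          gcongr
      _ = ε / 2 := by field_simp; ring
  have hex := Complex.norm_exp_sub_one_le (hz.trans hz1)
  have hgoal : ((2 * δ : ℝ) : ℂ) ^ (s ^ 2) * S - tau h k s =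
      (Complex.exp ((Λ : ℂ) * s ^ 2) - 1) * P + (P - tau h k s) := by
    rw [hkey]
    ring
  rw [hgoal]
  have h1 : ‖(Complex.exp ((Λ : ℂ) * s ^ 2) - 1) * P‖ ≤ ε / 2 := by
    rw [norm_mul]
    calc ‖Complex.exp ((Λ : ℂ) * s ^ 2) - 1‖ * ‖P‖ ≤ (2 * (|Λ| * (k0 : ℝ) ^ 2)) * M :=
          mul_le_mul (hex.trans (by linarith)) hPn (norm_nonneg _) (by positivity)
      _ ≤ ε / 2 := hz2
  have h2 : ‖P - tau h k s‖ ≤ ε / 2 := by
    refine hPA.trans ?_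
    have h3 : 0 < M * W2 + 1 := by positivity
    calc M * (δ * W2) ≤ δ * (M * W2 + 1) := by nlinarith
      _ ≤ ε / (2 * (M * W2 + 1)) * (M * W2 + 1) := mul_le_mul_of_nonneg_right hδb h3.le
      _ = ε / 2 := by field_simp
  calc _ ≤ _ := norm_add_le _ _
    _ ≤ ε / 2 + ε / 2 := add_le_add h1 h2
    _ = ε := by ring

/-- the twisted diagonal sums, asymptotics, all complex orders -/
theorem dia {h k : ℕ} (hh : h ≠ 0) (hk : k ≠ 0) (R : ℝ) {ε : ℝ} (hε : 0 < ε) :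
    ∃ δ0 : ℝ, 0 < δ0 ∧ ∀ δ : ℝ, 0 < δ → δ ≤ δ0 → ∀ s : ℂ, ‖s‖ ≤ R →
      ‖((2 * δ : ℝ) : ℂ) ^ (s ^ 2) * (∑' n : ℕ, tw h k s δ n) - tau h k s‖ ≤ ε := by
  obtain ⟨k1, hk1⟩ := exists_nat_ge R
  have hk0 : (k1 : ℝ) + 1 = ((k1 + 1 : ℕ) : ℝ) := by push_cast; ring
  obtain ⟨δ0, hδ0, hd⟩ := dia_nz hh hk (k1 + 1) hε
  refine ⟨δ0, hδ0, fun δ hδ hδ2 s hs => ?_⟩
  have hsk : ‖s‖ < ((k1 + 1 : ℕ) : ℝ) := by rw [← hk0]; linarith
  by_cases hnz : ∀ i : ℕ, s + (i : ℂ) ≠ 0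
  · exact hd δ hδ hδ2 s hsk.le hnz
  push Not at hnz
  obtain ⟨i, hi⟩ := hnz
  have hmem : Metric.closedBall (0 : ℂ) ((k1 + 1 : ℕ) : ℝ) ∈ 𝓝 s := by
    refine Filter.mem_of_superset (Metric.isOpen_ball.mem_nhds ?_) Metric.ball_subset_closedBall
    rw [mem_ball_zero_iff]
    exact hsk
  have hz0 : ((2 * δ : ℝ) : ℂ) ≠ 0 := by
    rw [Complex.ofReal_ne_zero]
    positivity
  have hcont : ContinuousAt (fun s : ℂ => ‖((2 * δ : ℝ) : ℂ) ^ (s ^ 2) * (∑' n : ℕ, tw h k s δ n) - tau h k s‖) s := by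
    have c1 : ContinuousAt (fun s : ℂ => ((2 * δ : ℝ) : ℂ) ^ (s ^ 2)) s :=
      (Continuous.const_cpow (continuous_id.pow 2) (Or.inl hz0)).continuousAt
    have c2 : ContinuousAt (fun s : ℂ => ∑' n : ℕ, tw h k s δ n) s :=
      (tw_cont hh hk (k0 := k1 + 1) (by omega) hδ).continuousAt hmem
    exact ((c1.mul c2).sub (tau_cont h k).continuousAt).norm
  have hseq : Tendsto (fun t : ℝ => s + t * I) (𝓝[≠] 0) (𝓝 s) := by
    have h1 : Continuous fun t : ℝ => s + t * I := by fun_prop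
    have h2 : Tendsto (fun t : ℝ => s + t * I) (𝓝 0) (𝓝 (s + (0 : ℝ) * I)) := h1.tendsto 0
    rw [Complex.ofReal_zero, zero_mul, add_zero] at h2
    exact h2.mono_left nhdsWithin_le_nhds
  have hlim := hcont.tendsto.comp hseq
  refine le_of_tendsto hlim ?_
  have hev : ∀ᶠ t : ℝ in 𝓝[≠] 0, s + t * I ∈ Metric.closedBall (0 : ℂ) ((k1 + 1 : ℕ) : ℝ) := hseq hmem
  filter_upwards [hev, self_mem_nhdsWithin] with t ht ht0
  rw [mem_closedBall_zero_iff] at ht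
  refine hd δ hδ hδ2 _ ht fun j hj => ?_
  have h3 := congrArg Complex.im hj
  have h4 := congrArg Complex.im hi
  simp at h3 h4
  exact ht0 (by simpa [h4] using h3)

end Pool.Agent.U899.TM
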