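import Pool.Agent.U899.TM.Asm

set_option autoImplicit false

/-! Large deviations jointly with the phases of the small primes: all continuous functions of the phases. -/

namespace Pool.Agent.U899.TM

open Finset Filter MeasureTheory Topology Complex UnitAddTorus
open Pool.Agent.N748.MG
open Pool.Agent.N748.GC (chr lw M0 E0 HP pt)

theorem gpt_cont {P : Finset ℕ} (g : C(UnitAddTorus P, ℂ)) : Continuous fun t : ℝ => g (pt P t) :=
  g.continuous.comp (Pool.Agent.N748.GC.ERG.pt_cont P)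

open Classical in
/-- the functional -/
noncomputable def LamT (P : Finset ℕ) (d : ℝ → ℝ) (V : ℝ) (h : ℝ → ℝ) (hm : Measurable h) (C : ℝ) (hC : ∀ x, |h x| ≤ C)
    (T : ℝ) : C(UnitAddTorus P, ℂ) →ₗ[ℂ] ℂ :=
  if hT : 0 < d T ∧ d T ≤ 1 / 16 then
  { toFun := fun g => ((Nr d V T : ℝ) : ℂ) * ((1 / (T : ℂ)) * ∫ t in (0:ℝ)..T, g (pt P t) * ((Ob d V h T t : ℝ) : ℂ))
    map_add' := fun f g => by
      simp only [ContinuousMap.add_apply, add_mul]
      rw [intervalIntegral.integral_add (Ob_int hm hC hT.1 hT.2 (gpt_cont f)) (Ob_int hm hC hT.1 hT.2 (gpt_cont g))]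
      ring
    map_smul' := fun c g => by
      simp only [ContinuousMap.smul_apply, RingHom.id_apply, smul_eq_mul, mul_assoc]
      rw [intervalIntegral.integral_const_mul]
      ring } else 0

theorem LamT_apply {P : Finset ℕ} {d : ℝ → ℝ} {V : ℝ} {h : ℝ → ℝ} {hm : Measurable h} {C : ℝ} {hC : ∀ x, |h x| ≤ C}
    {T : ℝ} (hT : 0 < d T ∧ d T ≤ 1 / 16) (g : C(UnitAddTorus P, ℂ)) :
    LamT P d V h hm C hC T g =
      ((Nr d V T : ℝ) : ℂ) * ((1 / (T : ℂ)) * ∫ t in (0:ℝ)..T, g (pt P t) * ((Ob d V h T t : ℝ) : ℂ)) := by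
  unfold LamT
  rw [dif_pos hT]
  rfl

theorem gM_int {P : Finset ℕ} (hP : ∀ p ∈ P, p.Prime) (V : ℝ) (g : C(UnitAddTorus P, ℂ)) :
    Integrable (fun x => g x * ((M0 V P x : ℝ) : ℂ)) (HP P) := by
  have hc : Continuous fun x => g x * ((M0 V P x : ℝ) : ℂ) :=
    g.continuous.mul (Complex.continuous_ofReal.comp (Pool.Agent.N748.GC.RZ.M0_cont V P hP))
  exact hc.integrable_of_hasCompactSupport (HasCompactSupport.of_compactSpace _)

/-- the limit functional -/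
noncomputable def LL (P : Finset ℕ) (hP : ∀ p ∈ P, p.Prime) (V κ : ℝ) : C(UnitAddTorus P, ℂ) →ₗ[ℂ] ℂ where
  toFun g := (κ : ℂ) * ∫ x, g x * ((M0 V P x : ℝ) : ℂ) ∂(HP P)
  map_add' f g := by
    simp only [ContinuousMap.add_apply, add_mul]
    rw [integral_add (gM_int hP V f) (gM_int hP V g)]
    ring
  map_smul' c g := by
    simp only [ContinuousMap.smul_apply, RingHom.id_apply, smul_eq_mul, mul_assoc]
    rw [integral_const_mul]
    ring

theorem general {P : Finset ℕ} (hP : ∀ p ∈ P, p.Prime) (g : C(UnitAddTorus P, ℂ)) {d : ℝ → ℝ} (hd : Ad d) (V : ℝ)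
    (h : ℝ → ℝ) (S : Finset ℝ) (hm : Measurable h)
    (hcont : ∀ x, x ∉ S → ContinuousAt h x) (hb1 : ∃ C : ℝ, ∀ x, |h x| ≤ C)
    (hb2 : ∃ C : ℝ, ∀ x, |h x| * (1 + x ^ 2) ≤ C * Real.exp (2 * V * x)) :
    Tendsto (fun T : ℝ => ((Nr d V T : ℝ) : ℂ) * ((1 / (T : ℂ)) * ∫ t in (0:ℝ)..T, g (pt P t) * ((Ob d V h T t : ℝ) : ℂ))) atTop
    (𝓝 ((((aC V).re * ∫ x, Real.exp (-(2 * V * x)) * h x : ℝ) : ℂ) * ∫ x, g x * ((M0 V P x : ℝ) : ℂ) ∂(HP P))) := by
  obtain ⟨C, hC⟩ := hb1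
  set κ : ℝ := (aC V).re * ∫ x, Real.exp (-(2 * V * x)) * h x with hκ
  -- the bound
  have habs := ldF d hd V (fun x => |h x|) S hm.abs (fun x hx => (hcont x hx).abs)
    ⟨C, fun x => by rw [abs_abs]; exact hC x⟩ (by
      obtain ⟨C2, hC2⟩ := hb2
      exact ⟨C2, fun x => by rw [abs_abs]; exact hC2 x⟩)
  obtain ⟨B, hB⟩ := habs.isBoundedUnder_le.eventually_le
  have hbd : ∀ᶠ T : ℝ in atTop, ∀ g : C(UnitAddTorus P, ℂ), ‖LamT P d V h hm C hC T g‖ ≤ max B |κ| * ‖g‖ := by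
    filter_upwards [hB, small_ev hd] with T hT1 hT g
    rw [LamT_apply ⟨hT.1, hT.2.1⟩]
    have hT0 : 0 < T := by linarith [hT.2.2]
    have hN0 : 0 ≤ Nr d V T := by
      unfold Nr
      have := hT.1
      positivity
    rw [norm_mul, norm_mul, Complex.norm_real, Real.norm_of_nonneg hN0, norm_div, norm_one, Complex.norm_real,
      Real.norm_of_nonneg hT0.le]
    have i1 : IntervalIntegrable (fun t => |Ob d V h T t|) volume 0 T := by
      have h4 := (Ob_int (V := V) hm hC hT.1 hT.2.1 (φ := fun _ => (1 : ℂ)) continuous_const (a := 0) (b := T)).norm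
      refine h4.congr fun t _ => ?_
      simp
    have i2 : ‖∫ t in (0:ℝ)..T, g (pt P t) * ((Ob d V h T t : ℝ) : ℂ)‖ ≤ ‖g‖ * ∫ t in (0:ℝ)..T, |Ob d V h T t| := by
      refine (intervalIntegral.norm_integral_le_integral_norm hT0.le).trans ?_
      rw [← intervalIntegral.integral_const_mul]
      refine intervalIntegral.integral_mono_on hT0.le (Ob_int (V := V) hm hC hT.1 hT.2.1 (gpt_cont g)).norm
        (i1.const_mul _) fun t _ => ?_
      rw [norm_mul, Complex.norm_real, Real.norm_eq_abs]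
      exact mul_le_mul_of_nonneg_right (g.norm_coe_le_norm _) (abs_nonneg _)
    have i3 : Nr d V T * ((1 / T) * ∫ t in (0:ℝ)..T, |Ob d V h T t|) ≤ B := hT1
    calc Nr d V T * (1 / T * ‖∫ t in (0:ℝ)..T, g (pt P t) * ((Ob d V h T t : ℝ) : ℂ)‖)
        ≤ Nr d V T * (1 / T * (‖g‖ * ∫ t in (0:ℝ)..T, |Ob d V h T t|)) := by gcongr
      _ = (Nr d V T * ((1 / T) * ∫ t in (0:ℝ)..T, |Ob d V h T t|)) * ‖g‖ := by ring
      _ ≤ B * ‖g‖ := mul_le_mul_of_nonneg_right i3 (norm_nonneg _)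
      _ ≤ _ := mul_le_mul_of_nonneg_right (le_max_left _ _) (norm_nonneg _)
  have hLb : ∀ g : C(UnitAddTorus P, ℂ), ‖LL P hP V κ g‖ ≤ max B |κ| * ‖g‖ := by
    intro g
    change ‖(κ : ℂ) * ∫ x, g x * ((M0 V P x : ℝ) : ℂ) ∂(HP P)‖ ≤ _
    rw [norm_mul, Complex.norm_real, Real.norm_eq_abs]
    have h1 : ‖∫ x, g x * ((M0 V P x : ℝ) : ℂ) ∂(HP P)‖ ≤ ‖g‖ := by
      have h2 := Pool.Agent.N748.GC.RZ.M0_int V P hP
      have hMi : Integrable (fun x => M0 V P x) (HP P) :=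
        (Pool.Agent.N748.GC.RZ.M0_cont V P hP).integrable_of_hasCompactSupport (HasCompactSupport.of_compactSpace _)
      refine (norm_integral_le_integral_norm _).trans ?_
      have h3 : ∫ x, ‖g x * ((M0 V P x : ℝ) : ℂ)‖ ∂(HP P) ≤ ∫ x, ‖g‖ * M0 V P x ∂(HP P) := by
        refine integral_mono (gM_int hP V g).norm (hMi.const_mul _) fun x => ?_
        simp only
        rw [norm_mul, Complex.norm_real, Real.norm_of_nonneg (Pool.Agent.N748.GC.RZ.M0_pos V P hP x).le]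
        exact mul_le_mul_of_nonneg_right (g.norm_coe_le_norm _) (Pool.Agent.N748.GC.RZ.M0_pos V P hP x).le
      refine h3.trans (le_of_eq ?_)
      rw [integral_const_mul]
      have h4 : ∫ x, M0 V P x ∂(HP P) = 1 := h2
      exact (congrArg (fun z => ‖g‖ * z) h4).trans (mul_one _)
    calc |κ| * ‖∫ x, g x * ((M0 V P x : ℝ) : ℂ) ∂(HP P)‖ ≤ max B |κ| * ‖g‖ :=
          mul_le_mul (le_max_right _ _) h1 (norm_nonneg _) ((abs_nonneg _).trans (le_max_right _ _))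
      _ = _ := rfl
  have hlim : Tendsto (fun T => LamT P d V h hm C hC T g) atTop (𝓝 (LL P hP V κ g)) := by
    refine Pool.Agent.N748.GC.ERG.dens hbd hLb (fun n => ?_) g
    have h1 := ldchar hP n hd V h S hm hcont ⟨C, hC⟩ hb2
    refine Tendsto.congr' ?_ h1
    filter_upwards [small_ev hd] with T hT
    rw [LamT_apply ⟨hT.1, hT.2.1⟩]
  refine Tendsto.congr' ?_ hlim
  filter_upwards [small_ev hd] with T hT
  rw [LamT_apply ⟨hT.1, hT.2.1⟩]

end Pool.Agent.U899.TM
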