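import Pool.Agent.U899.TM.LDW
import Pool.Agent.N748.MG.TMB

set_option autoImplicit false

/-!
# Truncated moments in the critical window, with a weight
-/

namespace Pool.Agent.U899.TM.TMBW

open Finset Filter MeasureTheory Topology Complex
open ProbabilityTheory (gaussianReal)
open Pool.Agent.N748.MG
open Pool.Agent.N748.MG.TMB (small lam_tendsto mz_nn mz_cont)

/-- the central limit theorem for the tilted measure -/
theorem clt {w : ℝ → ℝ} {G : ℂ → ℂ} (hw : Measurable w) (w0 : ∀ t, 0 ≤ w t) (hac : Continuous G) {d : ℝ → ℝ} (hd : Ad d)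
    {V D r : ℝ} (hr : 0 < r) (hrV : G V = r)
    {N : ℝ → Set ℝ} (hN : ∀ n, ∀ᶠ T : ℝ in atTop, LDW.Gw w G d D n T (N T)) (f : ℝ → ℝ) (S : Finset ℝ)
    (hf : Measurable f) (hfc : ∀ x, x ∉ S → ContinuousAt f x) (C : ℝ) (hC : ∀ x, |f x| ≤ C) :
    Tendsto (fun T : ℝ => ∫ x, f (x / Real.sqrt (Real.log (1 / (2 * d T)) / 2))
      ∂(LDW.nu w (d T) V r T (N T))) atTop (𝓝 (∫ x, f x ∂(gaussianReal 0 1))) := by
  have hsm := small hd
  have hΛ := lam_tendsto hd
  have hfin : ∀ᶠ T : ℝ in atTop, IsFiniteMeasure (LDW.nu w (d T) V r T (N T)) := by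
    obtain ⟨n, hn⟩ := exists_nat_gt (max |V| (1 / r))
    filter_upwards [hN n, hsm] with T hT hT2
    have h1 : |V| ≤ (n : ℝ) + 1 := by linarith [le_max_left |V| (1 / r)]
    refine LDW.fin w0 hT hr (by linarith [hT2.2.2]) h1 hrV ?_
    have h2 : 1 / r < (n : ℝ) + 1 := by linarith [le_max_right |V| (1 / r)]
    rw [div_lt_iff₀ hr] at h2
    rw [div_lt_iff₀ (by positivity)]
    linarith
  -- the frequency tends to zero
  have hη : ∀ ξ : ℝ, Tendsto (fun T : ℝ => ξ / Real.sqrt (Real.log (1 / (2 * d T)) / 2)) atTop (𝓝 0) := by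
    intro ξ
    have h1 : Tendsto (fun T : ℝ => Real.sqrt (Real.log (1 / (2 * d T)) / 2)) atTop atTop :=
      Real.tendsto_sqrt_atTop.comp (hΛ.atTop_div_const (by norm_num))
    exact h1.const_div_atTop ξ
  -- the characteristic functions
  have hcf : ∀ ξ : ℝ, Tendsto (fun T : ℝ => ∫ x, cexp (((ξ / Real.sqrt (Real.log (1 / (2 * d T)) / 2) : ℝ) : ℂ) * x * I)
      ∂(LDW.nu w (d T) V r T (N T))) atTop (𝓝 (Real.exp (-(ξ ^ 2 / 2)) : ℂ)) := by
    intro ξ
    obtain ⟨η, hηd⟩ : ∃ η : ℝ → ℝ, ∀ T, η T = ξ / Real.sqrt (Real.log (1 / (2 * d T)) / 2) :=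
      ⟨_, fun T => rfl⟩
    have hη0 : Tendsto η atTop (𝓝 0) := (hη ξ).congr fun T => (hηd T).symm
    -- the limit of the arithmetic factor
    have hA : Tendsto (fun T : ℝ => G (V + (η T : ℂ) / 2 * I)) atTop (𝓝 (r : ℂ)) := by
      have h1 : Continuous (fun e : ℝ => G ((V : ℂ) + (e : ℂ) / 2 * I)) := by
        have : Continuous (fun e : ℝ => (V : ℂ) + (e : ℂ) / 2 * I) := by fun_prop
        exact hac.comp this
      have h2 := (h1.tendsto 0).comp hη0
      simp only [Function.comp_def, Complex.ofReal_zero, zero_div, zero_mul, add_zero] at h2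
      rw [hrV] at h2
      exact h2
    obtain ⟨W, hWd⟩ : ∃ W : ℝ → ℂ, ∀ T, W T = ((2 * d T : ℝ) : ℂ) ^ ((V + (η T : ℂ) / 2 * I : ℂ) ^ 2) *
          ∫ t in N T, ((w t : ℝ) : ℂ) * ((‖riemannZeta (pw (d T) t)‖ : ℝ) : ℂ) ^ (2 * (V + (η T : ℂ) / 2 * I : ℂ)) :=
      ⟨_, fun T => rfl⟩
    -- the error
    have hB : Tendsto (fun T : ℝ => (1 / (T * r) : ℂ) * (W T - T * G (V + (η T : ℂ) / 2 * I))) atTop (𝓝 0) := by
      rw [tendsto_zero_iff_norm_tendsto_zero, Metric.tendsto_atTop']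
      intro ε hε
      have hη1 : ∀ᶠ T : ℝ in atTop, |η T| ≤ 1 := by
        have := hη0.abs
        rw [abs_zero] at this
        exact this.eventually_le_const one_pos
      obtain ⟨n, hn⟩ := exists_nat_gt (max (|V| + 1) (1 / (ε / 2 * r)))
      have hev : ∀ᶠ T : ℝ in atTop, dist ‖(1 / (T * r) : ℂ) * (W T - T * G (V + (η T : ℂ) / 2 * I))‖ 0 < ε := by
        filter_upwards [hN n, hsm, hη1] with T hT hT2 hT3
        obtain ⟨h0, h1, hT1⟩ := hT2
        have hT0 : 0 < T := by linarith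
        have h2 : ‖(V : ℂ) + (η T : ℂ) / 2 * I‖ ≤ (n : ℝ) + 1 := by
          have h3 : ‖(V : ℂ) + (η T : ℂ) / 2 * I‖ ≤ |V| + |η T| / 2 := by
            refine (norm_add_le _ _).trans ?_
            rw [Complex.norm_real, norm_mul, Complex.norm_I, mul_one, norm_div, Complex.norm_real,
              Real.norm_eq_abs, Real.norm_eq_abs]
            norm_num
          have := le_max_left (|V| + 1) (1 / (ε / 2 * r))
          linarith
        have h4 := hT.est _ h2
        rw [← hWd T] at h4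
        have h5 : 1 / ((n : ℝ) + 1) ≤ ε / 2 * r := by
          have h6 := le_max_right (|V| + 1) (1 / (ε / 2 * r))
          have h7 : 1 / (ε / 2 * r) < (n : ℝ) + 1 := by linarith
          rw [div_lt_iff₀ (by positivity)] at h7
          rw [div_le_iff₀ (by positivity)]
          linarith
        rw [Real.dist_eq, sub_zero, abs_norm, norm_mul]
        have e2 : ‖(1 / (T * r) : ℂ)‖ = 1 / (T * r) := by
          rw [norm_div, norm_one, norm_mul, Complex.norm_real, Complex.norm_real,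
            Real.norm_of_nonneg hT0.le, Real.norm_of_nonneg hr.le]
        rw [e2]
        calc 1 / (T * r) * ‖W T - T * G (V + (η T : ℂ) / 2 * I)‖ ≤ 1 / (T * r) * (ε / 2 * r * T) := by
              refine mul_le_mul_of_nonneg_left (h4.trans ?_) (by positivity)
              exact mul_le_mul_of_nonneg_right h5 hT0.le
          _ = ε / 2 := by field_simp
          _ < ε := by linarith
      obtain ⟨T0, hT0⟩ := eventually_atTop.mp hev
      exact ⟨T0, fun T hT => hT0 T hT.le⟩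
    have hsum : Tendsto (fun T : ℝ => (Real.exp (-(ξ ^ 2 / 2)) : ℂ) *
        ((1 / (T * r) : ℂ) * (W T - T * G (V + (η T : ℂ) / 2 * I)) + G (V + (η T : ℂ) / 2 * I) / r)) atTop
        (𝓝 ((Real.exp (-(ξ ^ 2 / 2)) : ℂ) * (0 + (r : ℂ) / r))) :=
      (hB.add (hA.div_const _)).const_mul _
    have hr' : (r : ℂ) ≠ 0 := by exact_mod_cast hr.ne'
    rw [div_self hr', zero_add, mul_one] at hsum
    refine hsum.congr' ?_
    filter_upwards [hN 0, hsm, hΛ.eventually_gt_atTop 0] with T hT hT2 hT4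
    obtain ⟨h0, h1, hT1⟩ := hT2
    have hT0 : 0 < T := by linarith
    rw [← hηd T, LDW.four hw w0 h0 h1 hr hT0 V (η T) hT.meas hT.nz, ← hWd T]
    have hT' : (T : ℂ) ≠ 0 := by exact_mod_cast hT0.ne'
    have e3 : η T ^ 2 * Real.log (1 / (2 * d T)) / 4 = ξ ^ 2 / 2 := by
      rw [hηd T, div_pow, Real.sq_sqrt (by positivity)]
      field_simp
      norm_num
    rw [e3]
    field_simp
    ring
  refine tendsto_of_seq_tendsto fun u hu => ?_
  obtain ⟨M, hM⟩ := eventually_atTop.mp (hu.eventually hfin)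
  rw [← tendsto_add_atTop_iff_nat M]
  have hg : ∀ T : ℝ, Measurable (fun x : ℝ => x / Real.sqrt (Real.log (1 / (2 * d T)) / 2)) := fun T => by fun_prop
  let μ : ℕ → FiniteMeasure ℝ := fun n => ⟨(LDW.nu w (d (u (n + M))) V r (u (n + M)) (N (u (n + M)))).map
    (fun x : ℝ => x / Real.sqrt (Real.log (1 / (2 * d (u (n + M)))) / 2)),
    @Measure.isFiniteMeasure_map _ _ _ _ _ (hM (n + M) (Nat.le_add_left _ _)) _⟩
  let μ' : FiniteMeasure ℝ := ⟨gaussianReal 0 1, inferInstance⟩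
  have hμi : ∀ {E : Type} [NormedAddCommGroup E] [NormedSpace ℝ E] (g : ℝ → E) (n : ℕ), StronglyMeasurable g →
      ∫ x, g x ∂(μ n : Measure ℝ) = ∫ x, g (x / Real.sqrt (Real.log (1 / (2 * d (u (n + M)))) / 2))
        ∂(LDW.nu w (d (u (n + M))) V r (u (n + M)) (N (u (n + M)))) := by
    intro E _ _ g n hg'
    show ∫ x, g x ∂((LDW.nu w (d (u (n + M))) V r (u (n + M)) (N (u (n + M)))).map
      (fun x : ℝ => x / Real.sqrt (Real.log (1 / (2 * d (u (n + M)))) / 2))) = _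
    rw [integral_map (hg _).aemeasurable hg'.aestronglyMeasurable]
  have hμ'0 : μ' ≠ 0 := by
    intro h0
    have h1 : (gaussianReal 0 1 : Measure ℝ) = 0 := by
      have : (μ' : Measure ℝ) = 0 := by rw [h0]; rfl
      exact this
    exact IsProbabilityMeasure.ne_zero _ h1
  have hw : Tendsto μ atTop (𝓝 μ') := by
    refine LLT.fm_tendsto μ μ' hμ'0 fun t => ?_
    have h1 : ∀ n, ∫ x, Complex.exp (t * x * I) ∂(μ n : Measure ℝ) =
        ∫ x, cexp (((t / Real.sqrt (Real.log (1 / (2 * d (u (n + M)))) / 2) : ℝ) : ℂ) * x * I)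
      ∂(LDW.nu w (d (u (n + M))) V r (u (n + M)) (N (u (n + M)))) := by
      intro n
      rw [hμi _ n (by
        have : Continuous (fun x : ℝ => Complex.exp (t * x * I)) := by fun_prop
        exact this.stronglyMeasurable)]
      refine integral_congr_ae (Eventually.of_forall fun x => ?_)
      simp only
      congr 1
      push_cast
      ring
    have h2 : ∫ x, Complex.exp (t * x * I) ∂(μ' : Measure ℝ) = (Real.exp (-(t ^ 2 / 2)) : ℂ) := by
      show ∫ x, Complex.exp (t * x * I) ∂(gaussianReal 0 1) = _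
      rw [← charFun_apply_real, ProbabilityTheory.charFun_gaussianReal]
      push_cast
      congr 1
      ring
    simp_rw [h1, h2]
    have h3 := (hcf t).comp hu
    exact (tendsto_add_atTop_iff_nat (f := fun n => ∫ x, cexp (((t / Real.sqrt (Real.log (1 / (2 * d (u n))) / 2) : ℝ) : ℂ) * x * I)
      ∂(LDW.nu w (d (u n)) V r (u n) (N (u n)))) M).mpr h3
  have hSnull : ∀ᵐ x ∂(μ' : Measure ℝ), x ∉ S := by
    show ∀ᵐ x ∂(gaussianReal 0 1), x ∉ S
    have : NullSingletonClass (gaussianReal 0 1) := ProbabilityTheory.nullSingletonClass_gaussianReal one_ne_zero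
    have h2 : ∀ᵐ x : ℝ ∂(gaussianReal 0 1), x ∉ (S : Set ℝ) := by
      rw [ae_iff]
      simp only [not_not, Set.ofPred_mem_eq]
      exact S.finite_toSet.measure_zero _
    filter_upwards [h2] with x hx
    exact hx
  have h6 := LLT.fm_disc μ μ' hw f S hf hfc C hC hSnull
  refine h6.congr fun n => ?_
  exact hμi f n hf.stronglyMeasurable

/-- the integral against the tilted measure -/
theorem int_f {w : ℝ → ℝ} (hw : Measurable w) (w0 : ∀ t, 0 ≤ w t) {δ r T : ℝ} (h0 : 0 < δ) (h1 : δ ≤ 1 / 16) (hr : 0 < r) (hT : 0 < T) (V : ℝ)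
    {N : Set ℝ} {f : ℝ → ℝ} (hm : Measurable f) (a : ℝ) :
    r * ∫ x, f (x / a) ∂(LDW.nu w δ V r T N) =
      (2 * δ) ^ (V ^ 2) * ((1 / T) * ∫ t in N, (w t * mz δ t ^ (2 * V)) * f (LD.X δ V t / a)) := by
  rw [LDW.int_nu hw w0 h0 h1 hr hT V N (f := fun x => f (x / a))
    (hm.comp (measurable_id.div_const a)).stronglyMeasurable, ← integral_const_mul,
    ← integral_const_mul, ← integral_const_mul]
  refine integral_congr_ae (Eventually.of_forall fun t => ?_)
  simp only [smul_eq_mul]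
  have e : LD.rho δ V r T t = 1 / r * ((2 * δ) ^ (V ^ 2) * (1 / T)) * mz δ t ^ (2 * V) := by
    unfold LD.rho mz
    rw [Real.rpow_def_of_pos (by positivity : 0 < 2 * δ), LD.log_eq]
    have e2 : -(-Real.log (2 * δ) * V ^ 2) = Real.log (2 * δ) * V ^ 2 := by ring
    rw [e2]
    ring
  rw [e]
  field_simp


/-- the common part of the two statements -/
theorem core {w : ℝ → ℝ} {G : ℂ → ℂ} (hw : Measurable w) (w0 : ∀ t, 0 ≤ w t) {K : ℝ} (wK : ∀ t, w t ≤ K)
    (hac : Continuous G) (h : LDW.WCM w G) {r : ℝ} (hr : 0 < r) {d : ℝ → ℝ} (hd : Ad d) (k : ℝ) (hrV : G k = r)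
    (B : Set ℝ) (S : Finset ℝ) (hB : MeasurableSet B) (hBc : ∀ y, y ∉ S → ContinuousAt (B.indicator (fun _ => (1 : ℝ))) y)
    (Q : ℝ → ℝ → Prop) (hQm : ∀ T, MeasurableSet {z | Q T z})
    (hQ : ∀ᶠ T : ℝ in atTop, ∀ z, 0 < z → (Q T z ↔
      (Real.log z - k * Real.log (1 / (2 * d T))) / Real.sqrt (Real.log (1 / (2 * d T)) / 2) ∈ B))
    (hQb : ∀ᶠ T : ℝ in atTop, ∀ z, 0 ≤ z → Q T z → z ^ (2 * k) ≤ (2 * d T) ^ (-(2 * k ^ 2) - 1)) :
    Tendsto (fun T : ℝ => (2 * d T) ^ (k ^ 2) * ((1 / T) *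
      ∫ t in {t : ℝ | t ∈ Set.Icc 0 T ∧ Q T (mz (d T) t)}, w t * mz (d T) t ^ (2 * k))) atTop
      (𝓝 (r * (gaussianReal 0 1 B).toReal)) := by
  have hK0 : 0 ≤ K := (w0 0).trans (wK 0)
  have hD : 0 < k ^ 2 + 2 := by positivity
  obtain ⟨N, hN⟩ := LDW.exists_sets h hd hD
  have hsm := small hd
  have hfm : Measurable (B.indicator (fun _ => (1 : ℝ))) := measurable_const.indicator hB
  have key := clt hw w0 hac hd hr hrV hN (B.indicator (fun _ => (1 : ℝ))) S hfm hBc 1 (fun x => by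
    by_cases hx : x ∈ B
    · rw [Set.indicator_of_mem hx]
      simp
    · rw [Set.indicator_of_notMem hx]
      simp)
  have hg : ∫ y, B.indicator (fun _ => (1 : ℝ)) y ∂(gaussianReal 0 1) = (gaussianReal 0 1 B).toReal := by
    exact integral_indicator_one (μ := gaussianReal 0 1) hB
  rw [hg] at key
  obtain ⟨E, hE⟩ : ∃ E : ℝ → ℝ, ∀ T, E T = (2 * d T) ^ (k ^ 2) * ((1 / T) *
      ∫ t in {t : ℝ | t ∈ Set.Icc 0 T \ N T ∧ Q T (mz (d T) t)}, w t * mz (d T) t ^ (2 * k)) := ⟨_, fun T => rfl⟩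
  have hE0 : Tendsto E atTop (𝓝 0) := by
    have hKd : Tendsto (fun T : ℝ => K * d T) atTop (𝓝 0) := by
      have := hd.t0.const_mul K
      rwa [mul_zero] at this
    refine squeeze_zero_norm' (a := fun T => K * d T) ?_ hKd
    filter_upwards [hN 0, hsm, hQb] with T hT hT2 hb
    obtain ⟨h0, h1, hT1⟩ := hT2
    have hT0 : 0 < T := by linarith
    have hms : MeasurableSet {t : ℝ | t ∈ Set.Icc 0 T \ N T ∧ Q T (mz (d T) t)} :=
      (measurableSet_Icc.diff hT.meas).inter ((mz_cont h0 h1).measurable (hQm T))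
    have hsub : {t : ℝ | t ∈ Set.Icc 0 T \ N T ∧ Q T (mz (d T) t)} ⊆ Set.Icc 0 T \ N T := fun t ht => ht.1
    have hvol : volume {t : ℝ | t ∈ Set.Icc 0 T \ N T ∧ Q T (mz (d T) t)} ≤ ENNReal.ofReal (d T ^ (k ^ 2 + 2) * T) :=
      (measure_mono hsub).trans hT.vol
    have h2 : ‖∫ t in {t : ℝ | t ∈ Set.Icc 0 T \ N T ∧ Q T (mz (d T) t)}, w t * mz (d T) t ^ (2 * k)‖ ≤
        (K * (2 * d T) ^ (-(2 * k ^ 2) - 1)) * (d T ^ (k ^ 2 + 2) * T) := by
      have hfin : volume {t : ℝ | t ∈ Set.Icc 0 T \ N T ∧ Q T (mz (d T) t)} < ⊤ :=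
        lt_of_le_of_lt hvol ENNReal.ofReal_lt_top
      refine (norm_setIntegral_le_of_norm_le_const (C := K * (2 * d T) ^ (-(2 * k ^ 2) - 1)) hfin fun t ht => ?_).trans ?_
      · rw [Real.norm_of_nonneg (mul_nonneg (w0 t) (Real.rpow_nonneg (mz_nn _ _) _))]
        exact mul_le_mul (wK t) (hb _ (mz_nn _ _) ht.2) (Real.rpow_nonneg (mz_nn _ _) _) hK0
      · refine mul_le_mul_of_nonneg_left ?_ (by positivity)
        have h3 := ENNReal.toReal_mono ENNReal.ofReal_ne_top hvol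
        rw [ENNReal.toReal_ofReal (by positivity)] at h3
        exact h3
    have h8 : (2 * d T) ^ (k ^ 2) * (2 * d T) ^ (-(2 * k ^ 2) - 1) * d T ^ (k ^ 2 + 2) ≤ d T := by
      rw [← Real.rpow_add (by positivity), Real.mul_rpow (by norm_num) h0.le, mul_assoc, ← Real.rpow_add h0]
      have h9 : (2 : ℝ) ^ (k ^ 2 + (-(2 * k ^ 2) - 1)) ≤ 1 :=
        Real.rpow_le_one_of_one_le_of_nonpos (by norm_num) (by nlinarith [sq_nonneg k])
      have h10 : d T ^ (k ^ 2 + (-(2 * k ^ 2) - 1) + (k ^ 2 + 2)) = d T := by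
        rw [show k ^ 2 + (-(2 * k ^ 2) - 1) + (k ^ 2 + 2) = 1 by ring, Real.rpow_one]
      rw [h10]
      calc (2 : ℝ) ^ (k ^ 2 + (-(2 * k ^ 2) - 1)) * d T ≤ 1 * d T :=
            mul_le_mul_of_nonneg_right h9 h0.le
        _ = d T := one_mul _
    rw [hE, norm_mul, norm_mul, Real.norm_of_nonneg (by positivity : (0 : ℝ) ≤ (2 * d T) ^ (k ^ 2)),
      Real.norm_of_nonneg (by positivity : (0 : ℝ) ≤ 1 / T)]
    calc (2 * d T) ^ (k ^ 2) * (1 / T * ‖∫ t in {t : ℝ | t ∈ Set.Icc 0 T \ N T ∧ Q T (mz (d T) t)}, w t * mz (d T) t ^ (2 * k)‖)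
        ≤ (2 * d T) ^ (k ^ 2) * (1 / T * ((K * (2 * d T) ^ (-(2 * k ^ 2) - 1)) * (d T ^ (k ^ 2 + 2) * T))) := by
          gcongr
      _ = K * ((2 * d T) ^ (k ^ 2) * (2 * d T) ^ (-(2 * k ^ 2) - 1) * d T ^ (k ^ 2 + 2)) := by
          field_simp
      _ ≤ K * d T := mul_le_mul_of_nonneg_left h8 hK0
  have hlim := (key.const_mul r).add hE0
  rw [add_zero] at hlim
  refine hlim.congr' ?_
  filter_upwards [hN 0, hsm, hQ, hQb] with T hT hT2 hq hb
  obtain ⟨h0, h1, hT1⟩ := hT2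
  have hT0 : 0 < T := by linarith
  have hmc : Measurable (mz (d T)) := (mz_cont h0 h1).measurable
  have hms : MeasurableSet {t : ℝ | Q T (mz (d T) t)} := hmc (hQm T)
  have hbnd : ∀ t, Q T (mz (d T) t) → ‖w t * mz (d T) t ^ (2 * k)‖ ≤ K * (2 * d T) ^ (-(2 * k ^ 2) - 1) := by
    intro t ht
    rw [Real.norm_of_nonneg (mul_nonneg (w0 t) (Real.rpow_nonneg (mz_nn _ _) _))]
    exact mul_le_mul (wK t) (hb _ (mz_nn _ _) ht) (Real.rpow_nonneg (mz_nn _ _) _) hK0
  have hint : ∀ A : Set ℝ, MeasurableSet A → A ⊆ Set.Icc 0 T →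
      IntegrableOn (fun t => w t * mz (d T) t ^ (2 * k)) (A ∩ {t : ℝ | Q T (mz (d T) t)}) volume := by
    intro A hA hA2
    refine Measure.integrableOn_of_bounded (M := K * (2 * d T) ^ (-(2 * k ^ 2) - 1)) ?_ ?_ ?_
    · refine ((measure_mono (Set.inter_subset_left.trans hA2)).trans_lt ?_).ne
      rw [Real.volume_Icc]
      exact ENNReal.ofReal_lt_top
    · exact (hw.mul (hmc.pow_const _)).aestronglyMeasurable
    · filter_upwards [ae_restrict_mem (hA.inter hms)] with t ht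
      exact hbnd t ht.2
  have hsplit : ∫ t in {t : ℝ | t ∈ Set.Icc 0 T ∧ Q T (mz (d T) t)}, w t * mz (d T) t ^ (2 * k) =
      (∫ t in N T ∩ {t : ℝ | Q T (mz (d T) t)}, w t * mz (d T) t ^ (2 * k)) +
      ∫ t in {t : ℝ | t ∈ Set.Icc 0 T \ N T ∧ Q T (mz (d T) t)}, w t * mz (d T) t ^ (2 * k) := by
    have hu : {t : ℝ | t ∈ Set.Icc 0 T ∧ Q T (mz (d T) t)} = (N T ∩ {t : ℝ | Q T (mz (d T) t)}) ∪
        ((Set.Icc 0 T \ N T) ∩ {t : ℝ | Q T (mz (d T) t)}) := by
      rw [← Set.union_inter_distrib_right, Set.union_sdiff_cancel hT.sub]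
      rfl
    have hdis : Disjoint (N T ∩ {t : ℝ | Q T (mz (d T) t)}) ((Set.Icc 0 T \ N T) ∩ {t : ℝ | Q T (mz (d T) t)}) :=
      (Set.disjoint_sdiff_right (s := N T) (t := Set.Icc 0 T)).mono Set.inter_subset_left Set.inter_subset_left
    rw [hu, setIntegral_union hdis ((measurableSet_Icc.diff hT.meas).inter hms)
      (hint _ hT.meas hT.sub) (hint _ (measurableSet_Icc.diff hT.meas) Set.sdiff_subset)]
    rfl
  have hmain : ∫ t in N T, (w t * mz (d T) t ^ (2 * k)) * B.indicator (fun _ => (1 : ℝ))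
      (LD.X (d T) k t / Real.sqrt (Real.log (1 / (2 * d T)) / 2)) =
      ∫ t in N T ∩ {t : ℝ | Q T (mz (d T) t)}, w t * mz (d T) t ^ (2 * k) := by
    rw [← setIntegral_indicator hms]
    refine setIntegral_congr_fun hT.meas fun t ht => ?_
    have hz : 0 < mz (d T) t := norm_pos_iff.2 (hT.nz t ht)
    have h5 := hq _ hz
    by_cases hQt : Q T (mz (d T) t)
    · have h6 : LD.X (d T) k t / Real.sqrt (Real.log (1 / (2 * d T)) / 2) ∈ B := h5.1 hQt
      have h7 : t ∈ {t : ℝ | Q T (mz (d T) t)} := hQt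
      rw [Set.indicator_of_mem h6, Set.indicator_of_mem h7, mul_one]
    · have h6 : LD.X (d T) k t / Real.sqrt (Real.log (1 / (2 * d T)) / 2) ∉ B := fun h7 => hQt (h5.2 h7)
      have h7 : t ∉ {t : ℝ | Q T (mz (d T) t)} := hQt
      rw [Set.indicator_of_notMem h6, Set.indicator_of_notMem h7, mul_zero]
  rw [int_f hw w0 h0 h1 hr hT0 k hfm, hmain, hE, hsplit]
  ring


end Pool.Agent.U899.TM.TMBW
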