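import Pool.Agent.U899.TM.RealG
import Pool.Agent.U899.TM.TMBW

set_option autoImplicit false

/-! From the positive weights to all continuous functions of the phases, for families of measures. -/

namespace Pool.Agent.U899.TM

open Finset Filter MeasureTheory Topology Complex UnitAddTorus
open Pool.Agent.N748.MG
open Pool.Agent.N748.GC (chr lw M0 E0 HP pt)
open Pool.Agent.N748.GC.EQ (hN kN)

theorem bc_int {μ : Measure ℝ} [IsFiniteMeasure μ] {φ : ℝ → ℂ} (hφ : Continuous φ) {B : ℝ} (hB : ∀ t, ‖φ t‖ ≤ B) :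
    Integrable φ μ :=
  Integrable.of_bound hφ.aestronglyMeasurable B (Eventually.of_forall hB)

open Classical in
/-- the functional of a measure -/
noncomputable def LamM (P : Finset ℕ) (μ : Measure ℝ) : C(UnitAddTorus P, ℂ) →ₗ[ℂ] ℂ :=
  if hT : IsFiniteMeasure μ then
  { toFun := fun g => ∫ t, g (pt P t) ∂μ
    map_add' := fun f g => by
      simp only [ContinuousMap.add_apply]
      exact integral_add (bc_int (gpt_cont f) fun t => f.norm_coe_le_norm _) (bc_int (gpt_cont g) fun t => g.norm_coe_le_norm _)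
    map_smul' := fun c g => by
      simp only [ContinuousMap.smul_apply, RingHom.id_apply, smul_eq_mul]
      exact integral_const_mul _ _ } else 0

theorem LamM_apply {P : Finset ℕ} {μ : Measure ℝ} (hT : IsFiniteMeasure μ) (g : C(UnitAddTorus P, ℂ)) :
    LamM P μ g = ∫ t, g (pt P t) ∂μ := by
  unfold LamM
  rw [dif_pos hT]
  rfl

theorem lift {P : Finset ℕ} (hP : ∀ p ∈ P, p.Prime) (μ : ℝ → Measure ℝ) (hfin : ∀ᶠ T in atTop, IsFiniteMeasure (μ T))
    (V κ : ℝ) (H : ∀ (n : P → ℤ) (c : ℂ), ‖c‖ ≤ 1 → Tendsto (fun T => ∫ t, wt (hN P (Pool.Agent.U899.TW.ext n))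
      (kN P (Pool.Agent.U899.TW.ext n)) c t ∂(μ T)) atTop (𝓝 (κ * (2 + (c * mm V P n).re)))) (g : C(UnitAddTorus P, ℂ)) :
    Tendsto (fun T => ∫ t, g (pt P t) ∂(μ T)) atTop (𝓝 ((κ : ℂ) * ∫ x, g x * ((M0 V P x : ℝ) : ℂ) ∂(HP P))) := by
  -- the mass
  have hmass : Tendsto (fun T => (μ T).real Set.univ) atTop (𝓝 κ) := by
    have h1 := (H 0 0 (by simp)).div_const 2
    have e1 : κ * (2 + ((0 : ℂ) * mm V P 0).re) / 2 = κ := by
      rw [zero_mul, Complex.zero_re]
      ring
    rw [e1] at h1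
    refine h1.congr fun T => ?_
    have e2 : ∀ t, wt (hN P (Pool.Agent.U899.TW.ext (0 : P → ℤ))) (kN P (Pool.Agent.U899.TW.ext (0 : P → ℤ))) 0 t = 2 := by
      intro t
      unfold wt
      rw [zero_mul, Complex.zero_re, add_zero]
    simp only [e2]
    rw [integral_const, smul_eq_mul]
    ring
  obtain ⟨B, hB⟩ := hmass.isBoundedUnder_le.eventually_le
  have hbd : ∀ᶠ T : ℝ in atTop, ∀ g : C(UnitAddTorus P, ℂ), ‖LamM P (μ T) g‖ ≤ max B |κ| * ‖g‖ := by
    filter_upwards [hB, hfin] with T hT1 hT g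
    rw [LamM_apply hT]
    refine (norm_integral_le_of_norm_le_const (C := ‖g‖) (Eventually.of_forall fun t => g.norm_coe_le_norm _)).trans ?_
    rw [mul_comm]
    exact mul_le_mul_of_nonneg_right (hT1.trans (le_max_left _ _)) (norm_nonneg _)
  have hLb : ∀ g : C(UnitAddTorus P, ℂ), ‖LL P hP V κ g‖ ≤ max B |κ| * ‖g‖ := by
    intro g
    change ‖(κ : ℂ) * ∫ x, g x * ((M0 V P x : ℝ) : ℂ) ∂(HP P)‖ ≤ _
    rw [norm_mul, Complex.norm_real, Real.norm_eq_abs]
    have h1 : ‖∫ x, g x * ((M0 V P x : ℝ) : ℂ) ∂(HP P)‖ ≤ ‖g‖ := by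
      have hMi : Integrable (fun x => M0 V P x) (HP P) :=
        (Pool.Agent.N748.GC.RZ.M0_cont V P hP).integrable_of_hasCompactSupport (HasCompactSupport.of_compactSpace _)
      refine (norm_integral_le_integral_norm _).trans ?_
      have h3 : ∫ x, ‖g x * ((M0 V P x : ℝ) : ℂ)‖ ∂(HP P) ≤ ∫ x, ‖g‖ * M0 V P x ∂(HP P) := by
        refine integral_mono (gM_int hP V g).norm (hMi.const_mul _) fun x => ?_
        simp only
        rw [norm_mul, Complex.norm_real, Real.norm_of_nonneg (Pool.Agent.N748.GC.RZ.M0_pos V P hP x).le]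
        exact mul_le_mul_of_nonneg_right (g.norm_coe_le_norm _) (Pool.Agent.N748.GC.RZ.M0_pos V P hP x).le
      refine h3.trans (le_of_eq ?_)
      rw [integral_const_mul]
      exact (congrArg (fun z => ‖g‖ * z) (Pool.Agent.N748.GC.RZ.M0_int V P hP)).trans (mul_one _)
    exact mul_le_mul (le_max_right _ _) h1 (norm_nonneg _) ((abs_nonneg _).trans (le_max_right _ _))
  -- the real parts
  have hre : ∀ (n : P → ℤ) (c : ℂ), ‖c‖ ≤ 1 → Tendsto (fun T => ∫ t, (c * chr (hN P (Pool.Agent.U899.TW.ext n))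
      (kN P (Pool.Agent.U899.TW.ext n)) t).re ∂(μ T)) atTop (𝓝 (κ * (c * mm V P n).re)) := by
    intro n c hc
    have h1 := (H n c hc).sub (hmass.const_mul 2)
    have e1 : κ * (2 + (c * mm V P n).re) - 2 * κ = κ * (c * mm V P n).re := by ring
    rw [e1] at h1
    refine h1.congr' ?_
    filter_upwards [hfin] with T hT
    have i1 : Integrable (fun t => (c * chr (hN P (Pool.Agent.U899.TW.ext n)) (kN P (Pool.Agent.U899.TW.ext n)) t).re) (μ T) := by
      refine Integrable.of_bound (C := 1) (Complex.continuous_re.comp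
        (continuous_const.mul (chr_cont _ _))).aestronglyMeasurable (Eventually.of_forall fun t => ?_)
      rw [Real.norm_eq_abs]
      refine (Complex.abs_re_le_norm _).trans ?_
      rw [norm_mul, chr_norm, mul_one]
      exact hc
    unfold wt
    rw [integral_add (integrable_const _) i1, integral_const, smul_eq_mul]
    ring
  have hlim : Tendsto (fun T => LamM P (μ T) g) atTop (𝓝 (LL P hP V κ g)) := by
    refine Pool.Agent.N748.GC.ERG.dens hbd hLb (fun n => ?_) g
    have hn : (fun p : P => Pool.Agent.U899.TW.ext n (p : ℕ)) = n := by funext p; exact Pool.Agent.U899.TW.ext_mem n p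
    have h1 := hre n 1 (by simp)
    have h2 := hre n (-I) (by simp)
    have h3 := ((Complex.continuous_ofReal.tendsto _).comp h1).add
      (((Complex.continuous_ofReal.tendsto _).comp h2).mul_const I)
    have e1 : (((κ * (1 * mm V P n).re : ℝ) : ℂ)) + (((κ * (-I * mm V P n).re : ℝ) : ℂ)) * I = (κ : ℂ) * mm V P n := by
      have e2 : (-I * mm V P n).re = (mm V P n).im := by simp
      rw [one_mul, e2]
      conv_rhs => rw [← Complex.re_add_im (mm V P n)]
      push_cast
      ring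
    rw [e1] at h3
    refine Tendsto.congr' ?_ h3
    filter_upwards [hfin] with T hT
    rw [LamM_apply hT]
    simp only [Function.comp_apply]
    have e3 : ∀ t, mFourier n (pt P t) = chr (hN P (Pool.Agent.U899.TW.ext n)) (kN P (Pool.Agent.U899.TW.ext n)) t := by
      intro t
      have := Pool.Agent.N748.GC.EQ.mF_pt hP (Pool.Agent.U899.TW.ext n) t
      rwa [hn] at this
    set χ : ℝ → ℂ := chr (hN P (Pool.Agent.U899.TW.ext n)) (kN P (Pool.Agent.U899.TW.ext n)) with hχ
    have hχc : Continuous χ := chr_cont _ _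
    have i1 : ∀ c' : ℂ, ‖c'‖ ≤ 1 → Integrable (fun t => (((c' * χ t).re : ℝ) : ℂ)) (μ T) := fun c' hc' => by
      refine bc_int (Complex.continuous_ofReal.comp (Complex.continuous_re.comp (continuous_const.mul hχc))) (B := 1) fun t => ?_
      rw [Complex.norm_real, Real.norm_eq_abs]
      refine (Complex.abs_re_le_norm _).trans ?_
      rw [norm_mul, hχ, chr_norm, mul_one]
      exact hc'
    rw [← integral_complex_ofReal, ← integral_complex_ofReal, ← integral_mul_const, ← integral_add (i1 1 (by simp))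
      ((i1 (-I) (by simp)).mul_const I)]
    refine integral_congr_ae (ae_of_all _ fun t => ?_)
    simp only
    rw [e3]
    have e6 : (-I * χ t).re = (χ t).im := by simp
    rw [one_mul, e6]
    exact Complex.re_add_im (χ t)
  refine Tendsto.congr' ?_ hlim
  filter_upwards [hfin] with T hT
  rw [LamM_apply hT]

/-! ### densities -/

/-- the measure with density `c g` on `S` -/
noncomputable def mu (c : ℝ) (S : Set ℝ) (g : ℝ → ℝ) : Measure ℝ := (volume.restrict S).withDensity fun t => ENNReal.ofReal (c * g t)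

theorem mu_fin {c : ℝ} {S : Set ℝ} {g : ℝ → ℝ} (hg : IntegrableOn g S) : IsFiniteMeasure (mu c S g) := by
  unfold mu
  exact isFiniteMeasure_withDensity_ofReal (hg.const_mul c).2

theorem mu_int {E : Type} [NormedAddCommGroup E] [NormedSpace ℝ E] {c : ℝ} (hc : 0 ≤ c) {S : Set ℝ} {g : ℝ → ℝ} (hg : Measurable g) (hg0 : ∀ t, 0 ≤ g t) (φ : ℝ → E) :
    ∫ t, φ t ∂(mu c S g) = c • ∫ t in S, g t • φ t := by
  unfold mu
  have h2 : (fun t => ENNReal.ofReal (c * g t)) = fun t => (((c * g t).toNNReal : NNReal) : ENNReal) := rfl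
  have hm2 : Measurable fun t => c * g t := hg.const_mul c
  rw [h2, integral_withDensity_eq_integral_smul hm2.real_toNNReal, ← integral_smul]
  refine integral_congr_ae (Eventually.of_forall fun t => ?_)
  simp only
  rw [NNReal.smul_def, Real.coe_toNNReal _ (mul_nonneg hc (hg0 t)), mul_smul]

/-- the lifting theorem for densities, real functions -/
theorem liftR {P : Finset ℕ} (hP : ∀ p ∈ P, p.Prime) {F : (P → UnitAddCircle) → ℝ} (hF : Continuous F)
    (c : ℝ → ℝ) (S : ℝ → Set ℝ) (g : ℝ → ℝ → ℝ)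
    (hc : ∀ᶠ T in atTop, 0 ≤ c T) (hg : ∀ᶠ T in atTop, Measurable (g T)) (hg0 : ∀ T t, 0 ≤ g T t)
    (hi : ∀ᶠ T in atTop, IntegrableOn (g T) (S T)) (V κ : ℝ)
    (H : ∀ (n : P → ℤ) (c' : ℂ), ‖c'‖ ≤ 1 → Tendsto (fun T => c T * ∫ t in S T, wt (hN P (Pool.Agent.U899.TW.ext n))
      (kN P (Pool.Agent.U899.TW.ext n)) c' t * g T t) atTop (𝓝 (κ * (2 + (c' * mm V P n).re)))) :
    Tendsto (fun T => c T * ∫ t in S T, F (pt P t) * g T t) atTop (𝓝 (κ * tm V P F)) := by
  have hfin : ∀ᶠ T in atTop, IsFiniteMeasure (mu (c T) (S T) (g T)) := hi.mono fun T h => mu_fin h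
  have key := lift hP (fun T => mu (c T) (S T) (g T)) hfin V κ (fun n c' hc' => by
    refine (H n c' hc').congr' ?_
    filter_upwards [hc, hg] with T h1 h2
    rw [mu_int h1 h2 (hg0 T), smul_eq_mul]
    congr 2
    funext t
    rw [smul_eq_mul, mul_comm]) ⟨fun x => ((F x : ℝ) : ℂ), Complex.continuous_ofReal.comp hF⟩
  have k2 := (Complex.continuous_re.tendsto _).comp key
  have e1 : ((κ : ℂ) * ∫ x, (⟨fun x => ((F x : ℝ) : ℂ), Complex.continuous_ofReal.comp hF⟩ : C(UnitAddTorus P, ℂ)) x *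
        ((M0 V P x : ℝ) : ℂ) ∂(HP P)).re = κ * tm V P F := by
    simp only [ContinuousMap.coe_mk, ← Complex.ofReal_mul]
    rw [integral_complex_ofReal, ← Complex.ofReal_mul, Complex.ofReal_re]
    rfl
  rw [e1] at k2
  refine k2.congr' ?_
  filter_upwards [hc, hg] with T h1 h2
  simp only [Function.comp_apply, ContinuousMap.coe_mk]
  rw [integral_complex_ofReal, Complex.ofReal_re, mu_int h1 h2 (hg0 T), smul_eq_mul]
  congr 2
  funext t
  rw [smul_eq_mul, mul_comm]

end Pool.Agent.U899.TM
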