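import Pool.Agent.U899.TM.Mult

set_option autoImplicit false

/-! The local factors of the twisted diagonal sums. -/

namespace Pool.Agent.U899.TM

open Finset Filter MeasureTheory Topology Complex
open Pool.Agent.N748.MG Pool.Agent.N748.MG.L4 Pool.Agent.N748.MG.DIA2

/-- the twisted local factor -/
noncomputable def E2 (s : ℂ) (a b : ℕ) (x : ℝ) : ℂ :=
  (1 - (x : ℂ)) ^ (s ^ 2) * ∑' m : ℕ, lC s (a + m) * lC s (b + m) * (x : ℂ) ^ m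

/-- its coefficients -/
noncomputable def ec2 (s : ℂ) (a b m : ℕ) : ℂ :=
  ∑ q ∈ antidiagonal m, lC (-(s ^ 2)) q.1 * (lC s (a + q.2) * lC s (b + q.2))

theorem E2_zz (s : ℂ) (x : ℝ) : E2 s 0 0 x = E s x := by
  unfold E2 E
  congr 1
  refine tsum_congr fun m => ?_
  rw [zero_add, pow_two]

theorem E2_at0 (s : ℂ) (a b : ℕ) : E2 s a b 0 = lC s a * lC s b := by
  unfold E2
  rw [tsum_eq_single 0]
  · simp
  · intro m hm
    simp [hm]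

theorem summ_ps2 (c : ℕ → ℂ) (A : ℝ) (hA : 0 ≤ A) (j : ℕ) (hc : ∀ m, ‖c m‖ ≤ A * ((m : ℝ) + 1) ^ j) {x : ℝ} (hx0 : 0 ≤ x)
    (hx : x ≤ 1 / 2) : Summable fun m => ‖c m * (x : ℂ) ^ m‖ := by
  refine Summable.of_nonneg_of_le (fun m => norm_nonneg _) (fun m => ?_) ((CON.bb_sum j 1).mul_left A)
  rw [norm_mul, norm_pow, Complex.norm_real, Real.norm_of_nonneg hx0]
  unfold CON.bb
  have h1 : ((m : ℝ) + 1) ^ j ≤ ((m : ℝ) + ((1 : ℕ) : ℝ)) ^ (2 * j) := by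
    rw [Nat.cast_one]
    exact pow_le_pow_right₀ (by linarith [(Nat.cast_nonneg m : (0:ℝ) ≤ m)]) (by omega)
  calc ‖c m‖ * x ^ m ≤ (A * ((m : ℝ) + 1) ^ j) * (1 / 2) ^ m :=
        mul_le_mul (hc m) (pow_le_pow_left₀ hx0 hx m) (by positivity) (by positivity)
    _ ≤ (A * ((m : ℝ) + ((1 : ℕ) : ℝ)) ^ (2 * j)) * (1 / 2) ^ m := by gcongr
    _ = _ := by ring

theorem lC_sh {s : ℂ} {k : ℕ} (hs : ‖s‖ ≤ k) (a m : ℕ) : ‖lC s (a + m)‖ ≤ ((a : ℝ) + 1) ^ k * ((m : ℝ) + 1) ^ k := by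
  refine (CON.lC_bd k hs (a + m)).trans ?_
  rw [← mul_pow]
  refine pow_le_pow_left₀ (by positivity) ?_ k
  push_cast
  nlinarith [(Nat.cast_nonneg a : (0:ℝ) ≤ a), (Nat.cast_nonneg m : (0:ℝ) ≤ m)]

theorem pr_bd {s : ℂ} {k : ℕ} (hs : ‖s‖ ≤ k) (a b m : ℕ) :
    ‖lC s (a + m) * lC s (b + m)‖ ≤ (((a : ℝ) + 1) ^ k * ((b : ℝ) + 1) ^ k) * ((m : ℝ) + 1) ^ (2 * k) := by
  rw [norm_mul]
  calc ‖lC s (a + m)‖ * ‖lC s (b + m)‖ ≤ (((a : ℝ) + 1) ^ k * ((m : ℝ) + 1) ^ k) * (((b : ℝ) + 1) ^ k * ((m : ℝ) + 1) ^ k) :=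
        mul_le_mul (lC_sh hs a m) (lC_sh hs b m) (norm_nonneg _) (by positivity)
    _ = _ := by rw [two_mul, pow_add]; ring

theorem norm_ec2 (s : ℂ) (k : ℕ) (hs : ‖s‖ ≤ k) (a b m : ℕ) :
    ‖ec2 s a b m‖ ≤ (((a : ℝ) + 1) ^ k * ((b : ℝ) + 1) ^ k) * ((m : ℝ) + 1) ^ (k ^ 2 + 2 * k + 1) := by
  unfold ec2
  calc ‖∑ q ∈ antidiagonal m, lC (-(s ^ 2)) q.1 * (lC s (a + q.2) * lC s (b + q.2))‖
      ≤ ∑ q ∈ antidiagonal m, ‖lC (-(s ^ 2)) q.1 * (lC s (a + q.2) * lC s (b + q.2))‖ := norm_sum_le _ _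
    _ ≤ ∑ q ∈ antidiagonal m, (((a : ℝ) + 1) ^ k * ((b : ℝ) + 1) ^ k) * ((m : ℝ) + 1) ^ (k ^ 2 + 2 * k) := by
        refine Finset.sum_le_sum fun q hq => ?_
        have h1 : q.1 + q.2 = m := Finset.HasAntidiagonal.mem_antidiagonal.1 hq
        have h2 : (q.1 : ℝ) ≤ m := by exact_mod_cast (by omega : q.1 ≤ m)
        have h3 : (q.2 : ℝ) ≤ m := by exact_mod_cast (by omega : q.2 ≤ m)
        have h4 : ‖lC (-(s ^ 2)) q.1‖ ≤ ((m : ℝ) + 1) ^ (k ^ 2) :=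
          (CON.lC_bd (k ^ 2) (norm_sq_le hs) _).trans (pow_le_pow_left₀ (by positivity) (by linarith) _)
        have h5 : ‖lC s (a + q.2) * lC s (b + q.2)‖ ≤ (((a : ℝ) + 1) ^ k * ((b : ℝ) + 1) ^ k) * ((m : ℝ) + 1) ^ (2 * k) :=
          (pr_bd hs a b q.2).trans (mul_le_mul_of_nonneg_left (pow_le_pow_left₀ (by positivity) (by linarith) _) (by positivity))
        rw [norm_mul]
        calc ‖lC (-(s ^ 2)) q.1‖ * ‖lC s (a + q.2) * lC s (b + q.2)‖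
            ≤ ((m : ℝ) + 1) ^ (k ^ 2) * ((((a : ℝ) + 1) ^ k * ((b : ℝ) + 1) ^ k) * ((m : ℝ) + 1) ^ (2 * k)) :=
              mul_le_mul h4 h5 (norm_nonneg _) (by positivity)
          _ = _ := by rw [pow_add]; ring
    _ = _ := by
        rw [Finset.sum_const, Finset.Nat.card_antidiagonal, nsmul_eq_mul]
        push_cast
        ring

theorem E2_eq (s : ℂ) (k : ℕ) (hs : ‖s‖ ≤ k) (a b : ℕ) {x : ℝ} (hx0 : 0 ≤ x) (hx : x ≤ 1 / 2) :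
    E2 s a b x = ∑' m : ℕ, ec2 s a b m * (x : ℂ) ^ m := by
  have hx1 : ‖(x : ℂ)‖ < 1 := by
    rw [Complex.norm_real, Real.norm_of_nonneg hx0]; linarith
  have h1 := hasSum_lC (-(s ^ 2)) (x : ℂ) hx1
  have h2 : 1 / (1 - (x : ℂ)) ^ (-(s ^ 2)) = (1 - (x : ℂ)) ^ (s ^ 2) := by
    rw [Complex.cpow_neg, one_div, inv_inv]
  rw [h2] at h1
  unfold E2
  rw [← h1.tsum_eq]
  have hf : Summable fun m => ‖lC (-(s ^ 2)) m * (x : ℂ) ^ m‖ :=
    summ_ps _ (k ^ 2) (fun m => CON.lC_bd (k ^ 2) (norm_sq_le hs) _) hx0 hx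
  have hg : Summable fun m => ‖(lC s (a + m) * lC s (b + m)) * (x : ℂ) ^ m‖ :=
    summ_ps2 (fun m => lC s (a + m) * lC s (b + m)) _ (by positivity) (2 * k) (fun m => pr_bd hs a b m) hx0 hx
  rw [tsum_mul_tsum_eq_tsum_sum_antidiagonal_of_summable_norm hf hg]
  refine tsum_congr fun m => ?_
  unfold ec2
  rw [Finset.sum_mul]
  refine Finset.sum_congr rfl fun q hq => ?_
  have h3 : q.1 + q.2 = m := Finset.HasAntidiagonal.mem_antidiagonal.1 hq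
  rw [← h3, pow_add]
  ring

theorem pow_diff2 {x y : ℝ} (hy : 0 ≤ y) (hxy : y ≤ x) (hx : x ≤ 1 / 2) (m : ℕ) :
    x ^ m - y ^ m ≤ 2 * ((m : ℝ) + 1) * (1 / 2) ^ m * (x - y) := by
  have hx0 : 0 ≤ x := hy.trans hxy
  have hxy' : 0 ≤ x - y := sub_nonneg.2 hxy
  rcases m with _ | m
  · simp
    linarith
  · refine (pow_diff hy hxy m).trans ?_
    have h1 : x ^ m ≤ (1 / 2) ^ m := pow_le_pow_left₀ hx0 hx m
    have h2 : 2 * (((m + 1 : ℕ) : ℝ) + 1) * (1 / 2) ^ (m + 1) * (x - y) = ((m : ℝ) + 2) * (1 / 2) ^ m * (x - y) := by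
      push_cast
      rw [pow_succ]
      ring
    rw [h2]
    have h3 : 0 ≤ (1 / 2 : ℝ) ^ m * (x - y) := by positivity
    calc ((m : ℝ) + 1) * x ^ m * (x - y) ≤ ((m : ℝ) + 1) * (1 / 2) ^ m * (x - y) := by gcongr
      _ ≤ _ := by nlinarith

/-- the local factors are Lipschitz -/
theorem E2_lip (k a b : ℕ) : ∃ C : ℝ, 0 ≤ C ∧ ∀ s : ℂ, ‖s‖ ≤ k → ∀ x y : ℝ, 0 ≤ y → y ≤ x → x ≤ 1 / 2 →
    ‖E2 s a b x - E2 s a b y‖ ≤ C * (x - y) := by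
  set J : ℕ := k ^ 2 + 2 * k + 1 with hJ
  set A : ℝ := ((a : ℝ) + 1) ^ k * ((b : ℝ) + 1) ^ k with hA
  have hA0 : 0 ≤ A := by positivity
  have hS : Summable fun m : ℕ => (2 * A) * CON.bb (J + 1) 1 m := (CON.bb_sum (J + 1) 1).mul_left _
  refine ⟨∑' m : ℕ, (2 * A) * CON.bb (J + 1) 1 m, tsum_nonneg fun m => by unfold CON.bb; positivity, ?_⟩
  intro s hs x y hy hxy hx
  have hx0 : 0 ≤ x := hy.trans hxy
  have hxy' : 0 ≤ x - y := sub_nonneg.2 hxy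
  have s1 := summ_ps2 (ec2 s a b) A hA0 J (norm_ec2 s k hs a b) hx0 hx
  have s2 := summ_ps2 (ec2 s a b) A hA0 J (norm_ec2 s k hs a b) hy (hxy.trans hx)
  rw [E2_eq s k hs a b hx0 hx, E2_eq s k hs a b hy (hxy.trans hx), ← s1.of_norm.tsum_sub s2.of_norm]
  have hb : ∀ m : ℕ, ‖ec2 s a b m * (x : ℂ) ^ m - ec2 s a b m * (y : ℂ) ^ m‖ ≤
      (2 * A) * CON.bb (J + 1) 1 m * (x - y) := by
    intro m
    rw [← mul_sub, norm_mul]
    have h2 : ‖(x : ℂ) ^ m - (y : ℂ) ^ m‖ ≤ 2 * ((m : ℝ) + 1) * (1 / 2) ^ m * (x - y) := by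
      rw [← Complex.ofReal_pow, ← Complex.ofReal_pow, ← Complex.ofReal_sub, Complex.norm_real,
        Real.norm_of_nonneg (sub_nonneg.2 (pow_le_pow_left₀ hy hxy _))]
      exact pow_diff2 hy hxy hx m
    have h4 : ((m : ℝ) + 1) ^ (J + 1) ≤ ((m : ℝ) + ((1 : ℕ) : ℝ)) ^ (2 * (J + 1)) := by
      rw [Nat.cast_one]
      exact pow_le_pow_right₀ (by linarith [(Nat.cast_nonneg m : (0:ℝ) ≤ m)]) (by omega)
    unfold CON.bb
    calc ‖ec2 s a b m‖ * ‖(x : ℂ) ^ m - (y : ℂ) ^ m‖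
        ≤ (A * ((m : ℝ) + 1) ^ J) * (2 * ((m : ℝ) + 1) * (1 / 2) ^ m * (x - y)) :=
          mul_le_mul (norm_ec2 s k hs a b m) h2 (norm_nonneg _) (by positivity)
      _ = (2 * A) * (((m : ℝ) + 1) ^ (J + 1) * (1 / 2) ^ m) * (x - y) := by rw [pow_succ]; ring
      _ ≤ _ := by gcongr
  have h5 := tsum_of_norm_bounded (hS.mul_right (x - y)).hasSum hb
  rwa [tsum_mul_right] at h5

theorem E2_bd (k a b : ℕ) : ∃ C : ℝ, 0 ≤ C ∧ ∀ s : ℂ, ‖s‖ ≤ k → ∀ x : ℝ, 0 ≤ x → x ≤ 1 / 2 → ‖E2 s a b x - 1‖ ≤ C := by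
  obtain ⟨C, hC, h⟩ := E2_lip k a b
  refine ⟨C + (((a : ℝ) + 1) ^ k * ((b : ℝ) + 1) ^ k + 1), by positivity, fun s hs x hx0 hx => ?_⟩
  have h1 := h s hs x 0 le_rfl hx0 hx
  have h2 := pr_bd hs a b 0
  rw [E2_at0] at h1
  simp only [add_zero, Nat.cast_zero, zero_add, one_pow, mul_one] at h2
  have h3 : E2 s a b x - 1 = (E2 s a b x - lC s a * lC s b) + (lC s a * lC s b - 1) := by ring
  rw [h3]
  refine (norm_add_le _ _).trans (add_le_add (h1.trans ?_) ((norm_sub_le _ _).trans ?_))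
  · nlinarith
  · rw [norm_one]
    linarith

theorem E2_cont (k a b : ℕ) {x : ℝ} (hx0 : 0 ≤ x) (hx : x ≤ 1 / 2) :
    ContinuousOn (fun s => E2 s a b x) (Metric.closedBall 0 k) := by
  have h1x : (1 : ℂ) - x ≠ 0 := by
    intro h
    have h1 : ((1 - x : ℝ) : ℂ) = 0 := by push_cast; exact h
    have h2 : (1 - x : ℝ) = 0 := by exact_mod_cast h1
    linarith
  unfold E2
  refine ContinuousOn.mul (Continuous.const_cpow (continuous_id.pow 2) (Or.inl h1x)).continuousOn ?_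
  refine continuousOn_tsum (u := fun m => (((a : ℝ) + 1) ^ k * ((b : ℝ) + 1) ^ k) * CON.bb k 1 m) (fun m => ?_)
    ((CON.bb_sum k 1).mul_left _) fun m s hs => ?_
  · exact (((CON.lC_cont _).mul (CON.lC_cont _)).mul continuous_const).continuousOn
  · rw [mem_closedBall_zero_iff] at hs
    rw [norm_mul, norm_pow, Complex.norm_real, Real.norm_of_nonneg hx0]
    unfold CON.bb
    rw [Nat.cast_one]
    calc ‖lC s (a + m) * lC s (b + m)‖ * x ^ m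
        ≤ ((((a : ℝ) + 1) ^ k * ((b : ℝ) + 1) ^ k) * ((m : ℝ) + 1) ^ (2 * k)) * (1 / 2) ^ m :=
          mul_le_mul (pr_bd hs a b m) (pow_le_pow_left₀ hx0 hx m) (by positivity) (by positivity)
      _ = _ := by ring

/-! ### all primes at once -/

theorem inv_mem (p : Nat.Primes) : 0 ≤ ((p : ℕ) : ℝ)⁻¹ ∧ ((p : ℕ) : ℝ)⁻¹ ≤ 1 / 2 := by
  have hp0 : (0 : ℝ) < (p : ℕ) := by exact_mod_cast p.2.pos
  refine ⟨by positivity, ?_⟩
  rw [one_div]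
  apply inv_anti₀ (by norm_num)
  exact_mod_cast p.2.two_le

theorem all_bd (k M : ℕ) (a b : ℕ → ℕ) (hab : ∀ p, M < p → a p = 0 ∧ b p = 0) :
    ∃ C : ℝ, 0 ≤ C ∧ ∀ (p : Nat.Primes) (s : ℂ), ‖s‖ ≤ k →
      (∀ x : ℝ, 0 ≤ x → x ≤ ((p : ℕ) : ℝ)⁻¹ → ‖E2 s (a p) (b p) x - 1‖ ≤ C * (((p : ℕ) : ℝ)⁻¹ * ((p : ℕ) : ℝ)⁻¹)) ∧
      (∀ y : ℝ, 0 ≤ y → y ≤ ((p : ℕ) : ℝ)⁻¹ →
        ‖E2 s (a p) (b p) ((p : ℕ) : ℝ)⁻¹ - E2 s (a p) (b p) y‖ ≤ C * (((p : ℕ) : ℝ)⁻¹ * (((p : ℕ) : ℝ)⁻¹ - y))) := by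
  obtain ⟨C0, hC0, hE⟩ := E_diff k
  choose C1 hC1 hL using fun p : ℕ => E2_lip k (a p) (b p)
  choose C2 hC2 hB using fun p : ℕ => E2_bd k (a p) (b p)
  set S : ℝ := ∑ p ∈ range (M + 1), (C1 p + C2 p) with hS
  have hS0 : 0 ≤ S := Finset.sum_nonneg fun p _ => add_nonneg (hC1 p) (hC2 p)
  refine ⟨C0 + S * ((M : ℝ) + 1) ^ 2, by positivity, fun p s hs => ?_⟩
  have hp0 : (0 : ℝ) < (p : ℕ) := by exact_mod_cast p.2.pos
  have hi := inv_mem p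
  set q : ℝ := ((p : ℕ) : ℝ)⁻¹ with hq
  rcases le_or_gt (p : ℕ) M with hpM | hpM
  · have hle : C1 p + C2 p ≤ S := Finset.single_le_sum (f := fun p => C1 p + C2 p)
      (fun i _ => add_nonneg (hC1 i) (hC2 i)) (Finset.mem_range.2 (by omega))
    have h1 := hC1 p
    have h2 := hC2 p
    have hM1 : 1 ≤ ((M : ℝ) + 1) * q := by
      rw [hq]
      rw [← div_eq_mul_inv, le_div_iff₀ hp0, one_mul]
      have : ((p : ℕ) : ℝ) ≤ M := by exact_mod_cast hpM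
      linarith
    have hM0 : (1 : ℝ) ≤ (M : ℝ) + 1 := by linarith [(Nat.cast_nonneg M : (0:ℝ) ≤ M)]
    have hq2 : 1 ≤ ((M : ℝ) + 1) ^ 2 * (q * q) := by nlinarith
    have hq1 : 1 ≤ ((M : ℝ) + 1) ^ 2 * q := by
      have h3 : ((M : ℝ) + 1) ^ 2 * q = ((M : ℝ) + 1) * (((M : ℝ) + 1) * q) := by ring
      rw [h3]
      nlinarith
    constructor
    · intro x hx0 hx
      refine (hB p s hs x hx0 (hx.trans hi.2)).trans ?_
      have h3 : C2 p ≤ S := by linarith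
      have h4 : 0 ≤ C0 * (q * q) := mul_nonneg hC0 (mul_nonneg hi.1 hi.1)
      calc C2 p ≤ S := h3
        _ ≤ S * (((M : ℝ) + 1) ^ 2 * (q * q)) := le_mul_of_one_le_right hS0 hq2
        _ ≤ _ := by nlinarith
    · intro y hy0 hy
      refine (hL p s hs q y hy0 hy hi.2).trans ?_
      have h3 : C1 p ≤ S := by linarith
      have h5 : 0 ≤ q - y := sub_nonneg.2 hy
      have h4 : 0 ≤ C0 * (q * (q - y)) := mul_nonneg hC0 (mul_nonneg hi.1 h5)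
      calc C1 p * (q - y) ≤ S * (q - y) := mul_le_mul_of_nonneg_right h3 h5
        _ ≤ (S * (((M : ℝ) + 1) ^ 2 * q)) * (q - y) :=
          mul_le_mul_of_nonneg_right (le_mul_of_one_le_right hS0 hq1) h5
        _ ≤ _ := by nlinarith
  · obtain ⟨ha, hb⟩ := hab p hpM
    rw [ha, hb]
    simp only [E2_zz]
    constructor
    · intro x hx0 hx
      have h1 := hE s hs x 0 le_rfl hx0 (hx.trans hi.2)
      rw [E_zero, sub_zero] at h1
      refine h1.trans ?_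
      have h2 : x * x ≤ q * q := mul_le_mul hx hx hx0 hi.1
      have h3 : 0 ≤ S * ((M : ℝ) + 1) ^ 2 * (q * q) := by
        have := hi.1
        positivity
      calc C0 * x * x = C0 * (x * x) := by ring
        _ ≤ C0 * (q * q) := mul_le_mul_of_nonneg_left h2 hC0
        _ ≤ _ := by linarith
    · intro y hy0 hy
      have h1 := hE s hs q y hy0 hy hi.2
      refine h1.trans ?_
      have h5 : 0 ≤ q - y := sub_nonneg.2 hy
      have h3 : 0 ≤ S * ((M : ℝ) + 1) ^ 2 * (q * (q - y)) := by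
        have := hi.1
        positivity
      calc C0 * q * (q - y) = C0 * (q * (q - y)) := by ring
        _ ≤ _ := by linarith

end Pool.Agent.U899.TM
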