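import Pool.Agent.U899.TM.Trunc
import Pool.Agent.N748.MG.CM
import Pool.Agent.N748.MG.MVS
import Pool.Agent.N748.GC.EQ

set_option autoImplicit false

/-! The twisted mean values of the polynomials. -/

namespace Pool.Agent.U899.TM

open Finset Filter MeasureTheory Topology Complex
open Pool.Agent.N748.MG Pool.Agent.N748.MG.L4 Pool.Agent.N748.MG.DIA2
open Pool.Agent.N748.GC (chr)

/-- the coefficients of the shifted polynomial -/
noncomputable def sh (F : Finset ℕ) (a : ℕ → ℂ) (q m : ℕ) : ℂ := if m ∈ F.image (fun n => q * n) then a (m / q) else 0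

theorem sh_val {F : Finset ℕ} (a : ℕ → ℂ) {q : ℕ} (hq : q ≠ 0) {n : ℕ} (hn : n ∈ F) : sh F a q (q * n) = a n := by
  unfold sh
  rw [if_pos (Finset.mem_image_of_mem _ hn), Nat.mul_div_cancel_left n (Nat.pos_of_ne_zero hq)]

theorem sh_sum {E : Type} [AddCommMonoid E] {F F' : Finset ℕ} (a : ℕ → ℂ) {q : ℕ} (hq : q ≠ 0)
    (hF : F.image (fun n => q * n) ⊆ F') (g : ℕ → ℂ → E) (hg : ∀ m, g m 0 = 0) :
    ∑ m ∈ F', g m (sh F a q m) = ∑ n ∈ F, g (q * n) (a n) := by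
  rw [← Finset.sum_subset hF fun m _ hm => by unfold sh; rw [if_neg hm, hg],
    Finset.sum_image fun x _ z _ hxz => inj_mul hq hxz]
  exact Finset.sum_congr rfl fun n hn => by rw [sh_val a hq hn]

theorem chr_eq {h k : ℕ} (hh : h ≠ 0) (hk : k ≠ 0) (δ t : ℝ) : chr h k t =
    ((((h : ℝ) * k) ^ (1 / 2 + δ) : ℝ) : ℂ) * ((h : ℂ) ^ (-(pw δ t)) * (starRingEnd ℂ) ((k : ℂ) ^ (-(pw δ t)))) := by
  rw [MVS.cpow_eq δ t (Nat.one_le_iff_ne_zero.2 hh), MVS.conj_cpow_eq δ t (Nat.one_le_iff_ne_zero.2 hk)]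
  unfold chr MVS.cc
  have h0 : (0 : ℝ) < h := by exact_mod_cast Nat.pos_of_ne_zero hh
  have k0 : (0 : ℝ) < k := by exact_mod_cast Nat.pos_of_ne_zero hk
  have h1 : (((h : ℝ) * k) ^ (1 / 2 + δ)) * ((h : ℝ) ^ (-(1 / 2 + δ)) * (k : ℝ) ^ (-(1 / 2 + δ))) = 1 := by
    rw [← Real.mul_rpow h0.le k0.le, ← Real.rpow_add (by positivity), add_neg_cancel, Real.rpow_zero]
  have h2 : ((((h : ℝ) * k) ^ (1 / 2 + δ) : ℝ) : ℂ) * ((((h : ℝ) ^ (-(1 / 2 + δ)) : ℝ) : ℂ) *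
      (((k : ℝ) ^ (-(1 / 2 + δ)) : ℝ) : ℂ)) = 1 := by
    exact_mod_cast h1
  have h3 : Complex.exp (((Real.log k - Real.log h : ℝ) : ℂ) * Complex.I * t) =
      Complex.exp (-(t * Real.log h : ℝ) * I) * Complex.exp ((t * Real.log k : ℝ) * I) := by
    rw [← Complex.exp_add]
    congr 1
    push_cast
    ring
  rw [h3]
  calc _ = (((((h : ℝ) * k) ^ (1 / 2 + δ) : ℝ) : ℂ) * ((((h : ℝ) ^ (-(1 / 2 + δ)) : ℝ) : ℂ) *
      (((k : ℝ) ^ (-(1 / 2 + δ)) : ℝ) : ℂ))) * (Complex.exp (-(t * Real.log h : ℝ) * I) * Complex.exp ((t * Real.log k : ℝ) * I)) := by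
        rw [h2, one_mul]
    _ = _ := by ring

theorem AS_sh {F' : Finset ℕ} (s : ℂ) (y : ℝ) (K : ℕ) {q : ℕ} (hq : q ≠ 0)
    (hF : (FS y K).image (fun n => q * n) ⊆ F') (w : ℂ) :
    ∑ m ∈ F', sh (FS y K) (dS s) q m * (m : ℂ) ^ (-w) = (q : ℂ) ^ (-w) * AS s y K w := by
  rw [sh_sum (dS s) hq hF (fun m c => c * (m : ℂ) ^ (-w)) fun m => zero_mul _]
  unfold AS
  rw [Finset.mul_sum]
  refine Finset.sum_congr rfl fun n hn => ?_
  push_cast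
  rw [Complex.natCast_mul_natCast_cpow]
  ring

theorem diag_eq {h k : ℕ} (hh : h ≠ 0) (hk : k ≠ 0) (hc : Nat.Coprime h k) (y : ℝ) (K : ℕ) (s : ℂ) {δ : ℝ}
    {F' : Finset ℕ} (hF' : F' = (FS y K).image (fun n => h * n) ∪ (FS y K).image (fun n => k * n)) :
    ∑ m ∈ F', sh (FS y K) (dS s) h m * (starRingEnd ℂ) (sh (FS y K) (dS ((starRingEnd ℂ) s)) k m) *
      (((m:ℝ) ^ (-(1 + 2 * δ)) : ℝ) : ℂ) =
    ((((h : ℝ) * k) ^ (-(1 + 2 * δ)) : ℝ) : ℂ) * ∑ l ∈ GS y K h k, tw h k s δ l := by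
  have hhk : h * k ≠ 0 := mul_ne_zero hh hk
  have himg : (GS y K h k).image (fun l => (h * k) * l) ⊆ F' := by
    intro m hm
    rw [Finset.mem_image] at hm
    obtain ⟨l, hl, rfl⟩ := hm
    unfold GS at hl
    rw [mem_filter] at hl
    rw [hF']
    refine Finset.mem_union_left _ (Finset.mem_image.2 ⟨k * l, hl.2.1, ?_⟩)
    ring
  rw [← Finset.sum_subset himg, Finset.sum_image fun x _ z _ hxz => inj_mul hhk hxz, Finset.mul_sum]
  · refine Finset.sum_congr rfl fun l hl => ?_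
    unfold GS at hl
    rw [mem_filter] at hl
    have e1 : h * k * l = h * (k * l) := by ring
    have e2 : h * k * l = k * (h * l) := by ring
    have e3 : sh (FS y K) (dS s) h (h * k * l) = dS s (k * l) := by rw [e1]; exact sh_val _ hh hl.2.1
    have e4 : sh (FS y K) (dS ((starRingEnd ℂ) s)) k (h * k * l) = dS ((starRingEnd ℂ) s) (h * l) := by
      rw [e2]; exact sh_val _ hk hl.2.2
    rw [e3, e4, CM.conj_dS, Complex.conj_conj]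
    unfold tw
    push_cast
    have e5 : ((((h : ℝ) * k * l) ^ (-(1 + 2 * δ)) : ℝ) : ℂ) = ((((h : ℝ) * k) ^ (-(1 + 2 * δ)) : ℝ) : ℂ) *
        (((l : ℝ) ^ (-(1 + 2 * δ)) : ℝ) : ℂ) := by
      rw [Real.mul_rpow (by positivity) (Nat.cast_nonneg _)]
      push_cast
      ring
    rw [e5]
    ring
  · intro m _ hm
    by_contra hne
    apply hm
    have n1 : sh (FS y K) (dS s) h m ≠ 0 := by
      intro h0
      apply hne
      rw [h0]; simp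
    have n2 : sh (FS y K) (dS ((starRingEnd ℂ) s)) k m ≠ 0 := by
      intro h0
      apply hne
      rw [h0]; simp
    have m1 : m ∈ (FS y K).image (fun n => h * n) := by
      by_contra hcon
      exact n1 (by unfold sh; rw [if_neg hcon])
    have m2 : m ∈ (FS y K).image (fun n => k * n) := by
      by_contra hcon
      exact n2 (by unfold sh; rw [if_neg hcon])
    rw [Finset.mem_image] at m1 m2
    obtain ⟨n, hn, rfl⟩ := m1
    obtain ⟨n', hn', hnn⟩ := m2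
    have hdv : k ∣ h * n := ⟨n', hnn.symm⟩
    obtain ⟨l, rfl⟩ := (hc.symm.dvd_of_dvd_mul_left hdv)
    have hl2 : n' = h * l := by
      have : k * n' = k * (h * l) := by rw [hnn]; ring
      exact inj_mul hk this
    rw [hl2] at hn'
    refine Finset.mem_image.2 ⟨l, ?_, by ring⟩
    unfold GS
    rw [mem_filter]
    refine ⟨?_, hn, hn'⟩
    have h1 := hn
    unfold FS at h1
    rw [mem_filter, mem_range] at h1
    rw [mem_range]
    refine lt_of_le_of_lt ?_ h1.1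
    exact Nat.le_mul_of_pos_left l (Nat.pos_of_ne_zero hk)

theorem mvt (hV : S_MVS) {h k : ℕ} (hh : h ≠ 0) (hk : k ≠ 0) (hc : Nat.Coprime h k) {y : ℝ} {K : ℕ} {M : ℝ}
    (hF : ∀ n ∈ FS y K, 1 ≤ n ∧ (n : ℝ) ≤ M) {δ X : ℝ} (hδ : 0 ≤ δ) (hδ1 : δ ≤ 1 / 2) (hX : 0 ≤ X) (s : ℂ) :
    ‖(∫ t in (0:ℝ)..X, chr h k t * (AS s y K (pw δ t) * (starRingEnd ℂ) (AS ((starRingEnd ℂ) s) y K (pw δ t)))) -
      X * (((((h : ℝ) * k) ^ (-(1 / 2 + δ)) : ℝ) : ℂ) * ∑ l ∈ GS y K h k, tw h k s δ l)‖ ≤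
    ((h : ℝ) * k) * (((h : ℝ) + k) * (4 * M * (∑ n ∈ FS y K, ‖dS s n‖) * (∑ n ∈ FS y K, ‖dS ((starRingEnd ℂ) s) n‖))) := by
  obtain ⟨F', hF'⟩ : ∃ F' : Finset ℕ, F' = (FS y K).image (fun n => h * n) ∪ (FS y K).image (fun n => k * n) := ⟨_, rfl⟩
  have i1 : (FS y K).image (fun n => h * n) ⊆ F' := by rw [hF']; exact Finset.subset_union_left
  have i2 : (FS y K).image (fun n => k * n) ⊆ F' := by rw [hF']; exact Finset.subset_union_right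
  have h0 : (1 : ℝ) ≤ h := by exact_mod_cast Nat.one_le_iff_ne_zero.2 hh
  have k0 : (1 : ℝ) ≤ k := by exact_mod_cast Nat.one_le_iff_ne_zero.2 hk
  have hF2 : ∀ n ∈ F', 1 ≤ n ∧ (n : ℝ) ≤ ((h : ℝ) + k) * M := by
    intro m hm
    rw [hF', Finset.mem_union, Finset.mem_image, Finset.mem_image] at hm
    rcases hm with ⟨n, hn, rfl⟩ | ⟨n, hn, rfl⟩
    · obtain ⟨a1, a2⟩ := hF n hn
      refine ⟨Nat.mul_pos (Nat.pos_of_ne_zero hh) a1, ?_⟩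
      push_cast
      have : (0 : ℝ) ≤ n := Nat.cast_nonneg n
      nlinarith
    · obtain ⟨a1, a2⟩ := hF n hn
      refine ⟨Nat.mul_pos (Nat.pos_of_ne_zero hk) a1, ?_⟩
      push_cast
      have : (0 : ℝ) ≤ n := Nat.cast_nonneg n
      nlinarith
  have key := hV F' (((h : ℝ) + k) * M) (sh (FS y K) (dS s) h) (sh (FS y K) (dS ((starRingEnd ℂ) s)) k) hF2 δ X hδ hX
  rw [diag_eq hh hk hc y K s hF'] at key
  have e1 : ∑ m ∈ F', ‖sh (FS y K) (dS s) h m‖ = ∑ n ∈ FS y K, ‖dS s n‖ :=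
    sh_sum (dS s) hh i1 (fun _ c => ‖c‖) fun _ => norm_zero
  have e2 : ∑ m ∈ F', ‖sh (FS y K) (dS ((starRingEnd ℂ) s)) k m‖ = ∑ n ∈ FS y K, ‖dS ((starRingEnd ℂ) s) n‖ :=
    sh_sum (dS ((starRingEnd ℂ) s)) hk i2 (fun _ c => ‖c‖) fun _ => norm_zero
  rw [e1, e2] at key
  have e3 : ∀ t : ℝ, chr h k t * (AS s y K (pw δ t) * (starRingEnd ℂ) (AS ((starRingEnd ℂ) s) y K (pw δ t))) =
      ((((h : ℝ) * k) ^ (1 / 2 + δ) : ℝ) : ℂ) * ((∑ m ∈ F', sh (FS y K) (dS s) h m * (m : ℂ) ^ (-(pw δ t))) *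
      (starRingEnd ℂ) (∑ m ∈ F', sh (FS y K) (dS ((starRingEnd ℂ) s)) k m * (m : ℂ) ^ (-(pw δ t)))) := by
    intro t
    rw [AS_sh s y K hh i1, AS_sh _ y K hk i2, chr_eq hh hk δ t, map_mul]
    ring
  simp_rw [e3]
  rw [intervalIntegral.integral_const_mul]
  have hhk : 0 < (h : ℝ) * k := by positivity
  have e4 : ((((h : ℝ) * k) ^ (-(1 / 2 + δ)) : ℝ) : ℂ) = ((((h : ℝ) * k) ^ (1 / 2 + δ) : ℝ) : ℂ) *
      ((((h : ℝ) * k) ^ (-(1 + 2 * δ)) : ℝ) : ℂ) := by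
    rw [← Complex.ofReal_mul, ← Real.rpow_add hhk]
    congr 2
    ring
  rw [e4]
  generalize (∫ t in (0:ℝ)..X, (∑ m ∈ F', sh (FS y K) (dS s) h m * (m : ℂ) ^ (-(pw δ t))) *
      (starRingEnd ℂ) (∑ m ∈ F', sh (FS y K) (dS ((starRingEnd ℂ) s)) k m * (m : ℂ) ^ (-(pw δ t)))) = J at key ⊢
  have e5 : ((((h : ℝ) * k) ^ (1 / 2 + δ) : ℝ) : ℂ) * J - X * (((((h : ℝ) * k) ^ (1 / 2 + δ) : ℝ) : ℂ) *
      ((((h : ℝ) * k) ^ (-(1 + 2 * δ)) : ℝ) : ℂ) * ∑ l ∈ GS y K h k, tw h k s δ l) =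
      ((((h : ℝ) * k) ^ (1 / 2 + δ) : ℝ) : ℂ) * (J - X * (((((h : ℝ) * k) ^ (-(1 + 2 * δ)) : ℝ) : ℂ) *
        ∑ l ∈ GS y K h k, tw h k s δ l)) := by ring
  rw [e5, norm_mul, Complex.norm_real, Real.norm_of_nonneg (by positivity)]
  have e6 : ((h : ℝ) * k) ^ (1 / 2 + δ) ≤ (h : ℝ) * k := by
    have h1 : 1 ≤ (h : ℝ) * k := one_le_mul_of_one_le_of_one_le h0 k0
    calc ((h : ℝ) * k) ^ (1 / 2 + δ) ≤ ((h : ℝ) * k) ^ (1 : ℝ) :=
          Real.rpow_le_rpow_of_exponent_le h1 (by linarith)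
      _ = _ := Real.rpow_one _
  refine (mul_le_mul e6 key (norm_nonneg _) hhk.le).trans (le_of_eq ?_)
  ring

end Pool.Agent.U899.TM
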