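import Pool.Agent.N748.MG.DIA2
import Pool.Agent.N748.MG.CONT

set_option autoImplicit false

/-! Coefficients along multiples: multiplicativity. -/

namespace Pool.Agent.U899.TM

open Finset Filter MeasureTheory Topology Complex
open Pool.Agent.N748.MG Pool.Agent.N748.MG.L4 Pool.Agent.N748.MG.DIA2

theorem dS_big (s : ℂ) {n : ℕ} {Q : Finset ℕ} (hQ : n.primeFactors ⊆ Q) :
    dS s n = ∏ p ∈ Q, lC s (n.factorization p) := by
  unfold dS
  refine Finset.prod_subset hQ fun p _ hp => ?_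
  rw [← Nat.support_factorization, Finsupp.notMem_support_iff] at hp
  rw [hp, lC_zero]

theorem lC_ne {s : ℂ} (hs : ∀ i : ℕ, s + (i : ℂ) ≠ 0) (m : ℕ) : lC s m ≠ 0 := by
  unfold lC
  refine Finset.prod_ne_zero_iff.2 fun i _ => div_ne_zero (hs i) ?_
  exact_mod_cast Nat.succ_ne_zero i

theorem dS_ne {s : ℂ} (hs : ∀ i : ℕ, s + (i : ℂ) ≠ 0) (n : ℕ) : dS s n ≠ 0 := by
  unfold dS
  exact Finset.prod_ne_zero_iff.2 fun p _ => lC_ne hs _

theorem dS_ratio (s : ℂ) {k m n : ℕ} (hk : k ≠ 0) (hm : m ≠ 0) (hn : n ≠ 0) (hmn : Nat.Coprime m n) :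
    dS s (k * (m * n)) * dS s k = dS s (k * m) * dS s (k * n) := by
  set Q : Finset ℕ := (k * (m * n)).primeFactors with hQ
  have hne : k * (m * n) ≠ 0 := mul_ne_zero hk (mul_ne_zero hm hn)
  have h1 : k.primeFactors ⊆ Q := Nat.primeFactors_mono (Dvd.intro _ rfl) hne
  have h2 : (k * m).primeFactors ⊆ Q := Nat.primeFactors_mono ⟨n, by ring⟩ hne
  have h3 : (k * n).primeFactors ⊆ Q := Nat.primeFactors_mono ⟨m, by ring⟩ hne
  rw [dS_big s (le_refl Q), dS_big s h1, dS_big s h2, dS_big s h3, ← Finset.prod_mul_distrib, ← Finset.prod_mul_distrib]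
  refine Finset.prod_congr rfl fun p _ => ?_
  rw [Nat.factorization_mul hk (mul_ne_zero hm hn), Nat.factorization_mul hm hn, Nat.factorization_mul hk hm,
    Nat.factorization_mul hk hn]
  simp only [Finsupp.add_apply]
  have h4 : m.factorization p = 0 ∨ n.factorization p = 0 := by
    by_contra hcon
    push Not at hcon
    have h5 : p ∈ m.primeFactors := by rw [← Nat.support_factorization]; exact Finsupp.mem_support_iff.2 hcon.1
    have h6 : p ∈ n.primeFactors := by rw [← Nat.support_factorization]; exact Finsupp.mem_support_iff.2 hcon.2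
    exact (Finset.disjoint_left.1 hmn.disjoint_primeFactors) h5 h6
  rcases h4 with h4 | h4
  · rw [h4]
    simp only [zero_add, add_zero]
    ring
  · rw [h4]
    simp only [add_zero]

theorem dS_mul_pow {s : ℂ} (hs : ∀ i : ℕ, s + (i : ℂ) ≠ 0) {k p : ℕ} (hk : k ≠ 0) (hp : p.Prime) (j : ℕ) :
    dS s (k * p ^ j) / dS s k = lC s (k.factorization p + j) / lC s (k.factorization p) := by
  set Q : Finset ℕ := insert p k.primeFactors with hQ
  have hpj : p ^ j ≠ 0 := pow_ne_zero _ hp.ne_zero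
  have h1 : k.primeFactors ⊆ Q := Finset.subset_insert _ _
  have h2 : (k * p ^ j).primeFactors ⊆ Q := by
    intro q hq
    rw [Nat.primeFactors_mul hk hpj, Finset.mem_union] at hq
    rcases hq with hq | hq
    · exact h1 hq
    · have h3 := Nat.prime_of_mem_primeFactors hq
      have h4 := Nat.dvd_of_mem_primeFactors hq
      have h5 := (Nat.prime_dvd_prime_iff_eq h3 hp).1 (h3.dvd_of_dvd_pow h4)
      rw [h5]
      exact Finset.mem_insert_self _ _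
  rw [dS_big s h1, dS_big s h2, ← Finset.prod_div_distrib]
  rw [← Finset.mul_prod_erase Q _ (Finset.mem_insert_self p _)]
  have h3 : ∏ x ∈ Q.erase p, lC s ((k * p ^ j).factorization x) / lC s (k.factorization x) = 1 := by
    refine Finset.prod_eq_one fun x hx => ?_
    have hxp : x ≠ p := (Finset.mem_erase.1 hx).1
    rw [Nat.factorization_mul hk hpj, Finsupp.add_apply, hp.factorization_pow]
    rw [Finsupp.single_apply, if_neg (Ne.symm hxp), add_zero]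
    exact div_self (lC_ne hs _)
  rw [h3, mul_one, Nat.factorization_mul hk hpj, Finsupp.add_apply, hp.factorization_pow, Finsupp.single_eq_same]

/-- the terms of the twisted diagonal sum -/
noncomputable def tg (h k : ℕ) (s : ℂ) (δ : ℝ) (l : ℕ) : ℂ :=
  dS s (k * l) / dS s k * (dS s (h * l) / dS s h) * (((l:ℝ) ^ (-(1 + 2 * δ)) : ℝ) : ℂ)

theorem tg_zero (h k : ℕ) (s : ℂ) {δ : ℝ} (hδ : 0 < δ) : tg h k s δ 0 = 0 := by
  unfold tg
  rw [Nat.cast_zero, Real.zero_rpow (by linarith)]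
  simp

theorem tg_one (h k : ℕ) {s : ℂ} (hs : ∀ i : ℕ, s + (i : ℂ) ≠ 0) (δ : ℝ) : tg h k s δ 1 = 1 := by
  unfold tg
  rw [mul_one, mul_one, div_self (dS_ne hs _), div_self (dS_ne hs _)]
  simp

theorem tg_mul {h k : ℕ} (hh : h ≠ 0) (hk : k ≠ 0) {s : ℂ} (hs : ∀ i : ℕ, s + (i : ℂ) ≠ 0) {δ : ℝ} (hδ : 0 < δ) {m n : ℕ}
    (hmn : Nat.Coprime m n) : tg h k s δ (m * n) = tg h k s δ m * tg h k s δ n := by
  rcases eq_or_ne m 0 with hm | hm
  · subst hm; rw [zero_mul, tg_zero h k s hδ, zero_mul]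
  rcases eq_or_ne n 0 with hn | hn
  · subst hn; rw [mul_zero, tg_zero h k s hδ, mul_zero]
  have e1 : ∀ q : ℕ, q ≠ 0 → dS s (q * (m * n)) / dS s q = (dS s (q * m) / dS s q) * (dS s (q * n) / dS s q) := by
    intro q hq
    have h1 := dS_ratio s hq hm hn hmn
    have h2 := dS_ne hs q
    rw [div_mul_div_comm, div_eq_div_iff h2 (mul_ne_zero h2 h2), ← h1]
    ring
  unfold tg
  rw [e1 k hk, e1 h hh]
  push_cast
  rw [Real.mul_rpow (Nat.cast_nonneg _) (Nat.cast_nonneg _)]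
  push_cast
  ring

theorem tg_pow {h k : ℕ} (hh : h ≠ 0) (hk : k ≠ 0) {s : ℂ} (hs : ∀ i : ℕ, s + (i : ℂ) ≠ 0) (δ : ℝ) {p : ℕ} (hp : p.Prime) (j : ℕ) :
    tg h k s δ (p ^ j) = lC s (k.factorization p + j) / lC s (k.factorization p) *
      (lC s (h.factorization p + j) / lC s (h.factorization p)) * ((ph (1 + 2 * δ) p : ℝ) : ℂ) ^ j := by
  unfold tg
  rw [dS_mul_pow hs hk hp, dS_mul_pow hs hh hp, ← Complex.ofReal_pow, ← map_pow]
  rfl

theorem tg_summable {h k : ℕ} (hh : h ≠ 0) (hk : k ≠ 0) (s : ℂ) {δ : ℝ} (hδ : 0 < δ) :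
    Summable fun n => ‖tg h k s δ n‖ := by
  obtain ⟨R, hR⟩ := exists_nat_ge ‖s‖
  have h1 := ft_summable s R hR hδ
  have inj : ∀ q : ℕ, q ≠ 0 → Function.Injective fun n : ℕ => q * n := fun q hq a b hab =>
    Nat.eq_of_mul_eq_mul_left (Nat.pos_of_ne_zero hq) hab
  have key : ∀ q : ℕ, q ≠ 0 → Summable fun n : ℕ => ‖dS s (q * n)‖ ^ 2 * (n:ℝ) ^ (-(1 + 2 * δ)) := by
    intro q hq
    have h2 := (h1.comp_injective (inj q hq)).mul_left ((q:ℝ) ^ (1 + 2 * δ))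
    refine h2.congr fun n => ?_
    simp only [Function.comp_apply]
    unfold ft
    rw [norm_mul, norm_pow, Complex.norm_real, Real.norm_of_nonneg (by positivity)]
    push_cast
    rw [Real.mul_rpow (Nat.cast_nonneg _) (Nat.cast_nonneg _)]
    have h3 : (q:ℝ) ^ (1 + 2 * δ) * (q:ℝ) ^ (-(1 + 2 * δ)) = 1 := by
      rw [← Real.rpow_add (by exact_mod_cast Nat.pos_of_ne_zero hq)]
      simp
    calc (q:ℝ) ^ (1 + 2 * δ) * (‖dS s (q * n)‖ ^ 2 * ((q:ℝ) ^ (-(1 + 2 * δ)) * (n:ℝ) ^ (-(1 + 2 * δ)))) =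
        ((q:ℝ) ^ (1 + 2 * δ) * (q:ℝ) ^ (-(1 + 2 * δ))) * (‖dS s (q * n)‖ ^ 2 * (n:ℝ) ^ (-(1 + 2 * δ))) := by ring
      _ = _ := by rw [h3, one_mul]
  have h4 := ((key k hk).add (key h hh)).mul_left (‖(dS s k)⁻¹‖ * ‖(dS s h)⁻¹‖)
  refine Summable.of_nonneg_of_le (fun n => norm_nonneg _) (fun n => ?_) h4
  unfold tg
  rw [norm_mul, norm_mul, norm_div, norm_div, Complex.norm_real, Real.norm_of_nonneg (by positivity), norm_inv, norm_inv]
  have h5 : ‖dS s (k * n)‖ * ‖dS s (h * n)‖ ≤ ‖dS s (k * n)‖ ^ 2 + ‖dS s (h * n)‖ ^ 2 := by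
    nlinarith [sq_nonneg (‖dS s (k * n)‖ - ‖dS s (h * n)‖), sq_nonneg (‖dS s (k * n)‖ + ‖dS s (h * n)‖)]
  have h6 : 0 ≤ (n:ℝ) ^ (-(1 + 2 * δ)) := by positivity
  calc ‖dS s (k * n)‖ / ‖dS s k‖ * (‖dS s (h * n)‖ / ‖dS s h‖) * (n:ℝ) ^ (-(1 + 2 * δ)) =
      ‖dS s k‖⁻¹ * ‖dS s h‖⁻¹ * ((‖dS s (k * n)‖ * ‖dS s (h * n)‖) * (n:ℝ) ^ (-(1 + 2 * δ))) := by
        rw [div_eq_mul_inv, div_eq_mul_inv]; ring
    _ ≤ ‖dS s k‖⁻¹ * ‖dS s h‖⁻¹ * ((‖dS s (k * n)‖ ^ 2 + ‖dS s (h * n)‖ ^ 2) * (n:ℝ) ^ (-(1 + 2 * δ))) := by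
        refine mul_le_mul_of_nonneg_left (mul_le_mul_of_nonneg_right h5 h6) (by positivity)
    _ = _ := by ring

/-- the Euler product -/
theorem tg_euler {h k : ℕ} (hh : h ≠ 0) (hk : k ≠ 0) {s : ℂ} (hs : ∀ i : ℕ, s + (i : ℂ) ≠ 0) {δ : ℝ} (hδ : 0 < δ) :
    HasProd (fun p : Nat.Primes => ∑' j : ℕ, lC s (k.factorization p + j) / lC s (k.factorization p) *
      (lC s (h.factorization p + j) / lC s (h.factorization p)) * ((ph (1 + 2 * δ) (p : ℕ) : ℝ) : ℂ) ^ j)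
      (∑' n : ℕ, tg h k s δ n) := by
  have h1 := EulerProduct.eulerProduct_hasProd (f := tg h k s δ) (tg_one h k hs δ)
    (fun hmn => tg_mul hh hk hs hδ hmn) (tg_summable hh hk s hδ) (tg_zero h k s hδ)
  have h2 : (fun p : Nat.Primes => ∑' m : ℕ, tg h k s δ ((p : ℕ) ^ m)) =
      fun p : Nat.Primes => ∑' j : ℕ, lC s (k.factorization p + j) / lC s (k.factorization p) *
      (lC s (h.factorization p + j) / lC s (h.factorization p)) * ((ph (1 + 2 * δ) (p : ℕ) : ℝ) : ℂ) ^ j := by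
    funext p
    exact tsum_congr fun m => tg_pow hh hk hs δ p.2 m
  rw [← h2]
  exact h1

end Pool.Agent.U899.TM
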