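import Pool.Agent.U899.TM.Trn
import Pool.Agent.N748.OL.CLT

set_option autoImplicit false

/-! The size of zeta on the critical line jointly with the phases of the small primes, in the moment measures near it. -/

namespace Pool.Agent.U899.TM.OLF

open Finset Filter MeasureTheory Topology Complex UnitAddTorus
open Pool.Agent.N748.MG Pool.Agent.N748.MO
open Pool.Agent.N748.OL (GT S_CPR)
open Pool.Agent.N748.OL.CLT (scales le3 zh_cont Phi_lip)
open Pool.Agent.N748.GC (chr lw M0 E0 HP pt)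

theorem bdF {P : Finset ℕ} {F : (P → UnitAddCircle) → ℝ} (hF : Continuous F) : ∃ C : ℝ, 0 ≤ C ∧ ∀ x, |F x| ≤ C := by
  obtain ⟨C, hC⟩ := (isCompact_univ (X := P → UnitAddCircle)).exists_bound_of_continuousOn (f := F) hF.continuousOn
  exact ⟨C, (norm_nonneg _).trans (hC (fun _ => 0) (Set.mem_univ _)), fun x => hC x (Set.mem_univ _)⟩

theorem Fpt_cont {P : Finset ℕ} {F : (P → UnitAddCircle) → ℝ} (hF : Continuous F) : Continuous fun t : ℝ => F (pt P t) :=
  hF.comp (Pool.Agent.N748.GC.ERG.pt_cont P)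

theorem powInt {δ k : ℝ} (h : δ < 1 / 2) (hk : 0 ≤ k) (T : ℝ) : IntegrableOn (fun t => mz δ t ^ (2 * k)) (Set.Icc 0 T) := by
  have hc : Continuous (fun t => mz δ t ^ (2 * k)) :=
    (TMC.zc h).norm.rpow_const fun t => Or.inr (by linarith)
  exact hc.continuousOn.integrableOn_Icc

theorem FpowInt {P : Finset ℕ} {F : (P → UnitAddCircle) → ℝ} (hF : Continuous F) {δ k : ℝ} (h : δ < 1 / 2) (hk : 0 ≤ k)
    (T : ℝ) : IntegrableOn (fun t => F (pt P t) * mz δ t ^ (2 * k)) (Set.Icc 0 T) := by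
  have hc : Continuous (fun t => mz δ t ^ (2 * k)) :=
    (TMC.zc h).norm.rpow_const fun t => Or.inr (by linarith)
  exact ((Fpt_cont hF).mul hc).continuousOn.integrableOn_Icc

theorem mainF (g1 : S_CPR) {P : Finset ℕ} (hP : ∀ p ∈ P, p.Prime) {F : (P → UnitAddCircle) → ℝ} (hF : Continuous F)
    (hF0 : ∀ x, 0 ≤ F x) {c : ℝ} {d : ℝ → ℝ} (hAdc : Adc c d) {k V : ℝ} (hk : 1 ≤ k) (hkV : k < V)
    (hq : Tendsto (fun T : ℝ => Real.log (2 + d T * Real.log T) / Real.sqrt (Real.log (Real.log T))) atTop (𝓝 0)) (x : ℝ) :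
    Tendsto (fun T : ℝ => (2 * d T) ^ (k ^ 2) * ((1 / T) *
      ∫ t in {t : ℝ | t ∈ GT V (d T) T ∧
        Real.log (zh t) ≤ k * Real.log (Real.log T) + x * Real.sqrt (Real.log (Real.log T) / 2)},
          F (pt P t) * mz (d T) t ^ (2 * k))) atTop (𝓝 (akR k * tm k P F * Phi x)) := by
  have hd : Ad d := hAdc.toAd
  obtain ⟨hle, hdl1, hℓ, hrat, hdif⟩ := scales hd hq
  have hL := TMB.lam_tendsto hd
  have hs : Tendsto (fun T : ℝ => Real.sqrt (Real.log (Real.log T) / 2)) atTop atTop :=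
    Real.tendsto_sqrt_atTop.comp (hℓ.atTop_div_const (by norm_num))
  have hσ := TMB.sq_tendsto hd
  have hlt : ∀ᶠ T in atTop, d T < 1 / 2 := hd.t0.eventually_lt_const (by norm_num)
  rw [Metric.tendsto_atTop']
  intro tol htol
  obtain ⟨a, ha⟩ : ∃ a : ℝ, a = akR k * tm k P F := ⟨_, rfl⟩
  rw [← ha]
  obtain ⟨ε, hε⟩ : ∃ ε : ℝ, ε = tol / (8 * (|a| + 1)) := ⟨_, rfl⟩
  have ha1 : 0 < |a| + 1 := by positivity
  have hε0 : 0 < ε := by rw [hε]; positivity
  have hεa : |a| * (2 * ε) ≤ tol / 4 := by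
    have e : (|a| + 1) * (2 * ε) = tol / 4 := by
      rw [hε]
      field_simp
      norm_num
    nlinarith
  -- the exceptional set
  have hE := g1 c d hAdc k V hk (fun T => ε * Real.sqrt (Real.log (Real.log T) / 2)) (by
    have h1 : Tendsto (fun T : ℝ => Real.log (2 + d T * Real.log T) /
        (ε * Real.sqrt (Real.log (Real.log T) / 2))) atTop (𝓝[>] 0) := by
      rw [tendsto_nhdsWithin_iff]
      constructor
      · have h2 := hq.const_mul (Real.sqrt 2 / ε)
        rw [mul_zero] at h2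
        refine h2.congr' ?_
        filter_upwards [hℓ.eventually_gt_atTop 0] with T hT
        rw [Real.sqrt_div hT.le]
        have h7 : 0 < Real.sqrt (Real.log (Real.log T)) := Real.sqrt_pos.2 hT
        have h9 : 0 < Real.sqrt 2 := Real.sqrt_pos.2 (by norm_num)
        field_simp
      · filter_upwards [hdl1, hs.eventually_gt_atTop 0] with T h1 h2
        have h3 : 0 < Real.log (2 + d T * Real.log T) := Real.log_pos (by linarith)
        exact div_pos h3 (mul_pos hε0 h2)
    have h4 := h1.inv_tendsto_nhdsGT_zero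
    refine h4.congr fun T => ?_
    rw [Pi.inv_apply, inv_div])
  obtain ⟨CF, hCF0, hCF⟩ := bdF hF
  have hE : Tendsto (fun T : ℝ => (2 * d T) ^ (k ^ 2) * ((1 / T) *
      ∫ t in {t : ℝ | t ∈ GT V (d T) T ∧
        ε * Real.sqrt (Real.log (Real.log T) / 2) < |Real.log (zh t) - Real.log (mz (d T) t)|},
          F (pt P t) * mz (d T) t ^ (2 * k))) atTop (𝓝 0) := by
    have h0 := hE.const_mul CF
    rw [mul_zero] at h0
    refine squeeze_zero' ?_ ?_ h0
    · filter_upwards [hd.pos, eventually_ge_atTop 1] with T a1 a2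
      have h1 : 0 ≤ ∫ t in {t : ℝ | t ∈ GT V (d T) T ∧
        ε * Real.sqrt (Real.log (Real.log T) / 2) < |Real.log (zh t) - Real.log (mz (d T) t)|},
          F (pt P t) * mz (d T) t ^ (2 * k) :=
        integral_nonneg fun t => mul_nonneg (hF0 _) (Real.rpow_nonneg (norm_nonneg _) _)
      positivity
    · filter_upwards [hd.pos, hlt, eventually_ge_atTop 1] with T a1 a2 a3
      have hmz : Measurable (mz (d T)) := TMC.mz_meas a2
      have hzl : Measurable (fun t => Real.log (zh t)) := Real.measurable_log.comp zh_cont.measurable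
      have hml : Measurable (fun t => Real.log (mz (d T) t)) := Real.measurable_log.comp hmz
      have hsub : {t : ℝ | t ∈ GT V (d T) T ∧
        ε * Real.sqrt (Real.log (Real.log T) / 2) < |Real.log (zh t) - Real.log (mz (d T) t)|} ⊆ Set.Icc 0 T :=
        fun t ht => ht.1.1
      have h1 : ∫ t in {t : ℝ | t ∈ GT V (d T) T ∧
        ε * Real.sqrt (Real.log (Real.log T) / 2) < |Real.log (zh t) - Real.log (mz (d T) t)|},
          F (pt P t) * mz (d T) t ^ (2 * k) ≤ CF * ∫ t in {t : ℝ | t ∈ GT V (d T) T ∧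
        ε * Real.sqrt (Real.log (Real.log T) / 2) < |Real.log (zh t) - Real.log (mz (d T) t)|},
          mz (d T) t ^ (2 * k) := by
        rw [← integral_const_mul]
        refine integral_mono ((FpowInt hF a2 (by linarith) T).mono_set hsub)
          (((powInt a2 (by linarith) T).mono_set hsub).const_mul _) fun t => ?_
        exact mul_le_mul_of_nonneg_right ((le_abs_self _).trans (hCF _)) (Real.rpow_nonneg (norm_nonneg _) _)
      have h2 : 0 ≤ (2 * d T) ^ (k ^ 2) * (1 / T) := by positivity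
      have h3 := mul_le_mul_of_nonneg_left h1 h2
      linarith
  have hU := windowF hP hF hd (by linarith : 0 < k) (x + 2 * ε)
  have hD := windowF hP hF hd (by linarith : 0 < k) (x - 2 * ε)
  rw [show akR k * Phi (x + 2 * ε) * tm k P F = akR k * tm k P F * Phi (x + 2 * ε) by ring, ← ha] at hU
  rw [show akR k * Phi (x - 2 * ε) * tm k P F = akR k * tm k P F * Phi (x - 2 * ε) by ring, ← ha] at hD
  have eE := hE.eventually (Metric.ball_mem_nhds 0 (show 0 < tol / 4 by positivity))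
  have eU := hU.eventually (Metric.ball_mem_nhds _ (show 0 < tol / 4 by positivity))
  have eD := hD.eventually (Metric.ball_mem_nhds _ (show 0 < tol / 4 by positivity))
  -- the inequalities between the scales
  have s1 : ∀ᶠ T : ℝ in atTop, k * ((Real.log (Real.log T) - Real.log (1 / (2 * d T))) /
      Real.sqrt (Real.log (Real.log T) / 2)) ≤ ε / 2 := by
    have := hrat.const_mul k
    rw [mul_zero] at this
    exact this.eventually_le_const (by positivity)
  have s2 : ∀ y : ℝ, ∀ᶠ T : ℝ in atTop, |y * (Real.sqrt (Real.log (Real.log T) / 2) -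
      Real.sqrt (Real.log (1 / (2 * d T)) / 2))| ≤ ε / 2 := by
    intro y
    have := (hdif.const_mul y).abs
    rw [mul_zero, abs_zero] at this
    exact this.eventually_le_const (by positivity)
  have s3 : ∀ᶠ T : ℝ in atTop, x - 2 * ε ≤
      2 * (V - k) * Real.sqrt (Real.log (1 / (2 * d T)) / 2) :=
    (hσ.const_mul_atTop (show 0 < 2 * (V - k) by linarith)).eventually_ge_atTop _
  have fin : ∀ᶠ T : ℝ in atTop, dist ((2 * d T) ^ (k ^ 2) * ((1 / T) *
    ∫ t in {t : ℝ | t ∈ GT V (d T) T ∧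
      Real.log (zh t) ≤ k * Real.log (Real.log T) + x * Real.sqrt (Real.log (Real.log T) / 2)},
        F (pt P t) * mz (d T) t ^ (2 * k))) (a * Phi x) < tol := by
    filter_upwards [eE, eU, eD, s1, s2 (x + 2 * ε), s2 (x - 2 * ε), s3, hle, hlt, hd.pos,
      eventually_ge_atTop 1, hs.eventually_ge_atTop 1, hL.eventually_ge_atTop 0] with
      T eE eU eD s1 s2 s2' s3 hle hlt hpos hT1 hs1 hL0
    obtain ⟨ℓ, hℓd⟩ : ∃ ℓ : ℝ, ℓ = Real.log (Real.log T) := ⟨_, rfl⟩
    obtain ⟨L, hLd⟩ : ∃ L : ℝ, L = Real.log (1 / (2 * d T)) := ⟨_, rfl⟩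
    obtain ⟨s, hsd⟩ : ∃ s : ℝ, s = Real.sqrt (Real.log (Real.log T) / 2) := ⟨_, rfl⟩
    obtain ⟨σ, hσd⟩ : ∃ σ : ℝ, σ = Real.sqrt (Real.log (1 / (2 * d T)) / 2) := ⟨_, rfl⟩
    rw [← hsd] at s1 s2 s2' eE hs1
    rw [← hσd] at s2 s2' s3 eU eD
    rw [← hℓd] at hle s1
    rw [← hLd] at s1 hle hL0
    rw [← hsd, ← hℓd]
    have hσ2 : σ ^ 2 = L / 2 := by
      rw [hσd, ← hLd]
      exact Real.sq_sqrt (by linarith)
    have hσ0 : 0 ≤ σ := by rw [hσd]; exact Real.sqrt_nonneg _
    have hs0 : 0 < s := by linarith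
    have b1 : k * (ℓ - L) ≤ ε / 2 * s := by
      rw [← mul_div_assoc, div_le_iff₀ hs0] at s1
      exact s1
    have b2 := (abs_le.1 s2)
    have b3 := (abs_le.1 s2')
    have b4 : ε / 2 ≤ ε / 2 * s := le_mul_of_one_le_right (by positivity) hs1
    have b5 : 0 ≤ k * (ℓ - L) := mul_nonneg (by linarith) (by linarith)
    -- upper inequality
    have up : k * ℓ + x * s + ε * s ≤ k * L + (x + 2 * ε) * σ := by
      nlinarith [b2.2]
    -- lower inequality
    have lo : k * L + (x - 2 * ε) * σ + ε * s ≤ k * ℓ + x * s := by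
      nlinarith [b3.1]
    have lev : k * L + (x - 2 * ε) * σ ≤ V * L := by
      have : (x - 2 * ε) * σ ≤ 2 * (V - k) * σ * σ := mul_le_mul_of_nonneg_right s3 hσ0
      nlinarith
    -- the sets
    obtain ⟨f, hf⟩ : ∃ f : ℝ → ℝ, f = fun t => F (pt P t) * mz (d T) t ^ (2 * k) := ⟨_, rfl⟩
    obtain ⟨A, hA⟩ : ∃ A : Set ℝ, A = {t : ℝ | t ∈ GT V (d T) T ∧ Real.log (zh t) ≤ k * ℓ + x * s} :=
      ⟨_, rfl⟩
    obtain ⟨E, hEd⟩ : ∃ E : Set ℝ, E = {t : ℝ | t ∈ GT V (d T) T ∧
        ε * s < |Real.log (zh t) - Real.log (mz (d T) t)|} := ⟨_, rfl⟩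
    obtain ⟨B, hB⟩ : ∃ B : ℝ → Set ℝ, B = fun y => {t : ℝ | t ∈ Set.Icc 0 T ∧
        mz (d T) t ≤ (2 * d T) ^ (-k) * Real.exp (y * σ)} := ⟨_, rfl⟩
    have hmz : Measurable (mz (d T)) := TMC.mz_meas hlt
    have hzl : Measurable (fun t => Real.log (zh t)) := Real.measurable_log.comp zh_cont.measurable
    have hml : Measurable (fun t => Real.log (mz (d T) t)) := Real.measurable_log.comp hmz
    have hGm : MeasurableSet (GT V (d T) T) :=
      measurableSet_Icc.inter (measurableSet_le hmz measurable_const)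
    have hAm : MeasurableSet A := by
      rw [hA]
      exact hGm.inter (measurableSet_le hzl measurable_const)
    have hEm : MeasurableSet E := by
      rw [hEd]
      exact hGm.inter (measurableSet_lt measurable_const (hzl.sub hml).abs)
    have hBm : ∀ y, MeasurableSet (B y) := by
      intro y
      rw [hB]
      exact measurableSet_Icc.inter (measurableSet_le hmz measurable_const)
    have hAs : A ⊆ Set.Icc 0 T := by rw [hA]; exact fun t ht => ht.1.1
    have hEs : E ⊆ Set.Icc 0 T := by rw [hEd]; exact fun t ht => ht.1.1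
    have hBs : ∀ y, B y ⊆ Set.Icc 0 T := by intro y; rw [hB]; exact fun t ht => ht.1
    have hf0 : ∀ t, 0 ≤ f t := by
      intro t
      rw [hf]
      exact mul_nonneg (hF0 _) (Real.rpow_nonneg (norm_nonneg _) _)
    have hfi : IntegrableOn f (Set.Icc 0 T) := by
      rw [hf]
      exact FpowInt hF hlt (by linarith) T
    have hBeq : ∀ y t, mz (d T) t ≠ 0 → (mz (d T) t ≤ (2 * d T) ^ (-k) * Real.exp (y * σ) ↔
        Real.log (mz (d T) t) ≤ k * L + y * σ) := by
      intro y t ht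
      have ht' : 0 < mz (d T) t := lt_of_le_of_ne (norm_nonneg _) (Ne.symm ht)
      rw [TMC.level hpos, ← hLd, ← Real.exp_add, Real.log_le_iff_le_exp ht']
    have hGeq : ∀ t, mz (d T) t ≠ 0 → (mz (d T) t ≤ (2 * d T) ^ (-V) ↔
        Real.log (mz (d T) t) ≤ V * L) := by
      intro t ht
      have ht' : 0 < mz (d T) t := lt_of_le_of_ne (norm_nonneg _) (Ne.symm ht)
      rw [TMC.level hpos, ← hLd, Real.log_le_iff_le_exp ht']
    have i1 : ∫ t in A, f t ≤ (∫ t in E, f t) + ∫ t in B (x + 2 * ε), f t := by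
      refine le3 hf0 hfi hEm (hBm _) hEs (hBs _) ?_
      filter_upwards [TMC.ae_ne hlt] with t ht h1
      rw [hA] at h1
      obtain ⟨h2, h3⟩ := h1
      by_cases h4 : ε * s < |Real.log (zh t) - Real.log (mz (d T) t)|
      · left
        rw [hEd]
        exact ⟨h2, h4⟩
      · right
        rw [hB]
        refine ⟨h2.1, (hBeq _ t ht).2 ?_⟩
        have h5 := (abs_le.1 (not_lt.1 h4)).1
        linarith
    have i2 : ∫ t in B (x - 2 * ε), f t ≤ (∫ t in E, f t) + ∫ t in A, f t := by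
      refine le3 hf0 hfi hEm hAm hEs hAs ?_
      filter_upwards [TMC.ae_ne hlt] with t ht h1
      rw [hB] at h1
      obtain ⟨h2, h3⟩ := h1
      have h3' := (hBeq _ t ht).1 h3
      have h6 : t ∈ GT V (d T) T := ⟨h2, (hGeq t ht).2 (h3'.trans lev)⟩
      by_cases h4 : ε * s < |Real.log (zh t) - Real.log (mz (d T) t)|
      · left
        rw [hEd]
        exact ⟨h6, h4⟩
      · right
        rw [hA]
        refine ⟨h6, ?_⟩
        have h5 := (abs_le.1 (not_lt.1 h4)).2
        linarith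
    -- normalisation
    obtain ⟨w, hw⟩ : ∃ w : ℝ, w = (2 * d T) ^ (k ^ 2) * (1 / T) := ⟨_, rfl⟩
    have hw0 : 0 ≤ w := by
      rw [hw]
      positivity
    have hML : ∀ y, (2 * d T) ^ (k ^ 2) * ((1 / T) * ∫ t in {t : ℝ | t ∈ Set.Icc 0 T ∧
        mz (d T) t ≤ (2 * d T) ^ (-k) * Real.exp (y * σ)}, F (pt P t) * mz (d T) t ^ (2 * k)) =
        w * ∫ t in B y, f t := by
      intro y
      rw [hw, hB, hf]
      ring
    rw [hML] at eU eD
    have hEe : (2 * d T) ^ (k ^ 2) * ((1 / T) * ∫ t in {t : ℝ | t ∈ GT V (d T) T ∧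
        ε * s < |Real.log (zh t) - Real.log (mz (d T) t)|}, F (pt P t) * mz (d T) t ^ (2 * k)) =
        w * ∫ t in E, f t := by
      rw [hw, hEd, hf]
      ring
    rw [hEe] at eE
    have hAe : (2 * d T) ^ (k ^ 2) * ((1 / T) * ∫ t in {t : ℝ | t ∈ GT V (d T) T ∧
        Real.log (zh t) ≤ k * ℓ + x * s}, F (pt P t) * mz (d T) t ^ (2 * k)) = w * ∫ t in A, f t := by
      rw [hw, hA, hf]
      ring
    rw [hAe]
    rw [Real.dist_eq] at eE eU eD
    rw [sub_zero] at eE
    have j1 := mul_le_mul_of_nonneg_left i1 hw0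
    have j2 := mul_le_mul_of_nonneg_left i2 hw0
    rw [mul_add] at j1 j2
    have p1 : |a * Phi (x + 2 * ε) - a * Phi x| ≤ tol / 4 := by
      rw [← mul_sub, abs_mul]
      refine le_trans (mul_le_mul_of_nonneg_left (Phi_lip x (x + 2 * ε)) (abs_nonneg a)) ?_
      rw [show x + 2 * ε - x = 2 * ε by ring, abs_of_pos (by linarith : 0 < 2 * ε)]
      exact hεa
    have p2 : |a * Phi (x - 2 * ε) - a * Phi x| ≤ tol / 4 := by
      rw [← mul_sub, abs_mul]
      refine le_trans (mul_le_mul_of_nonneg_left (Phi_lip x (x - 2 * ε)) (abs_nonneg a)) ?_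
      rw [show x - 2 * ε - x = -(2 * ε) by ring, abs_neg, abs_of_pos (by linarith : 0 < 2 * ε)]
      exact hεa
    rw [Real.dist_eq, abs_lt]
    obtain ⟨q1, q2⟩ := abs_lt.1 eE
    obtain ⟨q3, q4⟩ := abs_lt.1 eU
    obtain ⟨q5, q6⟩ := abs_lt.1 eD
    obtain ⟨q7, q8⟩ := abs_le.1 p1
    obtain ⟨q9, q10⟩ := abs_le.1 p2
    constructor <;> linarith
  obtain ⟨M, hM⟩ := eventually_atTop.1 fin
  exact ⟨M, fun T hT => hM T (le_of_lt hT)⟩


/-- the joint law -/
theorem main (g1 : S_CPR) {P : Finset ℕ} (hP : ∀ p ∈ P, p.Prime) {F : (P → UnitAddCircle) → ℝ} (hF : Continuous F)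
    {c : ℝ} {d : ℝ → ℝ} (hAdc : Adc c d) {k V : ℝ} (hk : 1 ≤ k) (hkV : k < V)
    (hq : Tendsto (fun T : ℝ => Real.log (2 + d T * Real.log T) / Real.sqrt (Real.log (Real.log T))) atTop (𝓝 0)) (x : ℝ) :
    Tendsto (fun T : ℝ => (2 * d T) ^ (k ^ 2) * ((1 / T) *
      ∫ t in {t : ℝ | t ∈ GT V (d T) T ∧
        Real.log (zh t) ≤ k * Real.log (Real.log T) + x * Real.sqrt (Real.log (Real.log T) / 2)},
          F (pt P t) * mz (d T) t ^ (2 * k))) atTop (𝓝 (akR k * tm k P F * Phi x)) := by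
  obtain ⟨C, hC0, hC⟩ := bdF hF
  have h1 := mainF g1 hP (F := fun y => F y + C) (hF.add continuous_const)
    (fun y => by linarith [(abs_le.1 (hC y)).1]) hAdc hk hkV hq x
  have h2 := mainF g1 hP (F := fun _ => 1) continuous_const (fun _ => zero_le_one) hAdc hk hkV hq x
  have e1 : tm k P (fun y => F y + C) = tm k P F + C := by
    have i1 : Integrable (fun y : P → UnitAddCircle => F y * M0 k P y) (HP P) := by
      have hc : Continuous fun y : P → UnitAddCircle => F y * M0 k P y :=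
        hF.mul (Pool.Agent.N748.GC.RZ.M0_cont k P hP)
      exact hc.integrable_of_hasCompactSupport (HasCompactSupport.of_compactSpace _)
    have i2 : Integrable (fun y : P → UnitAddCircle => M0 k P y) (HP P) :=
      (Pool.Agent.N748.GC.RZ.M0_cont k P hP).integrable_of_hasCompactSupport (HasCompactSupport.of_compactSpace _)
    have e2 : tm k P (fun y => F y + C) = ∫ y, (F y * M0 k P y + C * M0 k P y) ∂(HP P) := by
      unfold tm
      refine integral_congr_ae (ae_of_all _ fun y => ?_)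
      simp only
      ring
    have e3 : ∫ y, M0 k P y ∂(HP P) = 1 := Pool.Agent.N748.GC.RZ.M0_int k P hP
    rw [e2, integral_add i1 (i2.const_mul C), integral_const_mul, e3, mul_one]
    rfl
  rw [e1] at h1
  rw [tm_one k hP] at h2
  have h3 := h1.sub (h2.const_mul C)
  have e4 : akR k * (tm k P F + C) * Phi x - C * (akR k * 1 * Phi x) = akR k * tm k P F * Phi x := by ring
  rw [e4] at h3
  refine h3.congr' ?_
  have hlt : ∀ᶠ T in atTop, d T < 1 / 2 := hAdc.toAd.t0.eventually_lt_const (by norm_num)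
  filter_upwards [hlt] with T a2
  have hsub : {t : ℝ | t ∈ GT V (d T) T ∧
        Real.log (zh t) ≤ k * Real.log (Real.log T) + x * Real.sqrt (Real.log (Real.log T) / 2)} ⊆ Set.Icc 0 T :=
    fun t ht => ht.1.1
  have j1 := (FpowInt (P := P) hF a2 (by linarith : 0 ≤ k) T).mono_set hsub
  have j2 := (powInt a2 (by linarith : 0 ≤ k) T).mono_set hsub
  have e5 : ∫ t in {t : ℝ | t ∈ GT V (d T) T ∧
        Real.log (zh t) ≤ k * Real.log (Real.log T) + x * Real.sqrt (Real.log (Real.log T) / 2)},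
          (F (pt P t) + C) * mz (d T) t ^ (2 * k) = (∫ t in {t : ℝ | t ∈ GT V (d T) T ∧
        Real.log (zh t) ≤ k * Real.log (Real.log T) + x * Real.sqrt (Real.log (Real.log T) / 2)},
          F (pt P t) * mz (d T) t ^ (2 * k)) + C * ∫ t in {t : ℝ | t ∈ GT V (d T) T ∧
        Real.log (zh t) ≤ k * Real.log (Real.log T) + x * Real.sqrt (Real.log (Real.log T) / 2)},
          mz (d T) t ^ (2 * k) := by
    rw [← integral_const_mul, ← integral_add j1 (j2.const_mul C)]
    refine integral_congr_ae (ae_of_all _ fun t => ?_)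
    simp only
    ring
  rw [e5]
  simp only [one_mul]
  ring

/-- the normal distribution function is strictly increasing -/
theorem Phi_lt {x y : ℝ} (h : x < y) : 0 < Phi y - Phi x := by
  unfold Phi
  have h1 : Set.Iic y \ Set.Iic x = Set.Ioc x y := by
    ext z
    simp only [Set.mem_sdiff, Set.mem_Iic, Set.mem_Ioc, not_le]
    exact and_comm
  have h2 : ProbabilityTheory.gaussianReal 0 1 (Set.Ioc x y) =
      ProbabilityTheory.gaussianReal 0 1 (Set.Iic y) - ProbabilityTheory.gaussianReal 0 1 (Set.Iic x) := by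
    rw [← h1, measure_sdiff (Set.Iic_subset_Iic.2 h.le) measurableSet_Iic.nullMeasurableSet (measure_ne_top _ _)]
  have h3 : (ProbabilityTheory.gaussianReal 0 1 (Set.Ioc x y)).toReal =
      (ProbabilityTheory.gaussianReal 0 1 (Set.Iic y)).toReal - (ProbabilityTheory.gaussianReal 0 1 (Set.Iic x)).toReal := by
    rw [h2, ENNReal.toReal_sub_of_le (measure_mono (Set.Iic_subset_Iic.2 h.le)) (measure_ne_top _ _)]
  rw [← h3, ENNReal.toReal_pos_iff]
  refine ⟨?_, measure_lt_top _ _⟩
  rw [pos_iff_ne_zero]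
  intro h4
  have h5 := ProbabilityTheory.gaussianReal_absolutelyContinuous' 0 one_ne_zero h4
  rw [Real.volume_Ioc, ENNReal.ofReal_eq_zero] at h5
  linarith

/-- between two levels -/
theorem between (g1 : S_CPR) {P : Finset ℕ} (hP : ∀ p ∈ P, p.Prime) {F : (P → UnitAddCircle) → ℝ} (hF : Continuous F)
    {c : ℝ} {d : ℝ → ℝ} (hAdc : Adc c d) {k V : ℝ} (hk : 1 ≤ k) (hkV : k < V)
    (hq : Tendsto (fun T : ℝ => Real.log (2 + d T * Real.log T) / Real.sqrt (Real.log (Real.log T))) atTop (𝓝 0))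
    {x y : ℝ} (hxy : x < y) :
    Tendsto (fun T : ℝ => (2 * d T) ^ (k ^ 2) * ((1 / T) *
      ∫ t in {t : ℝ | t ∈ GT V (d T) T ∧
        (k * Real.log (Real.log T) + x * Real.sqrt (Real.log (Real.log T) / 2) < Real.log (zh t) ∧
        Real.log (zh t) ≤ k * Real.log (Real.log T) + y * Real.sqrt (Real.log (Real.log T) / 2))},
          F (pt P t) * mz (d T) t ^ (2 * k))) atTop (𝓝 (akR k * (Phi y - Phi x) * tm k P F)) := by
  have h1 := (main g1 hP hF hAdc hk hkV hq y).sub (main g1 hP hF hAdc hk hkV hq x)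
  have e4 : akR k * tm k P F * Phi y - akR k * tm k P F * Phi x = akR k * (Phi y - Phi x) * tm k P F := by ring
  rw [e4] at h1
  refine h1.congr' ?_
  have hlt : ∀ᶠ T in atTop, d T < 1 / 2 := hAdc.toAd.t0.eventually_lt_const (by norm_num)
  filter_upwards [hlt, eventually_ge_atTop 0] with T a2 a3
  obtain ⟨S, hS⟩ : ∃ S : ℝ → Set ℝ, S = fun x => {t : ℝ | t ∈ GT V (d T) T ∧
        Real.log (zh t) ≤ k * Real.log (Real.log T) + x * Real.sqrt (Real.log (Real.log T) / 2)} := ⟨_, rfl⟩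
  have hs0 : 0 ≤ Real.sqrt (Real.log (Real.log T) / 2) := Real.sqrt_nonneg _
  have hsub : S x ⊆ S y := by
    rw [hS]
    rintro t ⟨h2, h3⟩
    refine ⟨h2, h3.trans ?_⟩
    nlinarith
  have hmz : Measurable (mz (d T)) := TMC.mz_meas a2
  have hzl : Measurable (fun t => Real.log (zh t)) := Real.measurable_log.comp zh_cont.measurable
  have hSm : MeasurableSet (S x) := by
    rw [hS]
    exact (measurableSet_Icc.inter (measurableSet_le hmz measurable_const)).inter (measurableSet_le hzl measurable_const)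
  have hI : IntegrableOn (fun t => F (pt P t) * mz (d T) t ^ (2 * k)) (S y) := by
    refine (FpowInt (P := P) hF a2 (by linarith : 0 ≤ k) T).mono_set ?_
    rw [hS]
    exact fun t ht => ht.1.1
  have h5 := setIntegral_sdiff hSm hI hsub
  have e6 : {t : ℝ | t ∈ GT V (d T) T ∧
        (k * Real.log (Real.log T) + x * Real.sqrt (Real.log (Real.log T) / 2) < Real.log (zh t) ∧
        Real.log (zh t) ≤ k * Real.log (Real.log T) + y * Real.sqrt (Real.log (Real.log T) / 2))} = S y \ S x := by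
    rw [hS]
    ext t
    simp only [Set.mem_ofPred_eq, Set.mem_sdiff, not_and, not_le]
    constructor
    · rintro ⟨h6, h7, h8⟩
      exact ⟨⟨h6, h8⟩, fun _ => h7⟩
    · rintro ⟨⟨h6, h7⟩, h8⟩
      exact ⟨h6, h8 h6, h7⟩
  rw [e6, h5, hS]
  ring

end Pool.Agent.U899.TM.OLF
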