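import Pool.Agent.U899.TM.TCM
import Pool.Agent.U899.TW.Id

set_option autoImplicit false

/-! The twisted arithmetic factor and the local densities. -/

namespace Pool.Agent.U899.TM

open Finset Filter MeasureTheory Topology Complex UnitAddTorus
open Pool.Agent.N748.MG Pool.Agent.N748.MG.L4 Pool.Agent.N748.MG.DIA2
open Pool.Agent.N748.GC (lw M0 E0 HP pt)
open Pool.Agent.U899.TW (q)

/-- the local sums -/
noncomputable def SS (V : ℝ) (p : ℕ) (e : ℤ) : ℂ :=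
  ∑' m : ℕ, lC V ((-e).toNat + m) * lC V (e.toNat + m) * (((p : ℝ)⁻¹ : ℝ) : ℂ) ^ m

theorem conj_lCR (V : ℝ) (m : ℕ) : (starRingEnd ℂ) (lC V m) = lC V m := by
  rw [CON.lC_ofReal, Complex.conj_ofReal]

theorem rt_lt {p : ℕ} (hp : p.Prime) : 0 < (p : ℝ) ^ (-(1 / 2 : ℝ)) ∧ (p : ℝ) ^ (-(1 / 2 : ℝ)) < 1 := by
  have hp0 : (0 : ℝ) < p := by exact_mod_cast hp.pos
  exact ⟨by positivity, Real.rpow_lt_one_of_one_lt_of_neg (by exact_mod_cast hp.one_lt) (by norm_num)⟩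

theorem four_norm (y : UnitAddCircle) : ‖(fourier 1 y : ℂ)‖ = 1 := by
  rw [fourier_one]; exact Circle.norm_coe _

/-- the square root of the density -/
noncomputable def AA (V : ℝ) (x : ℝ) (y : UnitAddCircle) : ℂ := 1 / (1 - (fourier 1 y : ℂ) * (x : ℂ)) ^ (V : ℂ)

theorem AA_hasSum (V : ℝ) {x : ℝ} (hx0 : 0 ≤ x) (hx1 : x < 1) (y : UnitAddCircle) :
    HasSum (fun m => lC V m * ((fourier 1 y : ℂ) * (x : ℂ)) ^ m) (AA V x y) := by
  refine hasSum_lC (V : ℂ) _ ?_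
  rw [norm_mul, four_norm, one_mul, Complex.norm_real, Real.norm_of_nonneg hx0]
  exact hx1

theorem AA_sq (V : ℝ) {p : ℕ} (hp : p.Prime) (y : UnitAddCircle) :
    ((Real.exp (lw V p y) : ℝ) : ℂ) = AA V ((p : ℝ) ^ (-(1 / 2 : ℝ))) y *
      (starRingEnd ℂ) (AA V ((p : ℝ) ^ (-(1 / 2 : ℝ))) y) := by
  have hpos := Pool.Agent.N748.GC.RZ.norm_pos' hp y
  rw [Complex.mul_conj, Complex.normSq_eq_norm_sq]
  congr 1
  unfold AA lw
  set z : ℂ := 1 - (fourier 1 y : ℂ) * (((p : ℝ) ^ (-(1 / 2 : ℝ)) : ℝ) : ℂ) with hz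
  have hz0 : z ≠ 0 := norm_pos_iff.1 hpos
  rw [norm_div, norm_one, Complex.norm_cpow_real, one_div, ← Real.rpow_neg hpos.le, ← Real.rpow_natCast,
    ← Real.rpow_mul hpos.le, Real.rpow_def_of_pos hpos]
  congr 1
  push_cast
  ring

theorem four_pow (y : UnitAddCircle) (m : ℕ) : (fourier 1 y : ℂ) ^ m = (fourier (m : ℤ) y : ℂ) := by
  induction m with
  | zero => simp
  | succ m ih =>
    rw [pow_succ, ih, ← fourier_add]
    push_cast
    rfl

theorem four_conj_pow (y : UnitAddCircle) (m : ℕ) : ((starRingEnd ℂ) (fourier 1 y : ℂ)) ^ m = (fourier (-(m : ℤ)) y : ℂ) := by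
  rw [← map_pow, four_pow, ← fourier_neg]

theorem term_eq (V : ℝ) (x : ℝ) (y : UnitAddCircle) (e : ℤ) (a b : ℕ) :
    (fourier e y : ℂ) * ((lC V a * ((fourier 1 y : ℂ) * (x : ℂ)) ^ a) *
      (starRingEnd ℂ) (lC V b * ((fourier 1 y : ℂ) * (x : ℂ)) ^ b)) =
    (lC V a * lC V b * (x : ℂ) ^ (a + b)) * (fourier (e + a - b) y : ℂ) := by
  rw [map_mul, conj_lCR, map_pow, map_mul, Complex.conj_ofReal, mul_pow, mul_pow, four_pow, four_conj_pow]
  have h1 : (fourier (e + a - b) y : ℂ) = (fourier e y : ℂ) * (fourier (a : ℤ) y : ℂ) * (fourier (-(b : ℤ)) y : ℂ) := by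
    rw [← fourier_add, ← fourier_add]
    congr 1
  rw [h1, pow_add]
  ring

theorem nsum (V : ℝ) {x : ℝ} (hx0 : 0 ≤ x) (hx1 : x < 1) : Summable fun m => ‖lC V m‖ * x ^ m := by
  obtain ⟨k, hk⟩ := exists_nat_ge ‖(V : ℂ)‖
  have h1 : Summable fun m : ℕ => (m : ℝ) ^ k * x ^ m :=
    summable_pow_mul_geometric_of_norm_lt_one k (by rwa [Real.norm_of_nonneg hx0])
  have h2 := ((summable_nat_add_iff 1).2 h1)
  rcases hx0.eq_or_lt with h0 | h0
  · rw [← h0]
    refine summable_of_ne_finset_zero (s := {0}) fun m hm => ?_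
    rw [zero_pow (by simpa using hm), mul_zero]
  · have h3 := h2.mul_left x⁻¹
    refine Summable.of_nonneg_of_le (fun m => by positivity) (fun m => ?_) h3
    have h4 := CON.lC_bd k hk m
    push_cast
    calc ‖lC V m‖ * x ^ m ≤ ((m : ℝ) + 1) ^ k * x ^ m := mul_le_mul_of_nonneg_right h4 (by positivity)
      _ = x⁻¹ * (((m : ℝ) + 1) ^ k * x ^ (m + 1)) := by
        rw [pow_succ]
        field_simp

theorem dbl {f g : ℕ → ℂ} {A B : ℂ} (hf : HasSum f A) (hg : HasSum g B) (nf : Summable fun m => ‖f m‖)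
    (ng : Summable fun m => ‖g m‖) : HasSum (fun ab : ℕ × ℕ => f ab.1 * g ab.2) (A * B) := by
  have h1 : Summable fun ab : ℕ × ℕ => f ab.1 * g ab.2 := summable_mul_of_summable_norm (f := f) (g := g) nf ng
  exact hf.mul hg h1

theorem q_eq (V : ℝ) {p : ℕ} (hp : p.Prime) (e : ℤ) :
    q V p e = ((((p : ℝ) ^ (-(1 / 2 : ℝ))) ^ ((-e).toNat + e.toNat) : ℝ) : ℂ) * SS V p e := by
  obtain ⟨x, hxd⟩ : ∃ x : ℝ, x = (p : ℝ) ^ (-(1 / 2 : ℝ)) := ⟨_, rfl⟩
  obtain ⟨hx0, hx1⟩ : 0 < x ∧ x < 1 := by rw [hxd]; exact rt_lt hp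
  have hns := nsum V hx0.le hx1
  -- the double series
  have hF : ∀ y : UnitAddCircle, HasSum (fun ab : ℕ × ℕ => (lC V ab.1 * lC V ab.2 * (x : ℂ) ^ (ab.1 + ab.2)) *
      (fourier (e + ab.1 - ab.2) y : ℂ)) ((fourier e y : ℂ) * ((Real.exp (lw V p y) : ℝ) : ℂ)) := by
    intro y
    have s1 := AA_hasSum V hx0.le hx1 y
    have n1 : Summable fun m => ‖lC V m * ((fourier 1 y : ℂ) * (x : ℂ)) ^ m‖ := by
      refine hns.congr fun m => ?_
      rw [norm_mul, norm_pow, norm_mul, four_norm, one_mul, Complex.norm_real, Real.norm_of_nonneg hx0.le]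
    have s2 : HasSum (fun m => (starRingEnd ℂ) (lC V m * ((fourier 1 y : ℂ) * (x : ℂ)) ^ m)) ((starRingEnd ℂ) (AA V x y)) :=
      s1.map (starRingEnd ℂ) Complex.continuous_conj
    have n2 : Summable fun m => ‖(starRingEnd ℂ) (lC V m * ((fourier 1 y : ℂ) * (x : ℂ)) ^ m)‖ := by
      refine n1.congr fun m => ?_
      rw [RCLike.norm_conj]
    have s4 := (dbl s1 s2 n1 n2).mul_left (fourier e y : ℂ)
    have s5 : AA V x y * (starRingEnd ℂ) (AA V x y) = ((Real.exp (lw V p y) : ℝ) : ℂ) := by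
      rw [hxd]
      exact (AA_sq V hp y).symm
    rw [s5] at s4
    refine s4.congr_fun fun ab => ?_
    exact (term_eq V x y e ab.1 ab.2).symm
  have hint : ∀ ab : ℕ × ℕ, Integrable (fun y => (lC V ab.1 * lC V ab.2 * (x : ℂ) ^ (ab.1 + ab.2)) *
      (fourier (e + ab.1 - ab.2) y : ℂ)) (AddCircle.haarAddCircle (T := (1:ℝ))) := fun ab => by
    have hc : Continuous fun y : UnitAddCircle => (lC V ab.1 * lC V ab.2 * (x : ℂ) ^ (ab.1 + ab.2)) *
      (fourier (e + ab.1 - ab.2) y : ℂ) := continuous_const.mul (fourier _).continuous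
    exact hc.integrable_of_hasCompactSupport (HasCompactSupport.of_compactSpace _)
  have hsn : Summable fun ab : ℕ × ℕ => ∫ y, ‖(lC V ab.1 * lC V ab.2 * (x : ℂ) ^ (ab.1 + ab.2)) *
      (fourier (e + ab.1 - ab.2) y : ℂ)‖ ∂(AddCircle.haarAddCircle (T := (1:ℝ))) := by
    have h1 := hns.mul_of_nonneg hns (fun m => by positivity) (fun m => by positivity)
    refine h1.congr fun ab => ?_
    have h2 : ∀ y : UnitAddCircle, ‖(lC V ab.1 * lC V ab.2 * (x : ℂ) ^ (ab.1 + ab.2)) *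
        (fourier (e + ab.1 - ab.2) y : ℂ)‖ = (‖lC V ab.1‖ * x ^ ab.1) * (‖lC V ab.2‖ * x ^ ab.2) := by
      intro y
      have h3 : ‖(fourier (e + ab.1 - ab.2) y : ℂ)‖ = 1 := by
        rw [fourier_apply]; exact Circle.norm_coe _
      rw [norm_mul, h3, mul_one, norm_mul, norm_mul, norm_pow, Complex.norm_real, Real.norm_of_nonneg hx0.le, pow_add]
      ring
    simp only [h2]
    simp
  have key := hasSum_integral_of_summable_integral_norm hint hsn
  have e1 : ∫ y, ∑' ab : ℕ × ℕ, (lC V ab.1 * lC V ab.2 * (x : ℂ) ^ (ab.1 + ab.2)) *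
      (fourier (e + ab.1 - ab.2) y : ℂ) ∂(AddCircle.haarAddCircle (T := (1:ℝ))) = q V p e := by
    unfold q
    exact integral_congr_ae (ae_of_all _ fun y => (hF y).tsum_eq)
  rw [e1] at key
  -- the terms
  have e2 : ∀ ab : ℕ × ℕ, ∫ y, (lC V ab.1 * lC V ab.2 * (x : ℂ) ^ (ab.1 + ab.2)) *
      (fourier (e + ab.1 - ab.2) y : ℂ) ∂(AddCircle.haarAddCircle (T := (1:ℝ))) =
      if e + ab.1 - ab.2 = 0 then lC V ab.1 * lC V ab.2 * (x : ℂ) ^ (ab.1 + ab.2) else 0 := by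
    intro ab
    rw [integral_const_mul, Pool.Agent.N748.GC.EQ.circ]
    split_ifs <;> simp
  simp only [e2] at key
  -- the diagonal
  have hinj : Function.Injective fun m : ℕ => ((-e).toNat + m, e.toNat + m) := by
    intro m n hmn
    simp only [Prod.mk.injEq] at hmn
    omega
  have hoff : ∀ ab : ℕ × ℕ, ab ∉ Set.range (fun m : ℕ => ((-e).toNat + m, e.toNat + m)) →
      (if e + ab.1 - ab.2 = 0 then lC V ab.1 * lC V ab.2 * (x : ℂ) ^ (ab.1 + ab.2) else 0) = 0 := by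
    intro ab hab
    rw [if_neg]
    intro h0
    apply hab
    refine ⟨ab.1 - (-e).toNat, ?_⟩
    refine Prod.ext ?_ ?_
    · simp only
      omega
    · simp only
      omega
  have k2 := (hinj.hasSum_iff hoff).2 key
  have hx2 : x ^ 2 = (p : ℝ)⁻¹ := by
    have hp0 : (0 : ℝ) ≤ p := Nat.cast_nonneg p
    rw [hxd, ← Real.rpow_natCast, ← Real.rpow_mul hp0, ← Real.rpow_neg_one]
    norm_num
  have e3 : ((fun ab : ℕ × ℕ => if e + ab.1 - ab.2 = 0 then lC V ab.1 * lC V ab.2 * (x : ℂ) ^ (ab.1 + ab.2) else 0) ∘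
      fun m : ℕ => ((-e).toNat + m, e.toNat + m)) = fun m : ℕ => ((x ^ ((-e).toNat + e.toNat) : ℝ) : ℂ) *
        (lC V ((-e).toNat + m) * lC V (e.toNat + m) * (((p : ℝ)⁻¹ : ℝ) : ℂ) ^ m) := by
    funext m
    simp only [Function.comp_apply]
    rw [if_pos (by push_cast; omega), ← hx2]
    push_cast
    rw [← pow_mul]
    have h4 : (-e).toNat + m + (e.toNat + m) = ((-e).toNat + e.toNat) + 2 * m := by ring
    rw [h4, pow_add]
    ring
  rw [e3] at k2
  rw [← k2.tsum_eq, tsum_mul_left, ← hxd]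
  rfl

/-! ### the product -/

open Pool.Agent.N748.GC.EQ (hN kN)

theorem fac_prod {P : Finset ℕ} (hP : ∀ p ∈ P, p.Prime) (f : ℕ → ℕ) (r : ℕ) :
    (∏ p ∈ P, p ^ f p).factorization r = if r ∈ P then f r else 0 := by
  classical
  rw [Nat.factorization_prod (fun p hp => pow_ne_zero _ (hP p hp).ne_zero), Finsupp.finsetSum_apply]
  have h1 : ∀ p ∈ P, (p ^ f p).factorization r = if r = p then f p else 0 := by
    intro p hp
    rw [(hP p hp).factorization_pow, Finsupp.single_apply]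
    by_cases h : p = r
    · rw [if_pos h, if_pos h.symm]
    · rw [if_neg h, if_neg (Ne.symm h)]
  rw [Finset.sum_congr rfl h1, Finset.sum_ite_eq]

theorem SS_zero_ne (V : ℝ) {p : ℕ} (hp : p.Prime) : SS V p 0 ≠ 0 := by
  have h1 := q_eq V hp 0
  rw [Pool.Agent.U899.TW.q_zero] at h1
  intro h2
  rw [h2, mul_zero] at h1
  have h3 := Pool.Agent.N748.GC.RZ.expint_pos V hp
  exact h3.ne' (by exact_mod_cast h1)

theorem primes_hasProd {P : Finset ℕ} (hP : ∀ p ∈ P, p.Prime) (r : ℕ → ℂ) (hr : ∀ p, p ∉ P → r p = 1) :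
    HasProd (fun p : Nat.Primes => r p) (∏ p ∈ P, r p) := by
  have h1 : HasProd r (∏ p ∈ P, r p) := hasProd_prod_of_ne_finset_one hr
  refine (Nat.Primes.coe_nat_injective.hasProd_iff (f := r) ?_).2 h1
  intro p hp
  exact hr p fun h => hp ⟨⟨p, hP p h⟩, rfl⟩

theorem tau_val {P : Finset ℕ} (hP : ∀ p ∈ P, p.Prime) (e : ℕ → ℤ) (V : ℝ) :
    tau (hN P e) (kN P e) V = aC V * ∏ p ∈ P, SS V p (e p) / SS V p 0 := by
  classical
  have h1 := tau_hasProd (hN P e) (kN P e) (V : ℂ)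
  have h2 := tau_hasProd 1 1 (V : ℂ)
  have h3 := h2.mul (primes_hasProd hP (fun p => if p ∈ P then SS V p (e p) / SS V p 0 else 1) fun p hp => if_neg hp)
  have h4 : tau 1 1 (V : ℂ) = aC V := by
    unfold tau aC
    refine tprod_congr fun p => ?_
    rw [Nat.factorization_one, Finsupp.coe_zero, Pi.zero_apply, E2_zz]
    unfold E
    push_cast
    simp only [one_div]
  rw [h4] at h3
  have h5 : ∏ p ∈ P, (if p ∈ P then SS V p (e p) / SS V p 0 else 1) = ∏ p ∈ P, SS V p (e p) / SS V p 0 :=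
    Finset.prod_congr rfl fun p hp => if_pos hp
  rw [h5] at h3
  refine h1.unique (h3.congr_fun fun p => ?_)
  have hk : (kN P e).factorization (p : ℕ) = if (p : ℕ) ∈ P then (-e p).toNat else 0 := fac_prod hP _ _
  have hh : (hN P e).factorization (p : ℕ) = if (p : ℕ) ∈ P then (e p).toNat else 0 := fac_prod hP _ _
  rw [hk, hh, Nat.factorization_one, Finsupp.coe_zero, Pi.zero_apply]
  by_cases hp : (p : ℕ) ∈ P
  · simp only [if_pos hp]
    have hS0 := SS_zero_ne V p.2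
    have e1 : E2 (V : ℂ) (-e p).toNat (e p).toNat ((p : ℕ) : ℝ)⁻¹ =
        (1 - ((((p : ℕ) : ℝ)⁻¹ : ℝ) : ℂ)) ^ ((V : ℂ) ^ 2) * SS V p (e p) := rfl
    have e2 : E2 (V : ℂ) 0 0 ((p : ℕ) : ℝ)⁻¹ = (1 - ((((p : ℕ) : ℝ)⁻¹ : ℝ) : ℂ)) ^ ((V : ℂ) ^ 2) * SS V p 0 := rfl
    rw [e1, e2]
    field_simp
  · simp only [if_neg hp, mul_one]

theorem hk_mul {P : Finset ℕ} (e : ℕ → ℤ) : ((hN P e : ℝ) * kN P e) = ∏ p ∈ P, (p : ℝ) ^ ((-e p).toNat + (e p).toNat) := by
  unfold hN kN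
  push_cast
  rw [← Finset.prod_mul_distrib]
  refine Finset.prod_congr rfl fun p _ => ?_
  rw [pow_add, mul_comm]

/-- the twisted arithmetic factor at real points -/
theorem ta_val {P : Finset ℕ} (hP : ∀ p ∈ P, p.Prime) (e : ℕ → ℤ) (V : ℝ) :
    ta (hN P e) (kN P e) V = aC V * ∏ p ∈ P, q V p (e p) / q V p 0 := by
  unfold ta
  rw [tau_val hP e V, hk_mul, ← Real.finsetProd_rpow _ _ (fun p _ => by positivity), mul_left_comm]
  congr 1
  push_cast
  rw [← Finset.prod_mul_distrib]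
  refine Finset.prod_congr rfl fun p hp => ?_
  rw [q_eq V (hP p hp) (e p), q_eq V (hP p hp) 0]
  have h1 : (((p : ℝ) ^ ((-e p).toNat + (e p).toNat)) ^ (-(1 / 2 : ℝ))) =
      ((p : ℝ) ^ (-(1 / 2 : ℝ))) ^ ((-e p).toNat + (e p).toNat) := by
    rw [← Real.rpow_natCast, ← Real.rpow_natCast, ← Real.rpow_mul (Nat.cast_nonneg _), ← Real.rpow_mul (Nat.cast_nonneg _),
      mul_comm]
  have h2 : (((((p : ℝ) ^ (-(1 / 2 : ℝ))) ^ ((-(0:ℤ)).toNat + (0:ℤ).toNat) : ℝ)) : ℂ) = 1 := by simp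
  rw [h2, one_mul]
  rw [← h1]
  push_cast
  ring

/-- the mean value of a character -/
noncomputable def mm (V : ℝ) (P : Finset ℕ) (n : P → ℤ) : ℂ := ∫ x : UnitAddTorus P, mFourier n x * ((M0 V P x : ℝ) : ℂ) ∂(HP P)

theorem ta_mm {P : Finset ℕ} (hP : ∀ p ∈ P, p.Prime) (e : ℕ → ℤ) (V : ℝ) :
    ta (hN P e) (kN P e) V = aC V * mm V P (fun p : P => e p) := by
  unfold mm
  rw [ta_val hP, Pool.Agent.U899.TW.int_char]

end Pool.Agent.U899.TM
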