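import Pool.Agent.U899.TM.Gen
import Pool.Agent.N748.MG.Res

set_option autoImplicit false

/-! Large deviations jointly with the phases of the small primes: real functions, tails. -/

namespace Pool.Agent.U899.TM

open Finset Filter MeasureTheory Topology Complex UnitAddTorus
open Pool.Agent.N748.MG
open Pool.Agent.N748.GC (chr lw M0 E0 HP pt)

/-- the tilted mean -/
noncomputable def tm (V : ℝ) (P : Finset ℕ) (F : (P → UnitAddCircle) → ℝ) : ℝ := ∫ x, F x * M0 V P x ∂(HP P)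

theorem tm_one (V : ℝ) {P : Finset ℕ} (hP : ∀ p ∈ P, p.Prime) : tm V P (fun _ => 1) = 1 := by
  unfold tm
  have h := Pool.Agent.N748.GC.RZ.M0_int V P hP
  have e : (fun x : P → UnitAddCircle => (1 : ℝ) * M0 V P x) = fun x => M0 V P x := by
    funext x; rw [one_mul]
  rw [e]
  exact h

theorem real_general {P : Finset ℕ} (hP : ∀ p ∈ P, p.Prime) {F : (P → UnitAddCircle) → ℝ} (hF : Continuous F)
    {d : ℝ → ℝ} (hd : Ad d) (V : ℝ)
    (h : ℝ → ℝ) (S : Finset ℝ) (hm : Measurable h)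
    (hcont : ∀ x, x ∉ S → ContinuousAt h x) (hb1 : ∃ C : ℝ, ∀ x, |h x| ≤ C)
    (hb2 : ∃ C : ℝ, ∀ x, |h x| * (1 + x ^ 2) ≤ C * Real.exp (2 * V * x)) :
    Tendsto (fun T : ℝ => Nr d V T * ((1 / T) * ∫ t in (0:ℝ)..T, F (pt P t) * Ob d V h T t)) atTop
    (𝓝 (akR V * tm V P F * ∫ x, Real.exp (-(2 * V * x)) * h x)) := by
  have key := general hP ⟨fun x => ((F x : ℝ) : ℂ), Complex.continuous_ofReal.comp hF⟩ hd V h S hm hcont hb1 hb2
  have k2 := (Complex.continuous_re.tendsto _).comp key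
  have e1 : (((((aC V).re * ∫ x, Real.exp (-(2 * V * x)) * h x : ℝ) : ℂ)) *
      ∫ x, (⟨fun x => ((F x : ℝ) : ℂ), Complex.continuous_ofReal.comp hF⟩ : C(UnitAddTorus P, ℂ)) x *
        ((M0 V P x : ℝ) : ℂ) ∂(HP P)).re = akR V * tm V P F * ∫ x, Real.exp (-(2 * V * x)) * h x := by
    simp only [ContinuousMap.coe_mk, ← Complex.ofReal_mul]
    rw [integral_complex_ofReal, ← Complex.ofReal_mul, Complex.ofReal_re, aC_re]
    unfold tm
    ring
  rw [e1] at k2
  refine k2.congr fun T => ?_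
  simp only [Function.comp_apply, ContinuousMap.coe_mk, ← Complex.ofReal_mul]
  rw [intervalIntegral.integral_ofReal]
  have e2 : ((Nr d V T : ℝ) : ℂ) * (1 / (T : ℂ) * ((∫ t in (0:ℝ)..T, F (pt P t) * Ob d V h T t : ℝ) : ℂ)) =
      ((Nr d V T * ((1 / T) * ∫ t in (0:ℝ)..T, F (pt P t) * Ob d V h T t) : ℝ) : ℂ) := by
    push_cast
    ring
  rw [e2, Complex.ofReal_re]

theorem genF {P : Finset ℕ} (hP : ∀ p ∈ P, p.Prime) {F : (P → UnitAddCircle) → ℝ} (hF : Continuous F)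
    {d : ℝ → ℝ} (hd : Ad d) (V κ s : ℝ) (hs : s * s = 1)
    (ha : 0 < s * (V - κ)) (hκ : s * κ ≤ 0) (B : Set ℝ) (hB : MeasurableSet B)
    (h1 : ∀ x, 0 < s * x → x ∈ B) (h2 : ∀ x ∈ B, 0 ≤ s * x)
    (hI : ∫ x in B, Real.exp (-(2 * (V - κ)) * x) = 1 / (2 * (s * (V - κ)))) :
    Tendsto (fun T : ℝ => Nr d V T * ((1 / T) * ∫ t in (0:ℝ)..T,
        F (pt P t) * Ob d V (B.indicator (fun x => Real.exp (2 * κ * x))) T t)) atTop
    (𝓝 (akR V * tm V P F * (1 / (2 * (s * (V - κ)))))) := by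
  have hsq : ∀ x : ℝ, x = s * (s * x) := fun x => by rw [← mul_assoc, hs, one_mul]
  have hle1 : ∀ x, |B.indicator (fun x => Real.exp (2 * κ * x)) x| ≤ 1 := by
    intro x
    by_cases hx : x ∈ B
    · rw [Set.indicator_of_mem hx, abs_of_pos (Real.exp_pos _)]
      apply Real.exp_le_one_iff.2
      have h3 := h2 x hx
      have h4 : κ * x = (s * κ) * (s * x) := by
        have : (s * κ) * (s * x) = (s * s) * (κ * x) := by ring
        rw [this, hs, one_mul]
      have h5 : (s * κ) * (s * x) ≤ 0 := mul_nonpos_of_nonpos_of_nonneg hκ h3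
      rw [mul_assoc, h4]
      linarith
    · rw [Set.indicator_of_notMem hx, abs_zero]
      exact zero_le_one
  have key := real_general hP hF hd V (B.indicator (fun x => Real.exp (2 * κ * x))) {0}
    ((by fun_prop : Measurable (fun x : ℝ => Real.exp (2 * κ * x))).indicator hB) ?_
    ⟨1, hle1⟩ ?_
  · have e : ∫ x, Real.exp (-(2 * V * x)) * B.indicator (fun x => Real.exp (2 * κ * x)) x =
        1 / (2 * (s * (V - κ))) := by
      rw [← hI, ← integral_indicator hB]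
      refine integral_congr_ae (Filter.Eventually.of_forall fun x => ?_)
      change Real.exp (-(2 * V * x)) * B.indicator (fun x => Real.exp (2 * κ * x)) x =
        B.indicator (fun x => Real.exp (-(2 * (V - κ)) * x)) x
      by_cases hx : x ∈ B
      · rw [Set.indicator_of_mem hx, Set.indicator_of_mem hx, ← Real.exp_add]
        congr 1
        ring
      · rw [Set.indicator_of_notMem hx, Set.indicator_of_notMem hx, mul_zero]
    rw [e] at key
    exact key
  · intro x hx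
    have hx0 : x ≠ 0 := by simpa using hx
    have hs0 : s ≠ 0 := by
      rintro rfl
      norm_num at hs
    have hsx : s * x ≠ 0 := mul_ne_zero hs0 hx0
    rcases lt_or_gt_of_ne hsx with h3 | h3
    · have h4 : ∀ᶠ y in 𝓝 x, s * y < 0 :=
        (by fun_prop : Continuous fun y : ℝ => s * y).continuousAt.eventually_lt
          continuousAt_const h3
      have h5 : B.indicator (fun x => Real.exp (2 * κ * x)) =ᶠ[𝓝 x] fun _ => (0 : ℝ) := by
        filter_upwards [h4] with y hy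
        exact Set.indicator_of_notMem (fun hyB => absurd (h2 y hyB) (not_le.2 hy)) _
      exact continuousAt_const.congr h5.symm
    · have h4 : ∀ᶠ y in 𝓝 x, 0 < s * y :=
        continuousAt_const.eventually_lt
          (by fun_prop : Continuous fun y : ℝ => s * y).continuousAt h3
      have h5 : B.indicator (fun x => Real.exp (2 * κ * x)) =ᶠ[𝓝 x]
          fun x => Real.exp (2 * κ * x) := by
        filter_upwards [h4] with y hy
        exact Set.indicator_of_mem (h1 y hy) _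
      exact ContinuousAt.congr (by fun_prop) h5.symm
  · obtain ⟨C, hC, hC'⟩ := TMC.exp_bd (a := 2 * (s * (V - κ))) (by linarith)
    refine ⟨C, fun x => ?_⟩
    by_cases hx : x ∈ B
    · rw [Set.indicator_of_mem hx, abs_of_pos (Real.exp_pos _)]
      have h3 := hC' (s * x) (h2 x hx)
      have h4 : 1 + x ^ 2 = 1 + (s * x) ^ 2 := by
        have : (s * x) ^ 2 = (s * s) * x ^ 2 := by ring
        rw [this, hs, one_mul]
      rw [h4]
      have h5 : Real.exp (2 * V * x) =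
          Real.exp (2 * κ * x) * Real.exp (2 * (s * (V - κ)) * (s * x)) := by
        rw [← Real.exp_add]
        congr 1
        have : 2 * (s * (V - κ)) * (s * x) = (s * s) * (2 * (V - κ) * x) := by ring
        rw [this, hs, one_mul]
        ring
      rw [h5]
      calc Real.exp (2 * κ * x) * (1 + (s * x) ^ 2)
          ≤ Real.exp (2 * κ * x) * (C * Real.exp (2 * (s * (V - κ)) * (s * x))) :=
            mul_le_mul_of_nonneg_left h3 (Real.exp_pos _).le
        _ = C * (Real.exp (2 * κ * x) * Real.exp (2 * (s * (V - κ)) * (s * x))) := by ring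
    · rw [Set.indicator_of_notMem hx, abs_zero, zero_mul]
      positivity

/-- the level -/
theorem convF {δ T V k : ℝ} (h0 : 0 < δ) (h1 : δ < 1 / 2) (hT : 0 ≤ T) (φ : ℝ → ℝ) (B Q : Set ℝ)
    (hQ : MeasurableSet Q)
    (hQB : ∀ t, 0 < mz δ t → (t ∈ Q ↔ Real.log (mz δ t) - V * Real.log (1 / (2 * δ)) ∈ B)) :
    ∫ t in {t : ℝ | t ∈ Set.Icc 0 T ∧ t ∈ Q}, φ t * mz δ t ^ (2 * k) =
      (2 * δ) ^ (-(2 * k * V)) * ∫ t in (0:ℝ)..T, φ t * B.indicator (fun x => Real.exp (2 * k * x))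
          (Real.log (mz δ t) - V * Real.log (1 / (2 * δ))) := by
  have e1 : {t : ℝ | t ∈ Set.Icc 0 T ∧ t ∈ Q} = Set.Icc 0 T ∩ Q := rfl
  rw [e1, ← setIntegral_indicator hQ, intervalIntegral.integral_of_le hT,
    ← integral_Icc_eq_integral_Ioc, ← integral_const_mul]
  refine integral_congr_ae (ae_restrict_of_ae ?_)
  filter_upwards [TMC.ae_ne h1] with t ht
  have ht' : 0 < mz δ t := lt_of_le_of_ne (norm_nonneg _) (Ne.symm ht)
  by_cases hq : t ∈ Q
  · rw [Set.indicator_of_mem hq, Set.indicator_of_mem ((hQB t ht').1 hq), TMC.pow_eq h0 V k ht']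
    ring
  · rw [Set.indicator_of_notMem hq, Set.indicator_of_notMem fun h => hq ((hQB t ht').2 h)]
    simp

theorem masterF {P : Finset ℕ} (hP : ∀ p ∈ P, p.Prime) {F : (P → UnitAddCircle) → ℝ} (hF : Continuous F)
    {d : ℝ → ℝ} (hd : Ad d) (V κ s : ℝ) (hs : s * s = 1)
    (ha : 0 < s * (V - κ)) (hκ : s * κ ≤ 0) (B : Set ℝ) (hB : MeasurableSet B)
    (h1 : ∀ x, 0 < s * x → x ∈ B) (h2 : ∀ x ∈ B, 0 ≤ s * x)
    (hI : ∫ x in B, Real.exp (-(2 * (V - κ)) * x) = 1 / (2 * (s * (V - κ))))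
    (Q : ℝ → Set ℝ) (hQ : ∀ T, d T < 1 / 2 → MeasurableSet (Q T))
    (hQB : ∀ T, 0 < d T → ∀ t, 0 < mz (d T) t →
      (t ∈ Q T ↔ Real.log (mz (d T) t) - V * Real.log (1 / (2 * d T)) ∈ B)) :
    Tendsto (fun T : ℝ => Real.sqrt (Real.pi * Real.log (1 / (2 * d T))) *
      (2 * d T) ^ (2 * κ * V - V ^ 2) * ((1 / T) * ∫ t in {t : ℝ | t ∈ Set.Icc 0 T ∧ t ∈ Q T},
        F (pt P t) * mz (d T) t ^ (2 * κ))) atTop (𝓝 (akR V * tm V P F / (2 * (s * (V - κ))))) := by
  have key := genF hP hF hd V κ s hs ha hκ B hB h1 h2 hI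
  rw [mul_one_div] at key
  refine key.congr' ?_
  have hlt : ∀ᶠ T in atTop, d T < 1 / 2 := hd.t0.eventually_lt_const (by norm_num)
  filter_upwards [hd.pos, hlt, eventually_ge_atTop 0] with T a1 a2 a3
  rw [convF a1 a2 a3 (fun t => F (pt P t)) B (Q T) (hQ T a2) (hQB T a1)]
  have e : (2 * d T) ^ (-(V ^ 2)) = (2 * d T) ^ (2 * κ * V - V ^ 2) *
      (2 * d T) ^ (-(2 * κ * V)) := by
    rw [← Real.rpow_add (by linarith)]
    congr 1
    ring
  unfold Nr
  rw [e]
  change _ * ((1 / T) * ∫ t in (0:ℝ)..T, F (pt P t) * B.indicator (fun x => Real.exp (2 * κ * x))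
    (Real.log (mz (d T) t) - V * Real.log (1 / (2 * d T)))) = _
  ring

/-- quotients -/
theorem quotF {d N D c : ℝ → ℝ} {a l : ℝ} (ha : a ≠ 0) (hc : ∀ᶠ T in atTop, c T ≠ 0)
    (h1 : Tendsto (fun T : ℝ => c T * ((1 / T) * N T)) atTop (𝓝 (a * l)))
    (h2 : Tendsto (fun T : ℝ => c T * ((1 / T) * D T)) atTop (𝓝 a)) :
    Tendsto (fun T : ℝ => N T / D T) atTop (𝓝 l) := by
  have h3 := h1.div h2 ha
  rw [mul_div_cancel_left₀ _ ha] at h3
  refine h3.congr' ?_
  filter_upwards [hc, eventually_gt_atTop 0] with T hT hT0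
  simp only [Pi.div_apply]
  rw [mul_div_mul_left _ _ hT, mul_div_mul_left _ _ (one_div_pos.2 hT0).ne']

theorem nrm_ne {d : ℝ → ℝ} (hd : Ad d) (a : ℝ) :
    ∀ᶠ T in atTop, Real.sqrt (Real.pi * Real.log (1 / (2 * d T))) * (2 * d T) ^ a ≠ 0 := by
  filter_upwards [small_ev hd] with T hT
  have h3 : (0:ℝ) < 2 * d T := by linarith [hT.1]
  have h7 : 0 < Real.log (1 / (2 * d T)) := Real.log_pos (by rw [lt_div_iff₀ h3]; linarith [hT.2.1])
  have h8 : 0 < Real.sqrt (Real.pi * Real.log (1 / (2 * d T))) := Real.sqrt_pos.2 (by positivity)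
  have h5 : (0:ℝ) < (2 * d T) ^ a := Real.rpow_pos_of_pos h3 _
  positivity

/-- the law of the phases in the moment measure on one side of a level -/
theorem condF {P : Finset ℕ} (hP : ∀ p ∈ P, p.Prime) {F : (P → UnitAddCircle) → ℝ} (hF : Continuous F)
    {d : ℝ → ℝ} (hd : Ad d) (V κ s : ℝ) (hs : s * s = 1)
    (ha : 0 < s * (V - κ)) (hκ : s * κ ≤ 0) (B : Set ℝ) (hB : MeasurableSet B)
    (h1 : ∀ x, 0 < s * x → x ∈ B) (h2 : ∀ x ∈ B, 0 ≤ s * x)
    (hI : ∫ x in B, Real.exp (-(2 * (V - κ)) * x) = 1 / (2 * (s * (V - κ))))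
    (Q : ℝ → Set ℝ) (hQ : ∀ T, d T < 1 / 2 → MeasurableSet (Q T))
    (hQB : ∀ T, 0 < d T → ∀ t, 0 < mz (d T) t →
      (t ∈ Q T ↔ Real.log (mz (d T) t) - V * Real.log (1 / (2 * d T)) ∈ B)) :
    Tendsto (fun T : ℝ => (∫ t in {t : ℝ | t ∈ Set.Icc 0 T ∧ t ∈ Q T}, F (pt P t) * mz (d T) t ^ (2 * κ)) /
      ∫ t in {t : ℝ | t ∈ Set.Icc 0 T ∧ t ∈ Q T}, mz (d T) t ^ (2 * κ)) atTop (𝓝 (tm V P F)) := by
  have k1 := masterF hP hF hd V κ s hs ha hκ B hB h1 h2 hI Q hQ hQB
  have k2 := masterF hP (F := fun _ => 1) continuous_const hd V κ s hs ha hκ B hB h1 h2 hI Q hQ hQB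
  rw [tm_one V hP, mul_one] at k2
  simp only [one_mul] at k2
  have h3 : akR V / (2 * (s * (V - κ))) ≠ 0 := div_ne_zero (aC_akR V).1.ne' (by linarith)
  have e : akR V * tm V P F / (2 * (s * (V - κ))) = akR V / (2 * (s * (V - κ))) * tm V P F := by ring
  rw [e] at k1
  exact quotF (d := d) h3 (nrm_ne hd _) k1 k2

end Pool.Agent.U899.TM
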