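import Pool.Agent.U899.TM.Mean

set_option autoImplicit false

/-! Twisted complex moments outside tiny sets. -/

namespace Pool.Agent.U899.TM

open Finset Filter MeasureTheory Topology Complex
open Pool.Agent.N748.MG Pool.Agent.N748.MG.L4 Pool.Agent.N748.MG.DIA2
open Pool.Agent.N748.GC (chr)

/-- the twisted arithmetic factor -/
noncomputable def ta (h k : ℕ) (s : ℂ) : ℂ := ((((h : ℝ) * k) ^ (-(1 / 2 : ℝ)) : ℝ) : ℂ) * tau h k s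

theorem ta_cont (h k : ℕ) : Continuous (ta h k) := continuous_const.mul (tau_cont h k)

theorem diaC {h k : ℕ} (hh : h ≠ 0) (hk : k ≠ 0) (R : ℝ) {ε : ℝ} (hε : 0 < ε) :
    ∃ δ0 : ℝ, 0 < δ0 ∧ ∀ δ : ℝ, 0 < δ → δ ≤ δ0 → ∀ s : ℂ, ‖s‖ ≤ R →
      ‖((2 * δ : ℝ) : ℂ) ^ (s ^ 2) * (((((h : ℝ) * k) ^ (-(1 / 2 + δ)) : ℝ) : ℂ) * ∑' n : ℕ, tw h k s δ n) - ta h k s‖ ≤ ε := by
  obtain ⟨δ1, hδ1, hd⟩ := dia hh hk R (ε := ε / 2) (by positivity)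
  obtain ⟨M, hM⟩ := (isCompact_closedBall (0 : ℂ) R).exists_bound_of_continuousOn (f := tau h k) (tau_cont h k).continuousOn
  have h0 : (1 : ℝ) ≤ h := by exact_mod_cast Nat.one_le_iff_ne_zero.2 hh
  have k0 : (1 : ℝ) ≤ k := by exact_mod_cast Nat.one_le_iff_ne_zero.2 hk
  have hhk : 1 ≤ (h : ℝ) * k := one_le_mul_of_one_le_of_one_le h0 k0
  have hc : ContinuousAt (fun δ : ℝ => ((h : ℝ) * k) ^ (-(1 / 2 + δ))) 0 := by
    have h1 : ContinuousAt (fun δ : ℝ => -(1 / 2 + δ)) 0 := by fun_prop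
    exact (continuousAt_const (y := (h : ℝ) * k)).rpow h1 (Or.inl (by positivity))
  have hη : 0 < ε / (2 * (|M| + 1)) := by positivity
  obtain ⟨δ2, hδ2, hc2⟩ := Metric.continuousAt_iff.1 hc _ hη
  refine ⟨min δ1 (δ2 / 2), lt_min hδ1 (by positivity), fun δ hδ hδle s hs => ?_⟩
  have e1 := hd δ hδ (hδle.trans (min_le_left _ _)) s hs
  have e2 := hc2 (x := δ) (by
    rw [dist_zero_right, Real.norm_of_nonneg hδ.le]
    have := hδle.trans (min_le_right _ _)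
    linarith)
  rw [add_zero, Real.dist_eq] at e2
  have e3 : ‖tau h k s‖ ≤ |M| + 1 := by
    have := hM s (by rw [mem_closedBall_zero_iff]; exact hs)
    have h4 := le_abs_self M
    linarith
  set c : ℝ := ((h : ℝ) * k) ^ (-(1 / 2 + δ)) with hcd
  have c1 : c ≤ 1 := Real.rpow_le_one_of_one_le_of_nonpos hhk (by linarith)
  have c0 : 0 ≤ c := by rw [hcd]; positivity
  unfold ta
  generalize (∑' n : ℕ, tw h k s δ n) = S at e1 ⊢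
  generalize ((2 * δ : ℝ) : ℂ) ^ (s ^ 2) = u at e1 ⊢
  have e4 : u * ((c : ℂ) * S) - ((((h : ℝ) * k) ^ (-(1 / 2 : ℝ)) : ℝ) : ℂ) * tau h k s =
      (c : ℂ) * (u * S - tau h k s) + ((c - ((h : ℝ) * k) ^ (-(1 / 2 : ℝ)) : ℝ) : ℂ) * tau h k s := by
    push_cast
    ring
  rw [e4]
  refine (norm_add_le _ _).trans ?_
  rw [norm_mul, norm_mul, Complex.norm_real, Complex.norm_real, Real.norm_of_nonneg c0, Real.norm_eq_abs]
  have e5 : c * ‖u * S - tau h k s‖ ≤ ε / 2 := by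
    calc c * ‖u * S - tau h k s‖ ≤ 1 * (ε / 2) := mul_le_mul c1 e1 (norm_nonneg _) zero_le_one
      _ = _ := one_mul _
  have e6 : |c - ((h : ℝ) * k) ^ (-(1 / 2 : ℝ))| * ‖tau h k s‖ ≤ ε / 2 := by
    calc |c - ((h : ℝ) * k) ^ (-(1 / 2 : ℝ))| * ‖tau h k s‖ ≤ (ε / (2 * (|M| + 1))) * (|M| + 1) :=
          mul_le_mul e2.le e3 (norm_nonneg _) hη.le
      _ = ε / 2 := by field_simp
  linarith

theorem Ev.finset {ι : Type} (H : Finset ι) (P : ι → ℝ → ℝ → Prop) (h : ∀ i ∈ H, Ev (P i)) :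
    Ev fun X δ => ∀ i ∈ H, P i X δ := by
  classical
  induction H using Finset.induction_on with
  | empty =>
    refine (Ev.of_le one_pos).mono fun X δ _ _ _ _ i hi => ?_
    simp at hi
  | insert a H ha ih =>
    have h1 := h a (Finset.mem_insert_self _ _)
    have h2 := ih fun i hi => h i (Finset.mem_insert_of_mem hi)
    refine (h1.and h2).mono ?_
    rintro X δ _ _ _ ⟨h3, h4⟩ i hi
    rcases Finset.mem_insert.1 hi with rfl | hi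
    · exact h3
    · exact h4 i hi

theorem chr_cont (h k : ℕ) : Continuous (chr h k) := by
  unfold chr
  fun_prop

theorem chr_norm (h k : ℕ) (t : ℝ) : ‖chr h k t‖ = 1 := by
  unfold chr
  rw [show ((Real.log k - Real.log h : ℝ) : ℂ) * Complex.I * t = ((((Real.log k - Real.log h) * t : ℝ)) : ℂ) * I by
    push_cast; ring]
  exact Complex.norm_exp_ofReal_mul_I _

/-- integrability on the good set -/
lemma intN (f F : ℝ → ℂ) (hf : Measurable f) (hF : Continuous F) (X : ℝ) (N : Set ℝ)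
    (hN : MeasurableSet N) (hNX : N ⊆ Set.Icc 0 X) (c0 : ℝ)
    (h : ∀ t ∈ N, ‖f t - F t‖ ≤ c0) : IntegrableOn f N := by
  have hvol : volume N ≤ ENNReal.ofReal X := by
    refine (measure_mono hNX).trans ?_
    rw [Real.volume_Icc, sub_zero]
  have hfin : volume N < ⊤ := hvol.trans_lt ENNReal.ofReal_lt_top
  have hFi : IntegrableOn F N := (hF.integrableOn_Icc (a := 0) (b := X)).mono_set hNX
  have hd : IntegrableOn (fun t => f t - F t) N := by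
    refine Measure.integrableOn_of_bounded (M := c0) hfin.ne
      (hf.sub hF.measurable).aestronglyMeasurable ?_
    exact (ae_restrict_iff' hN).2 (Eventually.of_forall h)
  have := hd.add hFi
  refine this.congr_fun (fun t _ => ?_) hN
  simp

theorem main (hC : S_CMP) (hV : S_MVS) (hS : S_SIZ) (h4 : S_L4) (h1 : S_DIA1) (hN : S_NIC)
    (H : Finset (ℕ × ℕ)) (hH : ∀ q ∈ H, q.1 ≠ 0 ∧ q.2 ≠ 0 ∧ Nat.Coprime q.1 q.2) {R D : ℝ} (hR : 0 < R) (hD : 0 < D)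
    {ε : ℝ} (hε : 0 < ε) : Ev fun X δ =>
      ∃ N : Set ℝ, MeasurableSet N ∧ N ⊆ Set.Icc 0 X ∧ volume (Set.Icc 0 X \ N) ≤ ENNReal.ofReal (δ ^ D * X) ∧
        (∀ t ∈ N, riemannZeta (pw δ t) ≠ 0) ∧
        (∀ s : ℂ, ‖s‖ ≤ R → IntegrableOn (fun t : ℝ => ((‖riemannZeta (pw δ t)‖ : ℝ) : ℂ) ^ (2 * s)) N) ∧ ∀ q ∈ H,
        ∀ s : ℂ, ‖s‖ ≤ R → ‖((2 * δ : ℝ) : ℂ) ^ (s ^ 2) *
          (∫ t in N, chr q.1 q.2 t * ((‖riemannZeta (pw δ t)‖ : ℝ) : ℂ) ^ (2 * s)) - X * ta q.1 q.2 s‖ ≤ ε * X := by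
  obtain ⟨C4, hC40, hC4⟩ := h4 R hR.le
  obtain ⟨D1, hD1⟩ : ∃ D1, D1 = max D (C4 + 2 * R ^ 2 + 4) := ⟨_, rfl⟩
  have hD1D : D ≤ D1 := by rw [hD1]; exact le_max_left _ _
  have hD1C : C4 + 2 * R ^ 2 + 4 ≤ D1 := by rw [hD1]; exact le_max_right _ _
  obtain ⟨ca, hca, hN'⟩ := hN D1 (by linarith)
  obtain ⟨Cc, hCc0, hCc⟩ := hC R hR.le
  obtain ⟨C0, hC00, hC0⟩ := hS R hR.le
  obtain ⟨C1, hC10, hC1⟩ := trunc h1 R (D := R ^ 2 + 2) (by positivity)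
  obtain ⟨B, hB⟩ : ∃ B, B = Cc * (ca + 3) := ⟨_, rfl⟩
  have hB0 : 0 < B := by rw [hB]; positivity
  obtain ⟨A, hA⟩ : ∃ A, A = B + R ^ 2 + 2 := ⟨_, rfl⟩
  have hA0 : 0 < A := by rw [hA]; positivity
  obtain ⟨C, hCd⟩ : ∃ C, C = 5 * (A + B) + C4 + C1 + 2 * (1 + 2 * C0) := ⟨_, rfl⟩
  have hCA : 5 * (A + B) ≤ C := by rw [hCd]; linarith
  have hCC4 : C4 ≤ C := by rw [hCd]; linarith
  have hCC1 : C1 ≤ C := by rw [hCd]; linarith
  have hCC0 : 2 * (1 + 2 * C0) ≤ C := by rw [hCd]; linarith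
  have hC0' : 0 < C := by linarith
  have hAq : ∀ q ∈ H, (0 : ℝ) < ((q.1 : ℝ) * q.2) * ((q.1 : ℝ) + q.2) := by
    intro q hq
    have a1 : (0 : ℝ) < q.1 := by exact_mod_cast Nat.pos_of_ne_zero (hH q hq).1
    have a2 : (0 : ℝ) < q.2 := by exact_mod_cast Nat.pos_of_ne_zero (hH q hq).2.1
    positivity
  have ev1 : Ev fun X δ => ∀ q ∈ H, δ ^ (-(R ^ 2 + 2)) ≤
      1 / (4 * (((q.1 : ℝ) * q.2) * ((q.1 : ℝ) + q.2))) * X ^ ((1 : ℝ) / 2) :=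
    Ev.finset H (fun q X δ => δ ^ (-(R ^ 2 + 2)) ≤
      1 / (4 * (((q.1 : ℝ) * q.2) * ((q.1 : ℝ) + q.2))) * X ^ ((1 : ℝ) / 2)) fun q hq =>
      Ev.win (by have := hAq q hq; positivity) (by norm_num)
  have ev2 : Ev fun _ δ => ∀ q ∈ H, ∀ (y : ℝ) (K : ℕ), 2 ≤ y → C1 * Real.log (1 / δ) ≤ δ * Real.log y →
      C1 * Real.log (1 / δ) ≤ K → ∀ s : ℂ, ‖s‖ ≤ R →
      ‖(∑ n ∈ GS y K q.1 q.2, tw q.1 q.2 s δ n) - ∑' n, tw q.1 q.2 s δ n‖ ≤ δ ^ (R ^ 2 + 2) :=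
    Ev.finset H (fun q _ δ => ∀ (y : ℝ) (K : ℕ), 2 ≤ y → C1 * Real.log (1 / δ) ≤ δ * Real.log y →
      C1 * Real.log (1 / δ) ≤ K → ∀ s : ℂ, ‖s‖ ≤ R →
      ‖(∑ n ∈ GS y K q.1 q.2, tw q.1 q.2 s δ n) - ∑' n, tw q.1 q.2 s δ n‖ ≤ δ ^ (R ^ 2 + 2)) fun q hq => by
      obtain ⟨δ0, hδ0, h5⟩ := hC1 q.1 q.2 (hH q hq).1 (hH q hq).2.1
      exact (Ev.of_le hδ0).mono fun X δ _ hδ _ hδ2 => h5 δ hδ hδ2
  have ev3 : Ev fun _ δ => ∀ q ∈ H, ∀ s : ℂ, ‖s‖ ≤ R →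
      ‖((2 * δ : ℝ) : ℂ) ^ (s ^ 2) * (((((q.1 : ℝ) * q.2) ^ (-(1 / 2 + δ)) : ℝ) : ℂ) * ∑' n : ℕ, tw q.1 q.2 s δ n) -
        ta q.1 q.2 s‖ ≤ ε / 2 :=
    Ev.finset H (fun q _ δ => ∀ s : ℂ, ‖s‖ ≤ R →
      ‖((2 * δ : ℝ) : ℂ) ^ (s ^ 2) * (((((q.1 : ℝ) * q.2) ^ (-(1 / 2 + δ)) : ℝ) : ℂ) * ∑' n : ℕ, tw q.1 q.2 s δ n) -
        ta q.1 q.2 s‖ ≤ ε / 2) fun q hq => by
      obtain ⟨δ0, hδ0, h5⟩ := diaC (hH q hq).1 (hH q hq).2.1 R (ε := ε / 2) (by positivity)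
      exact (Ev.of_le hδ0).mono fun X δ _ hδ _ hδ2 => h5 δ hδ hδ2
  have hEv := ((((hN' C hC0').and ev1).and ev2).and ev3).and
    (Ev.small (C := 4) (c := 2) (e := ε / 2) (by norm_num) (by positivity))
  refine hEv.mono ?_
  rintro X δ hX hδ hδ16 ⟨⟨⟨⟨⟨y, K, N, hy, hy1, hK1, hKX, hv, hNm, hNX, hNv, hNt⟩, hwin⟩, hd1⟩, hd2⟩, hsm⟩
  obtain ⟨L, hL⟩ : ∃ L, L = Real.log (1 / δ) := ⟨_, rfl⟩
  have hL1 : 1 ≤ L := by rw [hL]; exact log_inv_ge hδ hδ16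
  have hL0 : 0 < L := by linarith
  have hX0 : (0 : ℝ) < X := by linarith
  have hδ1' : δ ≤ 1 := by linarith
  have hrp : ∀ a : ℝ, δ ^ a = Real.exp (-(a * L)) := fun a => by rw [hL]; exact CM.rpow_eq hδ a
  have hly : 0 < Real.log y := Real.log_pos (by linarith)
  rw [← hL] at hy1 hK1 hv hNt
  have hKly : 0 ≤ (K + 1) * Real.log y := by positivity
  have hexpE : ∀ s : ℝ, s = Cc * (ca * L + 2 * L + 1) → Real.exp s ≤ Real.exp (B * L) := by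
    intro s hs
    rw [hs, hB]
    apply Real.exp_le_exp.2
    nlinarith
  have hK45 : ((4 : ℝ) / 5) ^ K ≤ Real.exp (-((A + B) * L)) := by
    have g1 : (4 : ℝ) / 5 ≤ Real.exp (-(1 / 5)) := by
      have := Real.add_one_le_exp (-(1 / 5 : ℝ))
      linarith
    calc ((4 : ℝ) / 5) ^ K ≤ Real.exp (-(1 / 5)) ^ K := pow_le_pow_left₀ (by norm_num) g1 K
      _ = Real.exp (-(K / 5)) := by
        rw [← Real.exp_nat_mul]
        congr 1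
        ring
      _ ≤ _ := by
        apply Real.exp_le_exp.2
        nlinarith
  -- pointwise comparison
  have hpt : ∀ t ∈ N, ∀ s : ℂ, ‖s‖ ≤ R →
      ‖((‖riemannZeta (pw δ t)‖ : ℝ) : ℂ) ^ (2 * s) - AS s y K (pw δ t) *
        (starRingEnd ℂ) (AS ((starRingEnd ℂ) s) y K (pw δ t))‖ ≤ δ ^ (R ^ 2 + 2) := by
    intro t ht s hs
    obtain ⟨g1, g2⟩ := hNt t ht
    have hre : 1 / 2 ≤ (pw δ t).re := by
      unfold pw
      simp
      linarith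
    have k1 : ‖riemannZeta (pw δ t) * AS (-1) y K (pw δ t) - 1‖ ≤ δ ^ A :=
      g2.trans (Real.rpow_le_rpow_of_exponent_ge hδ hδ1' (by linarith))
    have k2 : (4 / 5 : ℝ) ^ K * Real.exp (Cc * (ca * L + 2 * L + 1)) ≤ δ ^ A := by
      rw [hrp]
      calc _ ≤ Real.exp (-((A + B) * L)) * Real.exp (B * L) :=
            mul_le_mul hK45 (hexpE _ rfl) (Real.exp_pos _).le (Real.exp_pos _).le
        _ = Real.exp (-(A * L)) := by
          rw [← Real.exp_add]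
          congr 1
          ring
    have k3 : δ ^ A * Real.exp (Cc * (ca * L + 2 * L + 1)) ≤ δ ^ (R ^ 2 + 2) := by
      rw [hrp, hrp]
      calc _ ≤ Real.exp (-(A * L)) * Real.exp (B * L) :=
            mul_le_mul_of_nonneg_left (hexpE _ rfl) (Real.exp_pos _).le
        _ = _ := by
          rw [← Real.exp_add, hA]
          congr 1
          ring
    have k4 : δ ^ (R ^ 2 + 2) ≤ 1 := Real.rpow_le_one hδ.le hδ1' (by positivity)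
    exact (hCc y K (pw δ t) (ca * L) (2 * L) (δ ^ A) hy hre g1 hv (Real.rpow_pos_of_pos hδ _) k1 k2
      (k3.trans k4) s hs).trans k3
  refine ⟨N, hNm, hNX, hNv.trans (ENNReal.ofReal_le_ofReal (mul_le_mul_of_nonneg_right
    (Real.rpow_le_rpow_of_exponent_ge hδ hδ1' hD1D) hX0.le)), ?_, ?_, ?_⟩
  · intro t ht h0
    have g2 := (hNt t ht).2
    rw [h0, zero_mul, zero_sub, norm_neg, norm_one] at g2
    have : δ ^ C < 1 := Real.rpow_lt_one hδ.le (by linarith) hC0'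
    linarith
  · intro s hs
    have cPQ : Continuous fun t : ℝ => AS s y K (pw δ t) * (starRingEnd ℂ) (AS ((starRingEnd ℂ) s) y K (pw δ t)) :=
      (CM.AS_cont s y K δ).mul (Complex.continuous_conj.comp (CM.AS_cont _ y K δ))
    exact intN _ _ (CM.zeta_meas δ hδ hδ16 s) cPQ X N hNm hNX _ fun t ht => hpt t ht s hs
  rintro ⟨h, k⟩ hqH s hs
  obtain ⟨hh, hk, hcop⟩ := hH _ hqH
  simp only at hh hk hcop
  have hwin' := hwin _ hqH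
  have hd1' := hd1 _ hqH
  have hd2' := hd2 _ hqH s hs
  have hAq' := hAq _ hqH
  simp only at hwin' hd1' hd2' hAq' ⊢
  obtain ⟨Aq, hAqd⟩ : ∃ Aq : ℝ, Aq = ((h : ℝ) * k) * ((h : ℝ) + k) := ⟨_, rfl⟩
  rw [← hAqd] at hwin' hAq'
  have hs' : ‖(starRingEnd ℂ) s‖ ≤ R := by rwa [RCLike.norm_conj]
  obtain ⟨P, hP⟩ : ∃ P : ℝ → ℂ, P = fun t => AS s y K (pw δ t) := ⟨_, rfl⟩
  obtain ⟨P', hP'⟩ : ∃ P' : ℝ → ℂ, P' = fun t => chr h k t * P t := ⟨_, rfl⟩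
  obtain ⟨Q, hQ⟩ : ∃ Q : ℝ → ℂ, Q = fun t => AS ((starRingEnd ℂ) s) y K (pw δ t) := ⟨_, rfl⟩
  have hPc : Continuous P := by rw [hP]; exact CM.AS_cont s y K δ
  have hPc' : Continuous P' := by rw [hP']; exact (chr_cont h k).mul hPc
  have hQc : Continuous Q := by rw [hQ]; exact CM.AS_cont _ y K δ
  have hPn : ∀ t, ‖P' t‖ = ‖P t‖ := fun t => by rw [hP', norm_mul, chr_norm, one_mul]
  have hKC4 : C4 * ((K + 1) * Real.log y) ≤ Real.log X :=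
    (mul_le_mul_of_nonneg_right hCC4 hKly).trans hKX
  obtain ⟨Z, hZ⟩ : ∃ Z : ℂ, Z = ∫ t in N, chr h k t * ((‖riemannZeta (pw δ t)‖ : ℝ) : ℂ) ^ (2 * s) := ⟨_, rfl⟩
  obtain ⟨I1, hI1⟩ : ∃ I1 : ℂ, I1 = ∫ t in N, P' t * (starRingEnd ℂ) (Q t) := ⟨_, rfl⟩
  obtain ⟨I2, hI2⟩ : ∃ I2 : ℂ, I2 = ∫ t in (0:ℝ)..X, P' t * (starRingEnd ℂ) (Q t) := ⟨_, rfl⟩
  obtain ⟨c, hcd⟩ : ∃ c : ℝ, c = ((h : ℝ) * k) ^ (-(1 / 2 + δ)) := ⟨_, rfl⟩
  obtain ⟨S1, hS1⟩ : ∃ S1 : ℂ, S1 = ∑ n ∈ GS y K h k, tw h k s δ n := ⟨_, rfl⟩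
  obtain ⟨S2, hS2⟩ : ∃ S2 : ℂ, S2 = ∑' n : ℕ, tw h k s δ n := ⟨_, rfl⟩
  obtain ⟨q, hq⟩ : ∃ q : ℝ, q = δ ^ (R ^ 2 + 2) := ⟨_, rfl⟩
  have hq0 : 0 < q := by rw [hq]; exact Real.rpow_pos_of_pos hδ _
  have h01 : (1 : ℝ) ≤ h := by exact_mod_cast Nat.one_le_iff_ne_zero.2 hh
  have k01 : (1 : ℝ) ≤ k := by exact_mod_cast Nat.one_le_iff_ne_zero.2 hk
  have hhk : 1 ≤ (h : ℝ) * k := one_le_mul_of_one_le_of_one_le h01 k01
  have c1 : c ≤ 1 := by rw [hcd]; exact Real.rpow_le_one_of_one_le_of_nonpos hhk (by linarith)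
  have c0 : 0 ≤ c := by rw [hcd]; positivity
  have t1 : ‖Z - I1‖ ≤ q * X := by
    rw [hZ, hI1]
    have mZ : Measurable fun t : ℝ => chr h k t * ((‖riemannZeta (pw δ t)‖ : ℝ) : ℂ) ^ (2 * s) :=
      (chr_cont h k).measurable.mul (CM.zeta_meas δ hδ hδ16 s)
    have cPQ : Continuous fun t : ℝ => P' t * (starRingEnd ℂ) (Q t) := hPc'.mul (Complex.continuous_conj.comp hQc)
    refine CM.cmpN _ _ mZ cPQ X hX0.le N hNm hNX q hq0.le ?_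
    intro t ht
    have e : chr h k t * ((‖riemannZeta (pw δ t)‖ : ℝ) : ℂ) ^ (2 * s) - P' t * (starRingEnd ℂ) (Q t) =
        chr h k t * (((‖riemannZeta (pw δ t)‖ : ℝ) : ℂ) ^ (2 * s) - P t * (starRingEnd ℂ) (Q t)) := by
      rw [hP']
      ring
    rw [e, norm_mul, chr_norm, one_mul, hP, hQ, hq]
    exact hpt t ht s hs
  have t2 : ‖I1 - I2‖ ≤ q * X := by
    rw [hI1, hI2]
    have hl0 : 0 < δ ^ ((D1 + C4) / 2) := Real.rpow_pos_of_pos hδ _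
    have g1 := CM.bad P' Q hPc' hQc X hX0.le N hNm hNX (X * δ ^ (-C4)) (δ ^ D1 * X)
      (δ ^ ((D1 + C4) / 2)) hl0 (by positivity)
      (by simp only [hPn]; rw [hP]; exact hC4 y K δ X hy hδ hδ16 hX0 hKC4 s hs)
      (by rw [hQ]; exact hC4 y K δ X hy hδ hδ16 hX0 hKC4 _ hs') hNv
    refine g1.trans ?_
    have g2 : δ ^ ((D1 + C4) / 2) * δ ^ (-C4) = δ ^ ((D1 - C4) / 2) := by
      rw [← Real.rpow_add hδ]
      congr 1
      ring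
    have g3 : δ ^ D1 / δ ^ ((D1 + C4) / 2) = δ ^ ((D1 - C4) / 2) := by
      rw [← Real.rpow_sub hδ]
      congr 1
      ring
    have g4 : δ ^ ((D1 - C4) / 2) ≤ q := by
      rw [hq]
      exact Real.rpow_le_rpow_of_exponent_ge hδ hδ1' (by linarith)
    have e : δ ^ ((D1 + C4) / 2) / 2 * (X * δ ^ (-C4)) + δ ^ D1 * X / (2 * δ ^ ((D1 + C4) / 2)) =
        (δ ^ ((D1 + C4) / 2) * δ ^ (-C4)) * X / 2 + (δ ^ D1 / δ ^ ((D1 + C4) / 2)) * X / 2 := by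
      field_simp
    rw [e, g2, g3]
    nlinarith
  have t3 : ‖I2 - X * ((c : ℂ) * S1)‖ ≤ q * X := by
    have g1 := mvt hV hh hk hcop (hC0 y hy K).1 hδ.le (by linarith : δ ≤ 1 / 2) hX0.le s
    have e2 : (∫ t in (0:ℝ)..X, chr h k t * (AS s y K (pw δ t) *
      (starRingEnd ℂ) (AS ((starRingEnd ℂ) s) y K (pw δ t)))) = I2 := by
      rw [hI2, hP', hP, hQ]
      congr 1
      funext t
      ring
    rw [e2, ← hcd, ← hS1] at g1
    refine g1.trans ?_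
    have g2 := (hC0 y hy K).2 s hs
    have g3 := (hC0 y hy K).2 _ hs'
    have g4 : 4 * Real.exp (K * Real.log y) * (∑ n ∈ FS y K, ‖dS s n‖) *
        (∑ n ∈ FS y K, ‖dS ((starRingEnd ℂ) s) n‖) ≤ 4 * Real.exp (K * Real.log y) *
        Real.exp (C0 * ((K + 1) * Real.log y)) * Real.exp (C0 * ((K + 1) * Real.log y)) := by
      have k1 : 0 ≤ ∑ n ∈ FS y K, ‖dS ((starRingEnd ℂ) s) n‖ :=
        Finset.sum_nonneg fun _ _ => norm_nonneg _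
      have k2 : 0 ≤ ∑ n ∈ FS y K, ‖dS s n‖ := Finset.sum_nonneg fun _ _ => norm_nonneg _
      gcongr
    have g5 : 4 * Real.exp (K * Real.log y) *
        Real.exp (C0 * ((K + 1) * Real.log y)) * Real.exp (C0 * ((K + 1) * Real.log y)) ≤
        4 * X ^ ((1 : ℝ) / 2) := by
      rw [mul_assoc, mul_assoc, ← Real.exp_add, ← Real.exp_add, Real.rpow_def_of_pos hX0]
      refine mul_le_mul_of_nonneg_left (Real.exp_le_exp.2 ?_) (by norm_num)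
      have k1 := (mul_le_mul_of_nonneg_right hCC0 hKly).trans hKX
      nlinarith
    have g45 := mul_le_mul_of_nonneg_left (g4.trans g5) hAq'.le
    have e7 : (h : ℝ) * k * (((h : ℝ) + k) * (4 * Real.exp (K * Real.log y) * (∑ n ∈ FS y K, ‖dS s n‖) *
        ∑ n ∈ FS y K, ‖dS ((starRingEnd ℂ) s) n‖)) = Aq * (4 * Real.exp (K * Real.log y) *
        (∑ n ∈ FS y K, ‖dS s n‖) * (∑ n ∈ FS y K, ‖dS ((starRingEnd ℂ) s) n‖)) := by
      rw [hAqd]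
      ring
    rw [e7]
    refine g45.trans ?_
    have g6 : q * δ ^ (-(R ^ 2 + 2)) = 1 := by
      rw [hq, ← Real.rpow_add hδ, add_neg_cancel, Real.rpow_zero]
    have g7 : X ^ ((1 : ℝ) / 2) * X ^ ((1 : ℝ) / 2) = X := by
      rw [← Real.rpow_add hX0]
      norm_num
    have g8 : 0 < X ^ ((1 : ℝ) / 2) := Real.rpow_pos_of_pos hX0 _
    have g9 : 1 ≤ q * (1 / (4 * Aq) * X ^ ((1 : ℝ) / 2)) :=
      g6.symm.le.trans (mul_le_mul_of_nonneg_left hwin' hq0.le)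
    have g10 : 4 * Aq ≤ q * X ^ ((1 : ℝ) / 2) := by
      have h5 := mul_le_mul_of_nonneg_left g9 (by positivity : 0 ≤ 4 * Aq)
      have h6 : 4 * Aq * (q * (1 / (4 * Aq) * X ^ ((1 : ℝ) / 2))) = q * X ^ ((1 : ℝ) / 2) := by
        field_simp
      rw [h6, mul_one] at h5
      exact h5
    calc Aq * (4 * X ^ ((1 : ℝ) / 2)) = (4 * Aq) * X ^ ((1 : ℝ) / 2) := by ring
      _ ≤ (q * X ^ ((1 : ℝ) / 2)) * X ^ ((1 : ℝ) / 2) := mul_le_mul_of_nonneg_right g10 g8.le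
      _ = q * X := by rw [mul_assoc, g7]
  have t4 : ‖(c : ℂ) * (S1 - S2)‖ ≤ q := by
    rw [norm_mul, Complex.norm_real, Real.norm_of_nonneg c0]
    have h5 : ‖S1 - S2‖ ≤ q := by
      rw [hS1, hS2, hq]
      exact hd1' y K hy ((mul_le_mul_of_nonneg_right hCC1 (by rw [← hL]; exact hL0.le)).trans
        (by rw [← hL]; exact hy1)) ((mul_le_mul_of_nonneg_right hCC1 (by rw [← hL]; exact hL0.le)).trans
        (by rw [← hL]; exact hK1)) s hs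
    calc c * ‖S1 - S2‖ ≤ 1 * q := mul_le_mul c1 h5 (norm_nonneg _) zero_le_one
      _ = q := one_mul _
  have t5 : ‖((2 * δ : ℝ) : ℂ) ^ (s ^ 2) * ((c : ℂ) * S2) - ta h k s‖ ≤ ε / 2 := by
    rw [hS2, hcd]
    exact hd2'
  have t6 := CM.cpow_norm hδ hδ16 s hs
  obtain ⟨u, hu⟩ : ∃ u : ℂ, u = ((2 * δ : ℝ) : ℂ) ^ (s ^ 2) := ⟨_, rfl⟩
  rw [← hZ, ← hu]
  rw [← hu] at t5 t6
  have e : u * Z - X * ta h k s = u * ((Z - I1) + (I1 - I2) + (I2 - X * ((c : ℂ) * S1)) + X * ((c : ℂ) * (S1 - S2))) +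
      X * (u * ((c : ℂ) * S2) - ta h k s) := by ring
  rw [e]
  have n1 : ‖(Z - I1) + (I1 - I2) + (I2 - X * ((c : ℂ) * S1)) + X * ((c : ℂ) * (S1 - S2))‖ ≤ 4 * (q * X) := by
    have k1 := norm_add_le ((Z - I1) + (I1 - I2) + (I2 - X * ((c : ℂ) * S1))) (X * ((c : ℂ) * (S1 - S2)))
    have k2 := norm_add_le ((Z - I1) + (I1 - I2)) (I2 - X * ((c : ℂ) * S1))
    have k3 := norm_add_le (Z - I1) (I1 - I2)
    have k4 : ‖(X : ℂ) * ((c : ℂ) * (S1 - S2))‖ ≤ q * X := by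
      rw [norm_mul, Complex.norm_real, Real.norm_eq_abs, abs_of_pos hX0, mul_comm]
      exact mul_le_mul_of_nonneg_right t4 hX0.le
    linarith
  have n2 : ‖u * ((Z - I1) + (I1 - I2) + (I2 - X * ((c : ℂ) * S1)) + X * ((c : ℂ) * (S1 - S2)))‖ ≤ ε / 2 * X := by
    rw [norm_mul]
    refine (mul_le_mul t6 n1 (norm_nonneg _) (Real.rpow_pos_of_pos hδ _).le).trans ?_
    have k1 : δ ^ (-(R ^ 2)) * q = δ ^ (2 : ℝ) := by
      rw [hq, ← Real.rpow_add hδ]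
      congr 1
      ring
    calc δ ^ (-(R ^ 2)) * (4 * (q * X)) = (4 * (δ ^ (-(R ^ 2)) * q)) * X := by ring
      _ = (4 * δ ^ (2 : ℝ)) * X := by rw [k1]
      _ ≤ ε / 2 * X := mul_le_mul_of_nonneg_right hsm hX0.le
  have n3 : ‖(X : ℂ) * (u * ((c : ℂ) * S2) - ta h k s)‖ ≤ ε / 2 * X := by
    rw [norm_mul, Complex.norm_real, Real.norm_eq_abs, abs_of_pos hX0, mul_comm]
    exact mul_le_mul_of_nonneg_right t5 hX0.le
  refine (norm_add_le _ _).trans ?_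
  linarith

end Pool.Agent.U899.TM
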