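import Pool.Agent.U899.TM.LDW
import Pool.Agent.N748.MG.TMA

set_option autoImplicit false

/-! Truncated moments with a weight, supercritical level. -/

namespace Pool.Agent.U899.TM.TMAW

open Finset Filter MeasureTheory Topology Complex
open Pool.Agent.N748.MG

/-- the real form of (CM) at a real point -/
lemma real_form {w : ℝ → ℝ} {G : ℂ → ℂ} (δ T k ε : ℝ) (N : Set ℝ) (hδ : 0 < δ)
    (h : ‖((2 * δ : ℝ) : ℂ) ^ ((k : ℂ) ^ 2) *
      (∫ t in N, ((w t : ℝ) : ℂ) * ((‖riemannZeta (pw δ t)‖ : ℝ) : ℂ) ^ (2 * (k : ℂ))) - T * G k‖ ≤ ε * T) :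
    |(2 * δ) ^ (k ^ 2) * (∫ t in N, w t * mz δ t ^ (2 * k)) - T * (G k).re| ≤ ε * T := by
  have e1 : ((k : ℂ) ^ 2) = ((k ^ 2 : ℝ) : ℂ) := by push_cast; rfl
  have e2 : (2 * (k : ℂ)) = ((2 * k : ℝ) : ℂ) := by push_cast; rfl
  have e3 : (fun t : ℝ => ((w t : ℝ) : ℂ) * ((‖riemannZeta (pw δ t)‖ : ℝ) : ℂ) ^ ((2 * k : ℝ) : ℂ)) =
      fun t : ℝ => ((w t * mz δ t ^ (2 * k) : ℝ) : ℂ) := by
    funext t
    have e4 : ((‖riemannZeta (pw δ t)‖ : ℝ) : ℂ) ^ ((2 * k : ℝ) : ℂ) = ((mz δ t ^ (2 * k) : ℝ) : ℂ) :=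
      (Complex.ofReal_cpow (norm_nonneg _) _).symm
    rw [e4, Complex.ofReal_mul (w t)]
  rw [e1, e2, e3, integral_complex_ofReal, ← Complex.ofReal_cpow (by positivity)] at h
  refine le_trans ?_ h
  have h2 := Complex.abs_re_le_norm (((((2 * δ) ^ (k ^ 2) : ℝ) : ℂ)) *
    ((∫ t in N, w t * mz δ t ^ (2 * k) : ℝ) : ℂ) - (T : ℂ) * G k)
  refine le_trans (le_of_eq ?_) h2
  congr 1
  rw [Complex.sub_re, Complex.re_ofReal_mul, Complex.re_ofReal_mul, Complex.ofReal_re]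

/-- integrability from a nonzero integral -/
lemma int_of {w : ℝ → ℝ} {G : ℂ → ℂ} {δ T k ε : ℝ} {N : Set ℝ} (hT : 0 < T)
    (h : |(2 * δ) ^ (k ^ 2) * (∫ t in N, w t * mz δ t ^ (2 * k)) - T * (G k).re| ≤ ε * T)
    (hε : ε < (G k).re) : IntegrableOn (fun t => w t * mz δ t ^ (2 * k)) N := by
  by_contra hcon
  have h0 : ∫ t in N, w t * mz δ t ^ (2 * k) = 0 := integral_undef hcon
  rw [h0, mul_zero, zero_sub, abs_neg] at h
  have h1 := le_abs_self (T * (G k).re)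
  nlinarith

theorem gen {w : ℝ → ℝ} {G : ℂ → ℂ} (hw : Measurable w) (w0 : ∀ t, 0 ≤ w t) {K : ℝ} (hK : 0 < K) (wK : ∀ t, w t ≤ K)
    (h : LDW.WCM w G) (d : ℝ → ℝ) (hd : Ad d) (k V : ℝ) (hkV : 0 < k * V) (hne : k ≠ V)
    {rk rV : ℝ} (hrk : 0 < rk) (hrk2 : G k = rk) (hrV : 0 < rV) (hrV2 : G V = rV)
    (E : ℝ → Set ℝ)
    (hE : ∀ᶠ T : ℝ in atTop, MeasurableSet (E T) ∧ E T ⊆ Set.Icc 0 T ∧
      (∀ t ∈ E T, mz (d T) t ^ (2 * k) ≤ ((2 * d T) ^ (-V)) ^ (2 * k)) ∧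
      ∀ t ∈ Set.Icc 0 T \ E T, 0 < mz (d T) t →
        mz (d T) t ^ (2 * k) ≤ ((2 * d T) ^ (-V)) ^ (2 * (k - V)) * mz (d T) t ^ (2 * V)) :
    Tendsto (fun T : ℝ => (2 * d T) ^ (k ^ 2) * ((1 / T) * ∫ t in E T, w t * mz (d T) t ^ (2 * k))) atTop
      (𝓝 (G k).re) := by
  have hk' : (G k).re = rk := by rw [hrk2, Complex.ofReal_re]
  have hV' : (G V).re = rV := by rw [hrV2, Complex.ofReal_re]
  have hk0 : k ^ 2 + 2 > 0 := by positivity
  set D : ℝ := 2 * (k * V) + 2 with hD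
  have hD0 : 0 < D := by rw [hD]; linarith
  set η : ℝ := (k - V) ^ 2 with hη
  have hη0 : 0 < η := by
    have : k - V ≠ 0 := sub_ne_zero.2 hne
    positivity
  rw [Metric.tendsto_nhds]
  intro ε hε
  set ε0 : ℝ := min (ε / 4) (min (rk / 2) (rV / 2)) with hε0
  have hε0p : 0 < ε0 := lt_min (by positivity) (lt_min (by positivity) (by positivity))
  have hε1 : ε0 ≤ ε / 4 := min_le_left _ _
  have hε2 : ε0 < rk := ((min_le_right _ _).trans (min_le_left _ _)).trans_lt (by linarith)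
  have hε3 : ε0 < rV := ((min_le_right _ _).trans (min_le_right _ _)).trans_lt (by linarith)
  have g1 := (h (|k| + |V| + 1) D (by positivity) hD0 ε0 hε0p).app hd
  have g2 := (Ev.small (C := 2 ^ η * (2 * rV)) (c := η) (e := ε / 4) hη0 (by positivity)).app hd
  have g3 := (Ev.small (C := K * 2 ^ (k ^ 2 + 2)) (c := k ^ 2 + 2) (e := ε / 4) hk0 (by positivity)).app hd
  have g4 := (Ev.of_le (d := 1 / 16) (by norm_num)).app hd
  filter_upwards [g1, g2, g3, g4, hd.pos, hE, eventually_gt_atTop 0] with T g1 g2 g3 g4 g5 g6 hT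
  obtain ⟨N, n1, n2, n3, n4, n5⟩ := g1
  obtain ⟨E1, E2, E3, E4⟩ := g6
  set δ : ℝ := d T with hδ
  have hkn : ‖(k : ℂ)‖ ≤ |k| + |V| + 1 := by
    rw [Complex.norm_real, Real.norm_eq_abs]
    linarith [abs_nonneg V]
  have hVn : ‖(V : ℂ)‖ ≤ |k| + |V| + 1 := by
    rw [Complex.norm_real, Real.norm_eq_abs]
    linarith [abs_nonneg k]
  have f1 := real_form δ T k ε0 N g5 (n5 k hkn)
  have f2 := real_form δ T V ε0 N g5 (n5 V hVn)
  have j1 := int_of hT f1 (by rw [hk']; exact hε2)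
  have j2 := int_of hT f2 (by rw [hV']; exact hε3)
  rw [hk'] at f1
  rw [hV'] at f2
  have h2δ : 0 < 2 * δ := by positivity
  set c : ℝ := (2 * δ) ^ (-V) with hc
  have hc0 : 0 < c := Real.rpow_pos_of_pos h2δ _
  have hcmp := TMA.cmp (g := fun t => w t * mz δ t ^ (2 * k)) (G := fun t => w t * mz δ t ^ (2 * V)) (N := N) (E := E T)
    (T := T) (a := c ^ (2 * (k - V))) (b := K * c ^ (2 * k)) (v := δ ^ D * T) n1 E1 E2
    (fun t => mul_nonneg (w0 t) (Real.rpow_nonneg (TMA.mz_nn _ _) _))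
    (fun t => mul_nonneg (w0 t) (Real.rpow_nonneg (TMA.mz_nn _ _) _))
    (Real.rpow_pos_of_pos hc0 _).le (by positivity) (by positivity)
    (hw.mul ((TMA.cont g4).measurable.pow_const _)) j1 j2
    (fun t ht => mul_le_mul (wK t) (E3 t ht) (Real.rpow_nonneg (TMA.mz_nn _ _) _) hK.le)
    (fun t ht => by
      have h5 := mul_le_mul_of_nonneg_left (E4 t ⟨n2 ht.1, ht.2⟩ (norm_pos_iff.2 (n4 t ht.1))) (w0 t)
      refine h5.trans (le_of_eq ?_)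
      ring) n3
  set IE : ℝ := ∫ t in E T, w t * mz δ t ^ (2 * k) with hIE
  set Ik : ℝ := ∫ t in N, w t * mz δ t ^ (2 * k) with hIk
  set IV : ℝ := ∫ t in N, w t * mz δ t ^ (2 * V) with hIV
  have p1 : (2 * δ) ^ (k ^ 2) * (c ^ (2 * (k - V)) * IV) ≤ ε / 4 * T := by
    have q1 : (2 * δ) ^ (V ^ 2) * IV ≤ 2 * rV * T := by
      have := (abs_le.1 f2).2
      nlinarith
    have q2 : (2 * δ) ^ (k ^ 2) * (c ^ (2 * (k - V)) * IV) = (2 * δ) ^ η * ((2 * δ) ^ (V ^ 2) * IV) := by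
      rw [← mul_assoc, ← mul_assoc, hc, ← Real.rpow_mul h2δ.le, ← Real.rpow_add h2δ, ← Real.rpow_add h2δ]
      congr 2
      rw [hη]
      ring
    rw [q2]
    calc (2 * δ) ^ η * ((2 * δ) ^ (V ^ 2) * IV) ≤ (2 * δ) ^ η * (2 * rV * T) :=
          mul_le_mul_of_nonneg_left q1 (Real.rpow_nonneg h2δ.le _)
      _ = (2 ^ η * (2 * rV) * δ ^ η) * T := by
          rw [Real.mul_rpow (by norm_num) g5.le]
          ring
      _ ≤ ε / 4 * T := mul_le_mul_of_nonneg_right g2 hT.le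
  have p2 : (2 * δ) ^ (k ^ 2) * (K * c ^ (2 * k) * (δ ^ D * T)) ≤ ε / 4 * T := by
    have q1 : δ ^ D ≤ (2 * δ) ^ D := Real.rpow_le_rpow g5.le (by linarith) hD0.le
    have q2 : (2 * δ) ^ (k ^ 2) * (c ^ (2 * k) * ((2 * δ) ^ D * T)) = (2 * δ) ^ (k ^ 2 + 2) * T := by
      rw [← mul_assoc, ← mul_assoc, hc, ← Real.rpow_mul h2δ.le, ← Real.rpow_add h2δ,
        ← Real.rpow_add h2δ]
      congr 2
      rw [hD]
      ring
    calc (2 * δ) ^ (k ^ 2) * (K * c ^ (2 * k) * (δ ^ D * T)) =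
        K * ((2 * δ) ^ (k ^ 2) * (c ^ (2 * k) * (δ ^ D * T))) := by ring
      _ ≤ K * ((2 * δ) ^ (k ^ 2) * (c ^ (2 * k) * ((2 * δ) ^ D * T))) := by gcongr
      _ = K * ((2 * δ) ^ (k ^ 2 + 2) * T) := by rw [q2]
      _ = (K * 2 ^ (k ^ 2 + 2) * δ ^ (k ^ 2 + 2)) * T := by
          rw [Real.mul_rpow (by norm_num) g5.le]
          ring
      _ ≤ ε / 4 * T := mul_le_mul_of_nonneg_right g3 hT.le
  have p3 : |(2 * δ) ^ (k ^ 2) * IE - T * rk| ≤ 3 * (ε / 4) * T := by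
    have q0 : 0 < (2 * δ) ^ (k ^ 2) := Real.rpow_pos_of_pos h2δ _
    have q1 : |(2 * δ) ^ (k ^ 2) * (IE - Ik)| ≤ ε / 4 * T + ε / 4 * T := by
      rw [abs_mul, abs_of_pos q0]
      calc (2 * δ) ^ (k ^ 2) * |IE - Ik| ≤
          (2 * δ) ^ (k ^ 2) * (c ^ (2 * (k - V)) * IV + K * c ^ (2 * k) * (δ ^ D * T)) :=
            mul_le_mul_of_nonneg_left hcmp q0.le
        _ ≤ _ := by
            rw [mul_add]
            exact add_le_add p1 p2
    have q2 : (2 * δ) ^ (k ^ 2) * IE - T * rk =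
        (2 * δ) ^ (k ^ 2) * (IE - Ik) + ((2 * δ) ^ (k ^ 2) * Ik - T * rk) := by ring
    rw [q2]
    refine (abs_add_le _ _).trans ?_
    have q3 : ε0 * T ≤ ε / 4 * T := mul_le_mul_of_nonneg_right hε1 hT.le
    linarith
  rw [Real.dist_eq, hk']
  have e6 : (2 * δ) ^ (k ^ 2) * (1 / T * IE) - rk = 1 / T * ((2 * δ) ^ (k ^ 2) * IE - T * rk) := by
    field_simp
  rw [e6, abs_mul, abs_of_pos (by positivity : 0 < 1 / T)]
  calc 1 / T * |(2 * δ) ^ (k ^ 2) * IE - T * rk| ≤ 1 / T * (3 * (ε / 4) * T) :=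
        mul_le_mul_of_nonneg_left p3 (by positivity)
    _ = 3 * (ε / 4) := by field_simp
    _ < ε := by linarith


end Pool.Agent.U899.TM.TMAW
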