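import Pool.Agent.U899.TM.Lift
import Pool.Agent.U899.TM.TMAW

set_option autoImplicit false

/-! Truncated moments of all orders jointly with the phases of the small primes. -/

namespace Pool.Agent.U899.TM

open Finset Filter MeasureTheory Topology Complex UnitAddTorus
open Pool.Agent.N748.MG
open Pool.Agent.N748.GC (chr lw M0 E0 HP pt)
open Pool.Agent.N748.GC.EQ (hN kN)

theorem re_pos {c : ℂ} (hc : ‖c‖ ≤ 1) (V : ℝ) {P : Finset ℕ} (hP : ∀ p ∈ P, p.Prime) (n : P → ℤ) :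
    0 < 2 + (c * mm V P n).re := by
  have hm1 := Complex.abs_re_le_norm (c * mm V P n)
  rw [norm_mul] at hm1
  have hm2 : ‖c‖ * ‖mm V P n‖ ≤ 1 := by
    calc ‖c‖ * ‖mm V P n‖ ≤ 1 * 1 := mul_le_mul hc (mm_le V hP _) (norm_nonneg _) zero_le_one
      _ = 1 := one_mul _
  linarith [(abs_le.1 (hm1.trans hm2)).1]

theorem Gt_valN {P : Finset ℕ} (hP : ∀ p ∈ P, p.Prime) (n : P → ℤ) (c : ℂ) (V : ℝ) :
    Gt (hN P (Pool.Agent.U899.TW.ext n)) (kN P (Pool.Agent.U899.TW.ext n)) c V =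
      ((akR V * (2 + (c * mm V P n).re) : ℝ) : ℂ) := by
  have hn : (fun p : P => Pool.Agent.U899.TW.ext n (p : ℕ)) = n := by funext p; exact Pool.Agent.U899.TW.ext_mem n p
  have h := Gt_val hP (Pool.Agent.U899.TW.ext n) c V (aC_akR V).2
  rwa [hn] at h

theorem wcmN {P : Finset ℕ} (hP : ∀ p ∈ P, p.Prime) (n : P → ℤ) {c : ℂ} (hc : ‖c‖ ≤ 1) :
    LDW.WCM (wt (hN P (Pool.Agent.U899.TW.ext n)) (kN P (Pool.Agent.U899.TW.ext n)) c)
      (Gt (hN P (Pool.Agent.U899.TW.ext n)) (kN P (Pool.Agent.U899.TW.ext n)) c) :=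
  wcm (Pool.Agent.N748.GC.EQ.pow_ne hP _) (Pool.Agent.N748.GC.EQ.pow_ne hP _) (Pool.Agent.N748.GC.EQ.hkN_coprime hP _) hc

/-- above the critical level, in general -/
theorem superG {P : Finset ℕ} (hP : ∀ p ∈ P, p.Prime) {F : (P → UnitAddCircle) → ℝ} (hF : Continuous F)
    {d : ℝ → ℝ} (hd : Ad d) (k V : ℝ) (hkV : 0 < k * V) (hne : k ≠ V) (E : ℝ → Set ℝ)
    (hE : ∀ᶠ T : ℝ in atTop, MeasurableSet (E T) ∧ E T ⊆ Set.Icc 0 T ∧
      (∀ t ∈ E T, mz (d T) t ^ (2 * k) ≤ ((2 * d T) ^ (-V)) ^ (2 * k)) ∧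
      ∀ t ∈ Set.Icc 0 T \ E T, 0 < mz (d T) t →
        mz (d T) t ^ (2 * k) ≤ ((2 * d T) ^ (-V)) ^ (2 * (k - V)) * mz (d T) t ^ (2 * V)) :
    Tendsto (fun T : ℝ => (2 * d T) ^ (k ^ 2) * ((1 / T) * ∫ t in E T, F (pt P t) * mz (d T) t ^ (2 * k))) atTop
      (𝓝 (akR k * tm k P F)) := by
  have key := liftR hP hF (fun T => (2 * d T) ^ (k ^ 2) * (1 / T)) E (fun T t => mz (d T) t ^ (2 * k)) ?_ ?_
    (fun T t => Real.rpow_nonneg (norm_nonneg _) _) ?_ k (akR k) ?_
  · refine key.congr fun T => ?_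
    ring
  · filter_upwards [small_ev hd] with T hT
    have h1 := hT.1
    have h2 := hT.2.2
    positivity
  · filter_upwards [small_ev hd] with T hT
    exact (TMA.cont hT.2.1).measurable.pow_const _
  · filter_upwards [small_ev hd, hE] with T hT hET
    refine Measure.integrableOn_of_bounded (M := ((2 * d T) ^ (-V)) ^ (2 * k)) ?_
      ((TMA.cont hT.2.1).measurable.pow_const _).aestronglyMeasurable ?_
    · refine ((measure_mono hET.2.1).trans_lt ?_).ne
      rw [Real.volume_Icc]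
      exact ENNReal.ofReal_lt_top
    · filter_upwards [ae_restrict_mem hET.1] with t ht
      rw [Real.norm_of_nonneg (Real.rpow_nonneg (TMA.mz_nn _ _) _)]
      exact hET.2.2.1 t ht
  · intro n c hc
    have h1 := TMAW.gen (wt_cont _ _ c).measurable (fun t => zero_le_one.trans (wt_bd hc _ _ t).1) (by norm_num : (0:ℝ) < 3)
      (fun t => (wt_bd hc _ _ t).2) (wcmN hP n hc) d hd k V hkV hne
      (mul_pos (aC_akR k).1 (re_pos hc k hP n)) (Gt_valN hP n c k) (mul_pos (aC_akR V).1 (re_pos hc V hP n)) (Gt_valN hP n c V) E hE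
    rw [Gt_valN hP n c k, Complex.ofReal_re] at h1
    refine h1.congr fun T => ?_
    ring

/-- above the critical level -/
theorem superF {P : Finset ℕ} (hP : ∀ p ∈ P, p.Prime) {F : (P → UnitAddCircle) → ℝ} (hF : Continuous F)
    {d : ℝ → ℝ} (hd : Ad d) {k V : ℝ} (hk : 0 < k) (hV : k < V) :
    Tendsto (fun T : ℝ => (2 * d T) ^ (k ^ 2) * ((1 / T) * ∫ t in {t : ℝ | t ∈ Set.Icc 0 T ∧ mz (d T) t ≤ (2 * d T) ^ (-V)},
      F (pt P t) * mz (d T) t ^ (2 * k))) atTop (𝓝 (akR k * tm k P F)) := by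
  refine superG hP hF hd k V (by nlinarith) hV.ne _ ?_
  filter_upwards [(Ev.of_le (d := 1 / 16) (by norm_num)).app hd, hd.pos] with T g4 g5
  have hc0 : 0 < (2 * d T) ^ (-V) := Real.rpow_pos_of_pos (by positivity) _
  refine ⟨measurableSet_Icc.inter (measurableSet_le (TMA.cont g4).measurable measurable_const),
    fun t ht => ht.1, fun t ht => ?_, fun t ht h0 => ?_⟩
  · exact Real.rpow_le_rpow (TMA.mz_nn _ _) ht.2 (by linarith)
  · have h1 : (2 * d T) ^ (-V) ≤ mz (d T) t := by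
      by_contra hcon
      exact ht.2 ⟨ht.1, (not_le.1 hcon).le⟩
    have h2 : mz (d T) t ^ (2 * (k - V)) ≤ ((2 * d T) ^ (-V)) ^ (2 * (k - V)) :=
      Real.rpow_le_rpow_of_nonpos hc0 h1 (by linarith)
    calc mz (d T) t ^ (2 * k) = mz (d T) t ^ (2 * (k - V)) * mz (d T) t ^ (2 * V) := by
          rw [← Real.rpow_add h0]
          congr 1
          ring
      _ ≤ _ := mul_le_mul_of_nonneg_right h2 (Real.rpow_nonneg h0.le _)

/-- negative orders -/
theorem negF {P : Finset ℕ} (hP : ∀ p ∈ P, p.Prime) {F : (P → UnitAddCircle) → ℝ} (hF : Continuous F)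
    {d : ℝ → ℝ} (hd : Ad d) {k V : ℝ} (hk : k < 0) (hV : V < k) :
    Tendsto (fun T : ℝ => (2 * d T) ^ (k ^ 2) * ((1 / T) * ∫ t in {t : ℝ | t ∈ Set.Icc 0 T ∧ (2 * d T) ^ (-V) ≤ mz (d T) t},
      F (pt P t) * mz (d T) t ^ (2 * k))) atTop (𝓝 (akR k * tm k P F)) := by
  refine superG hP hF hd k V (by nlinarith) hV.ne' _ ?_
  filter_upwards [(Ev.of_le (d := 1 / 16) (by norm_num)).app hd, hd.pos] with T g4 g5
  have hc0 : 0 < (2 * d T) ^ (-V) := Real.rpow_pos_of_pos (by positivity) _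
  refine ⟨measurableSet_Icc.inter (measurableSet_le measurable_const (TMA.cont g4).measurable),
    fun t ht => ht.1, fun t ht => ?_, fun t ht h0 => ?_⟩
  · exact Real.rpow_le_rpow_of_nonpos hc0 ht.2 (by linarith)
  · have h1 : mz (d T) t ≤ (2 * d T) ^ (-V) := by
      by_contra hcon
      exact ht.2 ⟨ht.1, (not_le.1 hcon).le⟩
    have h2 : mz (d T) t ^ (2 * (k - V)) ≤ ((2 * d T) ^ (-V)) ^ (2 * (k - V)) :=
      Real.rpow_le_rpow h0.le h1 (by linarith)
    calc mz (d T) t ^ (2 * k) = mz (d T) t ^ (2 * (k - V)) * mz (d T) t ^ (2 * V) := by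
          rw [← Real.rpow_add h0]
          congr 1
          ring
      _ ≤ _ := mul_le_mul_of_nonneg_right h2 (Real.rpow_nonneg h0.le _)

/-- the critical window -/
theorem windowF {P : Finset ℕ} (hP : ∀ p ∈ P, p.Prime) {F : (P → UnitAddCircle) → ℝ} (hF : Continuous F)
    {d : ℝ → ℝ} (hd : Ad d) {k : ℝ} (hk : 0 < k) (x : ℝ) :
    Tendsto (fun T : ℝ => (2 * d T) ^ (k ^ 2) * ((1 / T) * ∫ t in {t : ℝ | t ∈ Set.Icc 0 T ∧
      mz (d T) t ≤ (2 * d T) ^ (-k) * Real.exp (x * Real.sqrt (Real.log (1 / (2 * d T)) / 2))},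
      F (pt P t) * mz (d T) t ^ (2 * k))) atTop (𝓝 (akR k * Phi x * tm k P F)) := by
  have hQb : ∀ᶠ T : ℝ in atTop, ∀ z : ℝ, 0 ≤ z →
      z ≤ (2 * d T) ^ (-k) * Real.exp (x * Real.sqrt (Real.log (1 / (2 * d T)) / 2)) →
      z ^ (2 * k) ≤ (2 * d T) ^ (-(2 * k ^ 2) - 1) := by
    filter_upwards [TMB.small hd, (TMB.sq_tendsto hd).eventually_ge_atTop (k * x),
      (TMB.lam_tendsto hd).eventually_ge_atTop 0] with T hT hs hL z hz hz2
    have hs2 : Real.sqrt (Real.log (1 / (2 * d T)) / 2) ^ 2 = Real.log (1 / (2 * d T)) / 2 :=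
      Real.sq_sqrt (by linarith)
    have h0 : 0 ≤ Real.sqrt (Real.log (1 / (2 * d T)) / 2) := Real.sqrt_nonneg _
    have h2 := Real.rpow_le_rpow hz hz2 (by positivity : 0 ≤ 2 * k)
    refine h2.trans ?_
    rw [TMB.rpow_eq hT.1, TMB.rpow_eq hT.1, ← Real.exp_add, ← Real.exp_mul, Real.exp_le_exp]
    nlinarith
  have key := liftR hP hF (fun T => (2 * d T) ^ (k ^ 2) * (1 / T)) (fun T => {t : ℝ | t ∈ Set.Icc 0 T ∧
      mz (d T) t ≤ (2 * d T) ^ (-k) * Real.exp (x * Real.sqrt (Real.log (1 / (2 * d T)) / 2))})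
    (fun T t => mz (d T) t ^ (2 * k)) ?_ ?_
    (fun T t => Real.rpow_nonneg (norm_nonneg _) _) ?_ k (akR k * Phi x) ?_
  · refine key.congr fun T => ?_
    ring
  · filter_upwards [small_ev hd] with T hT
    have h1 := hT.1
    have h2 := hT.2.2
    positivity
  · filter_upwards [small_ev hd] with T hT
    exact (TMA.cont hT.2.1).measurable.pow_const _
  · filter_upwards [small_ev hd, hQb] with T hT hb
    refine Measure.integrableOn_of_bounded (M := (2 * d T) ^ (-(2 * k ^ 2) - 1)) ?_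
      ((TMA.cont hT.2.1).measurable.pow_const _).aestronglyMeasurable ?_
    · refine ((measure_mono (fun t ht => ht.1 : _ ⊆ Set.Icc 0 T)).trans_lt ?_).ne
      rw [Real.volume_Icc]
      exact ENNReal.ofReal_lt_top
    · have hms : MeasurableSet {t : ℝ | t ∈ Set.Icc 0 T ∧
        mz (d T) t ≤ (2 * d T) ^ (-k) * Real.exp (x * Real.sqrt (Real.log (1 / (2 * d T)) / 2))} :=
        measurableSet_Icc.inter (measurableSet_le (TMA.cont hT.2.1).measurable measurable_const)
      filter_upwards [ae_restrict_mem hms] with t ht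
      rw [Real.norm_of_nonneg (Real.rpow_nonneg (TMA.mz_nn _ _) _)]
      exact hb _ (norm_nonneg _) ht.2
  · intro n c hc
    have h1 := TMBW.core (wt_cont _ _ c).measurable (fun t => zero_le_one.trans (wt_bd hc _ _ t).1)
      (fun t => (wt_bd hc _ _ t).2) (Gt_cont _ _ c) (wcmN hP n hc) (mul_pos (aC_akR k).1 (re_pos hc k hP n)) hd k
      (Gt_valN hP n c k) (Set.Iic x) {x} measurableSet_Iic ?_
      (fun T z => z ≤ (2 * d T) ^ (-k) * Real.exp (x * Real.sqrt (Real.log (1 / (2 * d T)) / 2)))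
      (fun T => measurableSet_Iic) ?_ hQb
    · have e : akR k * Phi x * (2 + (c * mm k P n).re) = akR k * (2 + (c * mm k P n).re) * Phi x := by ring
      rw [e]
      refine h1.congr fun T => ?_
      ring
    · intro y hy
      have hy' : y ≠ x := by simpa using hy
      rcases lt_or_gt_of_ne hy' with h1 | h1
      · refine (continuousAt_const (y := (1 : ℝ))).congr ?_
        filter_upwards [Iio_mem_nhds h1] with z hz
        have : z ∈ Set.Iic x := Set.mem_Iic.2 (le_of_lt hz)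
        rw [Set.indicator_of_mem this]
      · refine (continuousAt_const (y := (0 : ℝ))).congr ?_
        filter_upwards [Ioi_mem_nhds h1] with z hz
        have : z ∉ Set.Iic x := fun h2 => absurd (Set.mem_Iic.1 h2) (not_le.2 hz)
        rw [Set.indicator_of_notMem this]
    · filter_upwards [TMB.small hd, (TMB.sq_tendsto hd).eventually_gt_atTop 0] with T hT hs z hz
      rw [TMB.rpow_eq hT.1, ← Real.exp_add, ← Real.log_le_iff_le_exp hz, Set.mem_Iic, div_le_iff₀ hs]
      constructor <;> intro h1 <;> linarith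

theorem Phi_pos (x : ℝ) : 0 < Phi x := by
  unfold Phi
  rw [ENNReal.toReal_pos_iff]
  refine ⟨?_, measure_lt_top _ _⟩
  rw [pos_iff_ne_zero]
  intro h
  have h2 := ProbabilityTheory.gaussianReal_absolutelyContinuous' 0 one_ne_zero h
  rw [Real.volume_Iic] at h2
  exact ENNReal.top_ne_zero h2

/-- the law of the phases in the truncated moment measure, at every level -/
theorem allLevels {P : Finset ℕ} (hP : ∀ p ∈ P, p.Prime) {F : (P → UnitAddCircle) → ℝ} (hF : Continuous F)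
    {d : ℝ → ℝ} (hd : Ad d) {k : ℝ} (hk : 0 < k) (V : ℝ) :
    Tendsto (fun T : ℝ => (∫ t in {t : ℝ | t ∈ Set.Icc 0 T ∧ mz (d T) t ≤ (2 * d T) ^ (-V)}, F (pt P t) * mz (d T) t ^ (2 * k)) /
      ∫ t in {t : ℝ | t ∈ Set.Icc 0 T ∧ mz (d T) t ≤ (2 * d T) ^ (-V)}, mz (d T) t ^ (2 * k)) atTop
      (𝓝 (tm (min k V) P F)) := by
  have hpow : ∀ᶠ T in atTop, (2 * d T) ^ (k ^ 2) ≠ 0 := by
    filter_upwards [hd.pos] with T hT
    exact (Real.rpow_pos_of_pos (by linarith) _).ne'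
  rcases lt_trichotomy V k with h | h | h
  · rw [min_eq_right h.le]
    refine condF hP hF hd V k (-1) (by norm_num) (by linarith) (by linarith) (Set.Iic 0)
      measurableSet_Iic (fun x hx => by rw [Set.mem_Iic]; linarith)
      (fun x hx => by rw [Set.mem_Iic] at hx; linarith) (TMC.int_neg (by linarith))
      (fun T => {t | mz (d T) t ≤ (2 * d T) ^ (-V)})
      (fun T hT => measurableSet_le (TMC.mz_meas hT) measurable_const) (fun T h0 t ht => by
        rw [Set.mem_ofPred_eq, TMC.level h0, Set.mem_Iic, sub_nonpos, Real.log_le_iff_le_exp ht])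
  · rw [h, min_self]
    have k1 := windowF hP hF hd hk 0
    have k2 := windowF hP (F := fun _ => 1) continuous_const hd hk 0
    rw [tm_one k hP, mul_one] at k2
    simp only [one_mul, zero_mul, Real.exp_zero, mul_one] at k1 k2
    exact quotF (d := d) (mul_pos (aC_akR k).1 (Phi_pos 0)).ne' hpow k1 k2
  · rw [min_eq_left h.le]
    have k1 := superF hP hF hd hk h
    have k2 := superF hP (F := fun _ => 1) continuous_const hd hk h
    rw [tm_one k hP, mul_one] at k2
    simp only [one_mul] at k2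
    exact quotF (d := d) (aC_akR k).1.ne' hpow k1 k2

end Pool.Agent.U899.TM
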