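import Pool.Agent.U899.TM.Dia
import Pool.Agent.N748.MJ.DIA1V

set_option autoImplicit false

/-! The twisted diagonal sums, truncation. -/

namespace Pool.Agent.U899.TM

open Finset Filter MeasureTheory Topology Complex
open Pool.Agent.N748.MG Pool.Agent.N748.MG.L4 Pool.Agent.N748.MG.DIA2

/-- the truncated index set -/
noncomputable def GS (y : ℝ) (K h k : ℕ) : Finset ℕ := by
  classical
  exact (range (⌊y⌋₊ ^ K + 1)).filter fun l => k * l ∈ FS y K ∧ h * l ∈ FS y K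

/-- the majorant -/
noncomputable def rr (k0 : ℕ) (δ : ℝ) (n : ℕ) : ℝ := ‖dS (k0 : ℂ) n‖ ^ 2 * (n : ℝ) ^ (-(1 + 2 * δ))

theorem rr_nn (k0 : ℕ) (δ : ℝ) (n : ℕ) : 0 ≤ rr k0 δ n := by unfold rr; positivity

theorem rr_sum (k0 : ℕ) {δ : ℝ} (hδ : 0 < δ) (hδ1 : δ ≤ 1 / 2) :
    Summable (rr k0 δ) ∧ ∑' n, rr k0 δ n ≤ Real.exp (8 * DIA1.b0 k0) * δ ^ (-((4 : ℝ) ^ k0 * (5 / 4))) := by
  have hk : ‖(k0 : ℂ)‖ ≤ k0 := by rw [Complex.norm_natCast]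
  have hg := DIA1.gg_series hk (η := 2 * δ) (by linarith) (by linarith)
  have hle : ∀ n, rr k0 δ n ≤ DIA1.gg (k0 : ℂ) (2 * δ) n := fun n => by
    have := DIA1.ff_le_gg (k0 : ℂ) δ n
    rwa [DIA1.ff_norm] at this
  have hS : Summable (rr k0 δ) := Summable.of_nonneg_of_le (rr_nn k0 δ) hle hg.1
  refine ⟨hS, (hS.tsum_le_tsum hle hg.1).trans (hg.2.trans (le_of_eq ?_))⟩
  congr 1
  have h1 : (2 : ℝ) / (2 * δ) = δ⁻¹ := by field_simp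
  rw [h1, Real.inv_rpow hδ.le, Real.rpow_neg hδ.le]

theorem rr_tail (h1 : S_DIA1) (k0 : ℕ) {D : ℝ} (hD : 0 < D) :
    ∃ C δ0 : ℝ, 0 < C ∧ 0 < δ0 ∧ δ0 ≤ 1 / 2 ∧ ∀ δ : ℝ, 0 < δ → δ ≤ δ0 → ∀ (y : ℝ) (K : ℕ), 2 ≤ y →
      C * Real.log (1 / δ) ≤ δ * Real.log y → C * Real.log (1 / δ) ≤ K →
      HasSum (fun n => if n ∈ FS y K then 0 else rr k0 δ n) ((∑' n, rr k0 δ n) - ∑ n ∈ FS y K, rr k0 δ n) ∧
      (∑' n, rr k0 δ n) - ∑ n ∈ FS y K, rr k0 δ n ≤ δ ^ D := by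
  obtain ⟨C, δ0, hC, hδ0, h⟩ := h1 (k0 : ℝ) D (Nat.cast_nonneg k0) hD
  refine ⟨C, min δ0 (1 / 2), hC, lt_min hδ0 (by norm_num), min_le_right _ _, ?_⟩
  intro δ hδ hδle y K hy hyl hK
  have hδ1 : δ ≤ 1 / 2 := hδle.trans (min_le_right _ _)
  have hk : ‖(k0 : ℂ)‖ ≤ k0 := by rw [Complex.norm_natCast]
  have hrrS := (rr_sum k0 hδ hδ1).1
  have hff : ∀ n, dS (k0 : ℂ) n ^ 2 * (((n:ℝ) ^ (-(1 + 2 * δ)) : ℝ) : ℂ) = ((rr k0 δ n : ℝ) : ℂ) := by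
    intro n
    unfold rr
    conv_lhs => rw [Pool.Agent.N748.MJ.DIA1V.dS_nat k0 n]
    push_cast
    rfl
  have hT := h δ hδ (hδle.trans (min_le_left _ _)) y K hy hyl hK (k0 : ℂ) hk
  simp only [hff] at hT
  rw [← Complex.ofReal_sum, ← Complex.ofReal_tsum, ← Complex.ofReal_sub, Complex.norm_real,
    Real.norm_eq_abs, abs_sub_comm] at hT
  exact ⟨Pool.Agent.N748.MJ.DIA1V.split (rr k0 δ) hrrS (FS y K), (le_abs_self _).trans hT⟩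

theorem tw_am {h k k0 : ℕ} (hh : h ≠ 0) (hk : k ≠ 0) {δ lam : ℝ} (hδ : 0 < δ) (hδ1 : δ ≤ 1 / 2) (hlam : 0 < lam)
    (l : ℕ) : ‖tw h k (k0 : ℂ) δ l‖ ≤ lam⁻¹ * ((k : ℝ) ^ 2 * rr k0 δ (k * l)) + lam * ((h : ℝ) ^ 2 * rr k0 δ (h * l)) := by
  have key : ∀ q : ℕ, q ≠ 0 → ‖dS (k0 : ℂ) (q * l)‖ ^ 2 * (l : ℝ) ^ (-(1 + 2 * δ)) ≤ (q : ℝ) ^ 2 * rr k0 δ (q * l) := by
    intro q hq
    have hq1 : (1 : ℝ) ≤ q := by exact_mod_cast Nat.one_le_iff_ne_zero.2 hq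
    have hq0 : (0 : ℝ) < q := by linarith
    unfold rr
    push_cast
    rw [Real.mul_rpow (Nat.cast_nonneg _) (Nat.cast_nonneg _)]
    have h3 : 1 ≤ (q : ℝ) ^ 2 * (q : ℝ) ^ (-(1 + 2 * δ)) := by
      rw [← Real.rpow_natCast, ← Real.rpow_add hq0]
      apply Real.one_le_rpow hq1
      push_cast
      linarith
    have h4 : 0 ≤ ‖dS (k0 : ℂ) (q * l)‖ ^ 2 * (l : ℝ) ^ (-(1 + 2 * δ)) := by positivity
    calc ‖dS (k0 : ℂ) (q * l)‖ ^ 2 * (l : ℝ) ^ (-(1 + 2 * δ)) ≤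
        ((q : ℝ) ^ 2 * (q : ℝ) ^ (-(1 + 2 * δ))) * (‖dS (k0 : ℂ) (q * l)‖ ^ 2 * (l : ℝ) ^ (-(1 + 2 * δ))) :=
          le_mul_of_one_le_left h4 h3
      _ = _ := by ring
  unfold tw
  rw [norm_mul, norm_mul, Complex.norm_real, Real.norm_of_nonneg (by positivity)]
  have h1 := key k hk
  have h2 := key h hh
  set x := ‖dS (k0 : ℂ) (k * l)‖
  set z := ‖dS (k0 : ℂ) (h * l)‖
  set w := (l : ℝ) ^ (-(1 + 2 * δ)) with hw
  have hw0 : 0 ≤ w := by rw [hw]; positivity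
  have h5 : x * z ≤ lam⁻¹ * x ^ 2 + lam * z ^ 2 := by
    have h6 : lam⁻¹ * x ^ 2 + lam * z ^ 2 - 2 * (x * z) = lam⁻¹ * (x - lam * z) ^ 2 := by
      field_simp
      ring
    have h7 : 0 ≤ lam⁻¹ * (x - lam * z) ^ 2 := by positivity
    have h8 : 0 ≤ x * z := by positivity
    linarith
  calc x * z * w ≤ (lam⁻¹ * x ^ 2 + lam * z ^ 2) * w := mul_le_mul_of_nonneg_right h5 hw0
    _ = lam⁻¹ * (x ^ 2 * w) + lam * (z ^ 2 * w) := by ring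
    _ ≤ _ := by gcongr

theorem GS_split {y : ℝ} {K h k l : ℕ} (hk : k ≠ 0) (hl : l ∉ GS y K h k) : k * l ∉ FS y K ∨ h * l ∉ FS y K := by
  by_contra hcon
  push Not at hcon
  apply hl
  unfold GS
  rw [mem_filter]
  refine ⟨?_, hcon.1, hcon.2⟩
  have h1 := hcon.1
  unfold FS at h1
  rw [mem_filter, mem_range] at h1
  rw [mem_range]
  refine lt_of_le_of_lt ?_ h1.1
  exact Nat.le_mul_of_pos_left l (Nat.pos_of_ne_zero hk)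

theorem inj_mul {q : ℕ} (hq : q ≠ 0) : Function.Injective fun n : ℕ => q * n := fun _ _ hab =>
    Nat.eq_of_mul_eq_mul_left (Nat.pos_of_ne_zero hq) hab

theorem trunc (h1 : S_DIA1) (R : ℝ) {D : ℝ} (hD : 0 < D) :
    ∃ C : ℝ, 0 < C ∧ ∀ h k : ℕ, h ≠ 0 → k ≠ 0 → ∃ δ0 : ℝ, 0 < δ0 ∧ ∀ δ : ℝ, 0 < δ → δ ≤ δ0 →
      ∀ (y : ℝ) (K : ℕ), 2 ≤ y → C * Real.log (1 / δ) ≤ δ * Real.log y → C * Real.log (1 / δ) ≤ K → ∀ s : ℂ, ‖s‖ ≤ R →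
      ‖(∑ n ∈ GS y K h k, tw h k s δ n) - ∑' n, tw h k s δ n‖ ≤ δ ^ D := by
  obtain ⟨k1, hk1⟩ := exists_nat_ge R
  obtain ⟨k0, hk0⟩ : ∃ k0 : ℕ, k0 = k1 + 1 := ⟨_, rfl⟩
  have hk01 : 1 ≤ k0 := by omega
  have hRk : R ≤ k0 := by rw [hk0]; push_cast; linarith
  obtain ⟨B0, hB0⟩ : ∃ B0 : ℝ, B0 = (4 : ℝ) ^ k0 * (5 / 4) := ⟨_, rfl⟩
  have hB0p : 0 < B0 := by rw [hB0]; positivity
  obtain ⟨Ex, hEx⟩ : ∃ Ex : ℝ, Ex = Real.exp (8 * DIA1.b0 k0) := ⟨_, rfl⟩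
  have hEx0 : 0 < Ex := by rw [hEx]; positivity
  obtain ⟨E1, hE1⟩ : ∃ E1 : ℝ, E1 = B0 + D + 1 := ⟨_, rfl⟩
  obtain ⟨C, δ1, hC, hδ1, hδ1h, ht⟩ := rr_tail h1 k0 (D := E1 + (D + 1)) (by rw [hE1]; linarith)
  refine ⟨C, hC, fun h k hh hk => ?_⟩
  obtain ⟨q, hq⟩ : ∃ q : ℝ, q = (h : ℝ) ^ 2 + (k : ℝ) ^ 2 := ⟨_, rfl⟩
  have hq0 : 0 < q := by
    have : (0 : ℝ) < k := by exact_mod_cast Nat.pos_of_ne_zero hk
    rw [hq]; positivity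
  refine ⟨min δ1 (1 / (q * (1 + Ex) + 1)), lt_min hδ1 (by positivity), ?_⟩
  intro δ hδ hδle y K hy hyl hK s hs
  have hδ2 : δ ≤ δ1 := hδle.trans (min_le_left _ _)
  have hδ3 : δ ≤ 1 / (q * (1 + Ex) + 1) := hδle.trans (min_le_right _ _)
  have hδh : δ ≤ 1 / 2 := hδ2.trans hδ1h
  obtain ⟨hts, htl⟩ := ht δ hδ hδ2 y K hy hyl hK
  obtain ⟨hfs, hfl⟩ := rr_sum k0 hδ hδh
  rw [← hEx, ← hB0] at hfl
  obtain ⟨lam, hlam⟩ : ∃ lam : ℝ, lam = δ ^ E1 := ⟨_, rfl⟩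
  have hlam0 : 0 < lam := by rw [hlam]; exact Real.rpow_pos_of_pos hδ _
  obtain ⟨rt, hrt⟩ : ∃ rt : ℕ → ℝ, rt = fun n => if n ∈ FS y K then 0 else rr k0 δ n := ⟨_, rfl⟩
  rw [← hrt] at hts
  have hrt0 : ∀ n, 0 ≤ rt n := fun n => by
    rw [hrt]
    simp only
    split_ifs
    · exact le_rfl
    · exact rr_nn k0 δ n
  -- the majorant of the tail of the twisted sum
  obtain ⟨g, hg⟩ : ∃ g : ℕ → ℝ, g = fun l => (lam⁻¹ * ((k : ℝ) ^ 2 * rt (k * l)) + lam * ((h : ℝ) ^ 2 * rr k0 δ (h * l))) +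
    (lam⁻¹ * ((h : ℝ) ^ 2 * rt (h * l)) + lam * ((k : ℝ) ^ 2 * rr k0 δ (k * l))) := ⟨_, rfl⟩
  have st : ∀ q : ℕ, q ≠ 0 → Summable (fun l => rt (q * l)) ∧ ∑' l, rt (q * l) ≤ δ ^ (E1 + (D + 1)) := by
    intro q hq
    have h2 : Summable (rt ∘ fun n : ℕ => q * n) := hts.summable.comp_injective (inj_mul hq)
    refine ⟨h2, ?_⟩
    have h3 := tsum_comp_le_tsum_of_inj hts.summable hrt0 (inj_mul hq)
    refine h3.trans ?_
    rw [hts.tsum_eq]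
    exact htl
  have sf : ∀ q : ℕ, q ≠ 0 → Summable (fun l => rr k0 δ (q * l)) ∧ ∑' l, rr k0 δ (q * l) ≤ Ex * δ ^ (-B0) := by
    intro q hq
    have h2 : Summable (rr k0 δ ∘ fun n : ℕ => q * n) := hfs.comp_injective (inj_mul hq)
    refine ⟨h2, ?_⟩
    have h3 := tsum_comp_le_tsum_of_inj hfs (rr_nn k0 δ) (inj_mul hq)
    exact h3.trans hfl
  have hgs : HasSum g ((lam⁻¹ * ((k : ℝ) ^ 2 * ∑' l, rt (k * l)) + lam * ((h : ℝ) ^ 2 * ∑' l, rr k0 δ (h * l))) +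
    (lam⁻¹ * ((h : ℝ) ^ 2 * ∑' l, rt (h * l)) + lam * ((k : ℝ) ^ 2 * ∑' l, rr k0 δ (k * l)))) := by
    rw [hg]
    exact ((((st k hk).1.hasSum.mul_left _).mul_left _).add (((sf h hh).1.hasSum.mul_left _).mul_left _)).add
      ((((st h hh).1.hasSum.mul_left _).mul_left _).add (((sf k hk).1.hasSum.mul_left _).mul_left _))
  have hg0 : ∀ l, 0 ≤ g l := fun l => by
    rw [hg]
    have a1 := hrt0 (k * l)
    have a2 := hrt0 (h * l)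
    have a3 := rr_nn k0 δ (k * l)
    have a4 := rr_nn k0 δ (h * l)
    positivity
  have hsk : ‖s‖ ≤ k0 := hs.trans hRk
  have hsum : Summable (tw h k s δ) := (tw_summable hh hk hk01 hsk hδ).of_norm
  rw [norm_sub_rev, ← (Pool.Agent.N748.MJ.DIA1V.split (tw h k s δ) hsum (GS y K h k)).tsum_eq]
  refine (tsum_of_norm_bounded hgs fun l => ?_).trans ?_
  · split_ifs with hl
    · rw [norm_zero]
      exact hg0 l
    · refine (tw_le hsk δ l).trans ?_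
      rw [hg]
      have a1 := hrt0 (k * l)
      have a2 := hrt0 (h * l)
      have a3 := rr_nn k0 δ (k * l)
      have a4 := rr_nn k0 δ (h * l)
      rcases GS_split hk hl with h2 | h2
      · have h3 := tw_am (k0 := k0) hh hk hδ hδh hlam0 l
        have h4 : rt (k * l) = rr k0 δ (k * l) := by rw [hrt]; simp only [if_neg h2]
        simp only
        rw [h4]
        refine h3.trans (le_add_of_nonneg_right (by positivity))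
      · have h3 := tw_am (k0 := k0) hk hh hδ hδh hlam0 l
        have h4 : rt (h * l) = rr k0 δ (h * l) := by rw [hrt]; simp only [if_neg h2]
        have h5 : ‖tw h k (k0 : ℂ) δ l‖ = ‖tw k h (k0 : ℂ) δ l‖ := by
          unfold tw
          rw [mul_comm (dS (k0 : ℂ) (k * l))]
        simp only
        rw [h4, h5]
        refine h3.trans (le_add_of_nonneg_left (by positivity))
  · have b1 := (st k hk).2
    have b2 := (st h hh).2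
    have b3 := (sf k hk).2
    have b4 := (sf h hh).2
    have c1 : lam⁻¹ * δ ^ (E1 + (D + 1)) = δ * δ ^ D := by
      rw [hlam, ← Real.rpow_neg hδ.le, ← Real.rpow_add hδ, mul_comm δ, ← Real.rpow_add_one hδ.ne']
      congr 1
      ring
    have c2 : lam * (Ex * δ ^ (-B0)) = Ex * (δ * δ ^ D) := by
      rw [hlam, mul_left_comm, ← Real.rpow_add hδ, mul_comm δ, ← Real.rpow_add_one hδ.ne', hE1]
      congr 2
      ring
    have c3 : 0 < δ ^ D := Real.rpow_pos_of_pos hδ _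
    calc (lam⁻¹ * ((k : ℝ) ^ 2 * ∑' l, rt (k * l)) + lam * ((h : ℝ) ^ 2 * ∑' l, rr k0 δ (h * l))) +
        (lam⁻¹ * ((h : ℝ) ^ 2 * ∑' l, rt (h * l)) + lam * ((k : ℝ) ^ 2 * ∑' l, rr k0 δ (k * l)))
        ≤ (lam⁻¹ * ((k : ℝ) ^ 2 * δ ^ (E1 + (D + 1))) + lam * ((h : ℝ) ^ 2 * (Ex * δ ^ (-B0)))) +
        (lam⁻¹ * ((h : ℝ) ^ 2 * δ ^ (E1 + (D + 1))) + lam * ((k : ℝ) ^ 2 * (Ex * δ ^ (-B0)))) := by gcongr
      _ = q * (lam⁻¹ * δ ^ (E1 + (D + 1)) + lam * (Ex * δ ^ (-B0))) := by rw [hq]; ring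
      _ = (q * (1 + Ex)) * δ * δ ^ D := by rw [c1, c2]; ring
      _ ≤ 1 * δ ^ D := by
        refine mul_le_mul_of_nonneg_right ?_ c3.le
        rw [le_div_iff₀ (by positivity)] at hδ3
        nlinarith
      _ = δ ^ D := one_mul _

end Pool.Agent.U899.TM
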